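import Mathlib
import Pool.Agent.H713R3.ZA.Mot2

/-! Holomorphic families of polynomials whose critical points do not escape: Böttcher coordinates
(adapted from `Pool.Agent.H713R3.ZA.Boett` and `Mot1`, where the critical points are marked). -/

set_option autoImplicit false

open Topology Filter Metric Set Polynomial MeasureTheory

namespace Pool.Agent.H69N.LA

open Pool.Agent.H713R3.ZA (StROOT StINV StBSUM KJ QQ lead_bound)

/-- evaluation of a family of polynomials -/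
noncomputable def fv (f : ℂ → ℂ[X]) (t : ℂ) : ℂ → ℂ := fun z => (f t).eval z

/-- holomorphic families of polynomials with constant first two coefficients, no critical point
escaping -/
structure FA (a : ℂ) (n : ℕ) (ρ A : ℝ) (f : ℂ → ℂ[X]) : Prop where
  ρ0 : 0 < ρ
  a0 : a ≠ 0
  n1 : 1 ≤ n
  A0 : 0 ≤ A
  deg : ∀ t ∈ ball (0 : ℂ) ρ, (f t).natDegree ≤ n + 1
  lead : ∀ t ∈ ball (0 : ℂ) ρ, (f t).coeff (n + 1) = a
  sec : ∀ t ∈ ball (0 : ℂ) ρ, (f t).coeff n = (f 0).coeff n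
  hol : ∀ j : ℕ, DifferentiableOn ℂ (fun t => (f t).coeff j) (ball 0 ρ)
  bd : ∀ t ∈ ball (0 : ℂ) ρ, ∀ j : ℕ, ‖(f t).coeff j‖ ≤ A
  non : ∀ t ∈ ball (0 : ℂ) ρ, ∀ c : ℂ, (derivative (f t)).eval c = 0 → c ∈ KJ (f t)

/-- Böttcher data. -/
structure BU (a : ℂ) (n : ℕ) (ρ : ℝ) (f : ℂ → ℂ[X]) (R C₁ R₁ R₃ : ℝ) (ψ φ : ℂ × ℂ → ℂ) : Prop where
  hR : 1 ≤ R
  hC : 0 < C₁
  hR₁ : R + 2 * C₁ ≤ R₁
  hR₃ : R₁ + C₁ ≤ R₃
  esc : ∀ x ∈ ball (0 : ℂ) ρ, ∀ z, R ≤ ‖z‖ → 2 * ‖z‖ ≤ ‖fv f x z‖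
  ψd : DifferentiableOn ℂ ψ (ball 0 ρ ×ˢ {w : ℂ | R₁ < ‖w‖})
  ψc : ∀ x ∈ ball (0 : ℂ) ρ, ∀ w : ℂ, R₁ < ‖w‖ → ‖ψ (x, w) - w‖ ≤ C₁
  ψi : ∀ x ∈ ball (0 : ℂ) ρ, InjOn (fun w => ψ (x, w)) {w : ℂ | R₁ < ‖w‖}
  pw : ∀ w : ℂ, R₁ < ‖w‖ → 2 * ‖w‖ ≤ ‖a * w ^ (n + 1)‖
  fe : ∀ x ∈ ball (0 : ℂ) ρ, ∀ w : ℂ, R₁ < ‖w‖ → fv f x (ψ (x, w)) = ψ (x, a * w ^ (n + 1))
  φd : DifferentiableOn ℂ φ (ball 0 ρ ×ˢ {z : ℂ | R₃ < ‖z‖})
  φc : ∀ x ∈ ball (0 : ℂ) ρ, ∀ z : ℂ, R₃ < ‖z‖ → ‖φ (x, z) - z‖ ≤ C₁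
  ψφ : ∀ x ∈ ball (0 : ℂ) ρ, ∀ z : ℂ, R₃ < ‖z‖ → ψ (x, φ (x, z)) = z

section
variable {a : ℂ} {n : ℕ} {ρ A : ℝ} {f : ℂ → ℂ[X]}

/-- joint holomorphy -/
theorem FA.eval_diff (hf : FA a n ρ A f) :
    DifferentiableOn ℂ (fun q : ℂ × ℂ => fv f q.1 q.2) (ball (0 : ℂ) ρ ×ˢ univ) := by
  have h : ∀ q ∈ ball (0 : ℂ) ρ ×ˢ (univ : Set ℂ), fv f q.1 q.2 =
      ∑ i ∈ Finset.range (n + 2), (f q.1).coeff i * q.2 ^ i := by
    rintro ⟨t, z⟩ ⟨ht, -⟩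
    exact Polynomial.eval_eq_sum_range' (lt_of_le_of_lt (hf.deg t ht) (by omega)) z
  refine DifferentiableOn.congr ?_ h
  apply DifferentiableOn.fun_sum
  intro i _
  apply DifferentiableOn.mul
  · exact (hf.hol i).comp differentiable_fst.differentiableOn (fun q hq => hq.1)
  · exact (differentiable_snd.pow i).differentiableOn

theorem FA.iter_diff (hf : FA a n ρ A f) (N : ℕ) :
    DifferentiableOn ℂ (fun q : ℂ × ℂ => (fv f q.1)^[N] q.2) (ball (0 : ℂ) ρ ×ˢ univ) := by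
  induction N with
  | zero => simpa using differentiable_snd.differentiableOn
  | succ N ih =>
    have h : (fun q : ℂ × ℂ => (fv f q.1)^[N + 1] q.2) = fun q => fv f q.1 ((fv f q.1)^[N] q.2) := by
      funext q; rw [Function.iterate_succ_apply']
    rw [h]
    have h1 : DifferentiableOn ℂ (fun q : ℂ × ℂ => ((q.1, (fv f q.1)^[N] q.2) : ℂ × ℂ))
        (ball (0 : ℂ) ρ ×ˢ univ) := differentiable_fst.differentiableOn.prodMk ih
    exact hf.eval_diff.comp h1 (fun q hq => ⟨hq.1, mem_univ _⟩)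

theorem FA.exists_boett (hf : FA a n ρ A f) (hB : StBSUM) (hI : StINV) :
    ∃ (R C₁ R₁ R₃ : ℝ) (ψ φ : ℂ × ℂ → ℂ), BU a n ρ f R C₁ R₁ R₃ ψ φ := by
  have ha := hf.a0
  have hn := hf.n1
  have hA0 := hf.A0
  obtain ⟨R₀, hR₀1, hesc'⟩ := Pool.Agent.H792R2.Dyn.escape_radius (d := n + 1) (by omega)
    (norm_pos_iff.mpr ha) hA0
  have hesc : ∀ x ∈ ball (0 : ℂ) ρ, ∀ z, R₀ ≤ ‖z‖ → 2 * ‖z‖ ≤ ‖fv f x z‖ := fun x hx z hz =>
    hesc' (f x) (hf.deg x hx) (by rw [hf.lead x hx]) (hf.bd x hx) z hz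
  have hapos : 0 < ‖a‖ := norm_pos_iff.mpr ha
  set K : ℝ := ((n + 1 : ℕ) : ℝ) * A / ‖a‖ with hK
  have hK0 : 0 ≤ K := by positivity
  set R : ℝ := max R₀ (max (4 * K + 1) (2 / ‖a‖ + 1)) with hR
  have hRR₀ : R₀ ≤ R := le_max_left _ _
  have hRK : 4 * K + 1 ≤ R := (le_max_left _ _).trans (le_max_right _ _)
  have hRa : 2 / ‖a‖ + 1 ≤ R := (le_max_right _ _).trans (le_max_right _ _)
  have hR1 : 1 ≤ R := hR₀1.trans hRR₀
  have hfd : DifferentiableOn ℂ (fun p : ℂ × ℂ => fv f p.1 p.2)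
      (ball 0 ρ ×ˢ {z : ℂ | R < ‖z‖}) := hf.eval_diff.mono (prod_mono subset_rfl (subset_univ _))
  obtain ⟨u, hud, hu⟩ := hB ℂ (ball 0 ρ) (n + 1) a R K (fv f) isOpen_ball (by omega) ha hR1
    hK0 (by linarith) hfd (by
      intro x hx z hz
      exact ⟨hesc x hx z (by linarith), lead_bound ha hA0 (hf.deg x hx)
        (hf.lead x hx) (hf.bd x hx) (by linarith)⟩)
  -- the Böttcher map
  set g : ℂ × ℂ → ℂ := fun p => p.2 * (Complex.exp (u p) - 1) with hg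
  set C₁ : ℝ := 4 * K + 1 with hC₁
  have hC₁0 : 0 < C₁ := by positivity
  have hgd : DifferentiableOn ℂ g (ball 0 ρ ×ˢ {z : ℂ | R < ‖z‖}) := by
    have h1 : DifferentiableOn ℂ (fun p : ℂ × ℂ => p.2) (ball 0 ρ ×ˢ {z : ℂ | R < ‖z‖}) :=
      differentiable_snd.differentiableOn
    exact h1.mul ((hud.cexp).sub_const 1)
  have hgb : ∀ x ∈ ball (0 : ℂ) ρ, ∀ z : ℂ, R < ‖z‖ → ‖g (x, z)‖ ≤ C₁ := by
    intro x hx z hz
    have hzpos : 0 < ‖z‖ := by linarith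
    have h1 := (hu x hx z hz).1
    have h2 : ‖u (x, z)‖ ≤ 1 := by
      refine h1.trans ?_
      rw [div_le_one hzpos]; linarith
    have h3 : ‖Complex.exp (u (x, z)) - 1‖ ≤ 2 * ‖u (x, z)‖ := Complex.norm_exp_sub_one_le h2
    calc ‖g (x, z)‖ = ‖z‖ * ‖Complex.exp (u (x, z)) - 1‖ := by simp only [hg, norm_mul]
      _ ≤ ‖z‖ * (2 * (2 * K / ‖z‖)) := by
          apply mul_le_mul_of_nonneg_left _ hzpos.le
          linarith
      _ = 4 * K := by field_simp; ring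
      _ ≤ C₁ := by linarith
  set R₁ : ℝ := R + 10 * C₁ with hR₁
  obtain ⟨ψ, hψd, hψ⟩ := hI ℂ (ball 0 ρ) R C₁ g isOpen_ball (by linarith) hC₁0 hgd hgb R₁ le_rfl
  set φ : ℂ × ℂ → ℂ := fun p => p.2 + g p with hφ
  have hφu : ∀ p : ℂ × ℂ, φ p = p.2 * Complex.exp (u p) := by
    intro p; simp only [hφ, hg]; ring
  set R₃ : ℝ := R₁ + C₁ with hR₃
  have hpw : ∀ w : ℂ, R₁ < ‖w‖ → 2 * ‖w‖ ≤ ‖a * w ^ (n + 1)‖ := by
    intro w hw
    have hw1 : 1 ≤ ‖w‖ := by linarith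
    have hw2 : 2 / ‖a‖ ≤ ‖w‖ := by linarith
    rw [div_le_iff₀ hapos] at hw2
    rw [norm_mul, norm_pow, pow_succ]
    have h1 : ‖w‖ ≤ ‖w‖ ^ n := by
      calc ‖w‖ = ‖w‖ ^ 1 := (pow_one _).symm
        _ ≤ ‖w‖ ^ n := pow_le_pow_right₀ hw1 hn
    calc 2 * ‖w‖ ≤ (‖w‖ * ‖a‖) * ‖w‖ := mul_le_mul_of_nonneg_right hw2 (by linarith)
      _ ≤ (‖w‖ ^ n * ‖a‖) * ‖w‖ := by gcongr
      _ = ‖a‖ * (‖w‖ ^ n * ‖w‖) := by ring
  refine ⟨R, C₁, R₁, R₃, ψ, φ, hR1, hC₁0, by linarith, le_rfl, fun x hx z hz =>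
    hesc x hx z (by linarith), hψd, fun x hx w hw => ((hψ x hx).1 w hw).1, ?_, hpw, ?_, ?_, ?_, ?_⟩
  · intro x hx w₁ hw₁ w₂ hw₂ h
    have h1 := ((hψ x hx).1 w₁ hw₁).2
    have h2 := ((hψ x hx).1 w₂ hw₂).2
    simp only at h
    rw [← h1, ← h2, h]
  · intro x hx w hw
    obtain ⟨h1, h2⟩ := (hψ x hx).1 w hw
    set z := ψ (x, w) with hz
    have hzn : R₁ - C₁ < ‖z‖ := by
      have := norm_sub_norm_le w z
      rw [norm_sub_rev] at this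
      linarith
    have hzR : R < ‖z‖ := by linarith
    have h3 : φ (x, z) = w := h2
    have h4 := (hu x hx z hzR).2
    have h5 : φ (x, fv f x z) = a * w ^ (n + 1) := by
      rw [hφu, ← h3, hφu]
      exact h4
    have h6 := hesc x hx z (by linarith)
    have h7 := (hψ x hx).2 (fv f x z) (by linarith) (by
      change R₁ < ‖φ (x, fv f x z)‖
      rw [h5]
      have := hpw w hw
      linarith)
    change ψ (x, φ (x, fv f x z)) = fv f x z at h7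
    rw [h5] at h7
    exact h7.symm
  · apply (DifferentiableOn.add differentiable_snd.differentiableOn hgd).mono
    apply prod_mono subset_rfl
    intro z (hz : R₃ < ‖z‖)
    show R < ‖z‖
    linarith
  · intro x hx z hz
    have : φ (x, z) - z = g (x, z) := by simp only [hφ]; ring
    rw [this]
    exact hgb x hx z (by linarith)
  · intro x hx z hz
    apply (hψ x hx).2 z (by linarith)
    have h1 := hgb x hx z (by linarith)
    have h2 : ‖z‖ - ‖g (x, z)‖ ≤ ‖z + g (x, z)‖ := by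
      have := norm_sub_norm_le z (-g (x, z))
      rwa [norm_neg, sub_neg_eq_add] at this
    linarith

end

section
variable {a : ℂ} {n : ℕ} {ρ A : ℝ} {f : ℂ → ℂ[X]} {R C₁ R₁ R₃ : ℝ} {ψ φ : ℂ × ℂ → ℂ}

theorem BU.QQ_iter (hb : BU a n ρ f R C₁ R₁ R₃ ψ φ) {w : ℂ} (hw : R₁ < ‖w‖) (N : ℕ) :
    R₁ < ‖(QQ a n)^[N] w‖ := by
  have hR₁ : 0 < R₁ := by have := hb.hR; have := hb.hC; have := hb.hR₁; linarith
  induction N with
  | zero => exact hw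
  | succ N ih =>
    rw [Function.iterate_succ_apply']
    have h1 := hb.pw _ ih
    have h2 : QQ a n ((QQ a n)^[N] w) = a * (QQ a n)^[N] w ^ (n + 1) := rfl
    rw [h2]
    linarith

theorem BU.fe_iter (hb : BU a n ρ f R C₁ R₁ R₃ ψ φ) {x : ℂ} (hx : x ∈ ball (0 : ℂ) ρ) {w : ℂ}
    (hw : R₁ < ‖w‖) (N : ℕ) : (fv f x)^[N] (ψ (x, w)) = ψ (x, (QQ a n)^[N] w) := by
  induction N with
  | zero => rfl
  | succ N ih =>
    rw [Function.iterate_succ_apply', ih, hb.fe x hx _ (hb.QQ_iter hw N),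
      Function.iterate_succ_apply']
    rfl

theorem fv_differentiable (f : ℂ → ℂ[X]) (x : ℂ) : Differentiable ℂ (fv f x) :=
  (f x).differentiable

theorem deriv_fv (f : ℂ → ℂ[X]) (x z : ℂ) : deriv (fv f x) z = (derivative (f x)).eval z :=
  (f x).deriv

theorem exists_crit_iter {x : ℂ} {z : ℂ} (N : ℕ) (h : deriv ((fv f x)^[N]) z = 0) :
    ∃ (c : ℂ) (m : ℕ), (derivative (f x)).eval c = 0 ∧ 1 ≤ m ∧ m ≤ N ∧
      (fv f x)^[N] z = (fv f x)^[m] c := by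
  induction N generalizing z with
  | zero =>
    exfalso
    rw [Function.iterate_zero, deriv_id] at h
    exact one_ne_zero h
  | succ N ih =>
    rw [Function.iterate_succ, deriv_comp _ (((fv_differentiable f x).iterate N) _)
      ((fv_differentiable f x) _), mul_eq_zero] at h
    rcases h with h | h
    · obtain ⟨c, m, h0, h1, h2, h3⟩ := ih h
      exact ⟨c, m, h0, h1, by omega, by rw [Function.iterate_succ_apply]; exact h3⟩
    · exact ⟨z, N + 1, by rw [← deriv_fv]; exact h, by omega, le_rfl, rfl⟩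

theorem BU.lt_of_mem_KJ (hb : BU a n ρ f R C₁ R₁ R₃ ψ φ) {x : ℂ} (hx : x ∈ ball (0 : ℂ) ρ) {z : ℂ}
    (hz : z ∈ KJ (f x)) (k : ℕ) : ‖(fv f x)^[k] z‖ < R := by
  have hR : 0 < R := by have := hb.hR; linarith
  by_contra h1
  push Not at h1
  apply hz
  rw [← tendsto_add_atTop_iff_nat k]
  have h2 := Pool.Agent.H792R2.Dyn.attr_of_large hR
    (fun z hz => hb.esc x hx z hz) h1
  simp only [← Function.iterate_add_apply] at h2
  exact h2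

theorem BU.iter_large (hb : BU a n ρ f R C₁ R₁ R₃ ψ φ) {x : ℂ} (hx : x ∈ ball (0 : ℂ) ρ) {z : ℂ}
    (hz : R ≤ ‖z‖) (k : ℕ) : ‖z‖ ≤ ‖(fv f x)^[k] z‖ := by
  induction k with
  | zero => exact le_rfl
  | succ k ih =>
    rw [Function.iterate_succ_apply']
    have h1 := hb.esc x hx _ (hz.trans ih)
    have := norm_nonneg ((fv f x)^[k] z)
    linarith

/-- The domain of the motion at level `N`. -/
def WU (f : ℂ → ℂ[X]) (R₃ : ℝ) (N : ℕ) : Set ℂ := {z | R₃ < ‖(fv f 0)^[N] z‖}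

/-- the marked value -/
noncomputable def PU (f : ℂ → ℂ[X]) (φ : ℂ × ℂ → ℂ) (N : ℕ) (z : ℂ) : ℂ :=
  φ (0, (fv f 0)^[N] z)

theorem PU_norm (hf : FA a n ρ A f) (hb : BU a n ρ f R C₁ R₁ R₃ ψ φ) {N : ℕ}
    {z : ℂ} (hz : z ∈ WU f R₃ N) : R₁ < ‖PU f φ N z‖ := by
  have h1 := hb.φc 0 (mem_ball_self hf.ρ0) _ hz
  have h2 : ‖(fv f 0)^[N] z‖ - ‖PU f φ N z‖ ≤ C₁ := by
    have := norm_sub_norm_le ((fv f 0)^[N] z) (PU f φ N z)
    rw [norm_sub_rev] at this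
    exact this.trans h1
  have h3 : R₃ < ‖(fv f 0)^[N] z‖ := hz
  have := hb.hR₃
  linarith

theorem ψ_PU (hf : FA a n ρ A f) (hb : BU a n ρ f R C₁ R₁ R₃ ψ φ) {N : ℕ}
    {z : ℂ} (hz : z ∈ WU f R₃ N) : ψ (0, PU f φ N z) = (fv f 0)^[N] z :=
  hb.ψφ 0 (mem_ball_self hf.ρ0) _ hz

/-- All the solutions are simple. -/
theorem simple_root (hf : FA a n ρ A f) (hb : BU a n ρ f R C₁ R₁ R₃ ψ φ) {N : ℕ} {z : ℂ}
    (hz : z ∈ WU f R₃ N) {t : ℂ} (ht : t ∈ ball (0 : ℂ) ρ) {ζ : ℂ}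
    (hζ : (fv f t)^[N] ζ = ψ (t, PU f φ N z)) : deriv ((fv f t)^[N]) ζ ≠ 0 := by
  intro h0
  set w := PU f φ N z with hw
  have hw1 : R₁ < ‖w‖ := PU_norm hf hb hz
  obtain ⟨c, m, hc, hm1, hm2, hm3⟩ := exists_crit_iter N h0
  rw [hζ] at hm3
  have h1 := hb.lt_of_mem_KJ ht (hf.non t ht c hc) m
  rw [← hm3] at h1
  have h2 := hb.ψc t ht w hw1
  have h3 := norm_sub_norm_le w (ψ (t, w))
  rw [norm_sub_rev] at h3
  have := hb.hR₁
  have := hb.hC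
  linarith

theorem isOpen_WU (f : ℂ → ℂ[X]) (R₃ : ℝ) (N : ℕ) : IsOpen (WU f R₃ N) :=
  isOpen_lt continuous_const ((fv_differentiable f 0).continuous.iterate N).norm

theorem PU_diff (hf : FA a n ρ A f) (hb : BU a n ρ f R C₁ R₁ R₃ ψ φ) (N : ℕ) :
    DifferentiableOn ℂ (PU f φ N) (WU f R₃ N) := by
  intro z hz
  apply DifferentiableAt.differentiableWithinAt
  have h1 : DifferentiableAt ℂ φ (0, (fv f 0)^[N] z) :=
    hb.φd.differentiableAt ((isOpen_ball.prod (isOpen_lt continuous_const continuous_norm)).mem_nhds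
      ⟨mem_ball_self hf.ρ0, hz⟩)
  have h2 : DifferentiableAt ℂ (fun z : ℂ => ((0, (fv f 0)^[N] z) : ℂ × ℂ)) z :=
    (differentiableAt_const 0).prodMk (((fv_differentiable f 0).iterate N) z)
  exact h1.comp z h2

theorem BU.ψ_comp_diff (hb : BU a n ρ f R C₁ R₁ R₃ ψ φ) {V : Type} [NormedAddCommGroup V]
    [NormedSpace ℂ V] {U : Set V} {g : V → ℂ} {w : V → ℂ} (hg : DifferentiableOn ℂ g U)
    (hw : DifferentiableOn ℂ w U) (hgB : ∀ s ∈ U, g s ∈ ball (0 : ℂ) ρ)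
    (hwR : ∀ s ∈ U, R₁ < ‖w s‖) : DifferentiableOn ℂ (fun s => ψ (g s, w s)) U := by
  have h1 : DifferentiableOn ℂ (fun s => ((g s, w s) : ℂ × ℂ)) U := hg.prodMk hw
  exact hb.ψd.comp h1 (fun s hs => ⟨hgB s hs, hwR s hs⟩)

theorem root_gen (hROOT : StROOT) (hf : FA a n ρ A f) (hb : BU a n ρ f R C₁ R₁ R₃ ψ φ)
    (N : ℕ) {V : Type} [NormedAddCommGroup V]
    [NormedSpace ℂ V] [FiniteDimensional ℂ V] {U : Set V} (hUo : IsOpen U) (hUc : Convex ℝ U)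
    {τ σ : V → ℂ} (hτ : DifferentiableOn ℂ τ U) (hσ : DifferentiableOn ℂ σ U)
    (hτm : ∀ s ∈ U, τ s ∈ ball (0 : ℂ) ρ) (hσm : ∀ s ∈ U, σ s ∈ WU f R₃ N)
    {s₀ : V} (hs₀ : s₀ ∈ U) {u : ℂ}
    (hu : (fv f (τ s₀))^[N] u = ψ (τ s₀, PU f φ N (σ s₀))) :
    ∃ Z : V → ℂ, DifferentiableOn ℂ Z U ∧ Z s₀ = u ∧
      (∀ s ∈ U, (fv f (τ s))^[N] (Z s) = ψ (τ s, PU f φ N (σ s))) ∧
      ∀ Z' : V → ℂ, ContinuousOn Z' U → (∃ s₁ ∈ U, Z' s₁ = Z s₁) →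
        (∀ s ∈ U, (fv f (τ s))^[N] (Z' s) = ψ (τ s, PU f φ N (σ s))) →
        ∀ s ∈ U, Z' s = Z s := by
  have hPσ : DifferentiableOn ℂ (fun s => PU f φ N (σ s)) U :=
    (PU_diff hf hb N).comp hσ (fun s hs => hσm s hs)
  have hPR : ∀ s ∈ U, R₁ < ‖PU f φ N (σ s)‖ := fun s hs => PU_norm hf hb (hσm s hs)
  have hψd : DifferentiableOn ℂ (fun s => ψ (τ s, PU f φ N (σ s))) U :=
    hb.ψ_comp_diff hτ hPσ (fun s hs => hτm s hs) hPR
  set G : V → ℂ → ℂ := fun s z => (fv f (τ s))^[N] z - ψ (τ s, PU f φ N (σ s)) with hG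
  have hGd : DifferentiableOn ℂ (fun p : V × ℂ => G p.1 p.2) (U ×ˢ univ) := by
    have h1 : DifferentiableOn ℂ (fun p : V × ℂ => ((τ p.1, p.2) : ℂ × ℂ)) (U ×ˢ univ) := by
      apply DifferentiableOn.prodMk _ differentiable_snd.differentiableOn
      exact hτ.comp differentiable_fst.differentiableOn (fun p hp => hp.1)
    have h2 : DifferentiableOn ℂ (fun p : V × ℂ => (fv f (τ p.1))^[N] p.2) (U ×ˢ univ) := by
      have hH := hf.iter_diff N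
      revert hH
      generalize hHe : (fun q : ℂ × ℂ => (fv f q.1)^[N] q.2) = H
      intro hH
      have h4 : (fun p : V × ℂ => (fv f (τ p.1))^[N] p.2) =
          fun p => H ((fun p : V × ℂ => ((τ p.1, p.2) : ℂ × ℂ)) p) := by
        funext p
        rw [← hHe]
      rw [h4]
      exact hH.comp h1 (fun p hp => ⟨hτm p.1 hp.1, mem_univ _⟩)
    have h3 : DifferentiableOn ℂ (fun p : V × ℂ => ψ (τ p.1, PU f φ N (σ p.1)))
        (U ×ˢ univ) := hψd.comp differentiable_fst.differentiableOn (fun p hp => hp.1)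
    exact h2.sub h3
  have hGc : ContDiffOn ℂ 1 (fun p : V × ℂ => G p.1 p.2) (U ×ˢ univ) := by
    exact_mod_cast Pool.Agent.Helper540.contDiffOn_of_differentiableOn (hUo.prod isOpen_univ) hGd 1
  obtain ⟨Z, hZd, hZ0, hZr, hZu⟩ := hROOT V U G hUo hUc hGc (by
    intro K hKU hK M'
    obtain ⟨A, hA⟩ := hK.exists_bound_of_continuousOn (hψd.continuousOn.mono hKU)
    refine ⟨max R (M' + A), fun s hs z hz => ?_⟩
    by_contra hcon
    push Not at hcon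
    rw [max_lt_iff] at hcon
    have h1 := hb.iter_large (hτm s (hKU hs)) hcon.1.le N
    have h2 : ‖(fv f (τ s))^[N] z‖ ≤ ‖G s z‖ + ‖ψ (τ s, PU f φ N (σ s))‖ := by
      have : (fv f (τ s))^[N] z = G s z + ψ (τ s, PU f φ N (σ s)) := by
        simp only [hG]; ring
      rw [this]; exact norm_add_le _ _
    have h3 := hA s hs
    linarith [hcon.2]) (by
    intro s hs z hz
    have h1 : deriv (G s) z = deriv ((fv f (τ s))^[N]) z := by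
      simp only [hG]
      exact deriv_sub_const (f := (fv f (τ s))^[N]) _
    rw [h1]
    have h2 := hσm s hs
    exact simple_root hf hb h2 (hτm s hs) (sub_eq_zero.mp hz)) s₀ hs₀ u
    (by simp only [hG]; rw [hu, sub_self])
  refine ⟨Z, hZd, hZ0, fun s hs => sub_eq_zero.mp (hZr s hs), ?_⟩
  intro Z' h1 h2 h3
  exact hZu Z' h1 h2 (fun s hs => by simp only [hG]; rw [h3 s hs, sub_self])

/-- The motion at level `N`. -/
theorem exists_mot (hROOT : StROOT) (hf : FA a n ρ A f) (hb : BU a n ρ f R C₁ R₁ R₃ ψ φ) (N : ℕ) :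
    ∃ Φ : ℂ → ℂ → ℂ,
      DifferentiableOn ℂ (fun p : ℂ × ℂ => Φ p.1 p.2) (ball (0 : ℂ) ρ ×ˢ WU f R₃ N) ∧
      (∀ z ∈ WU f R₃ N, Φ 0 z = z) ∧
      (∀ t ∈ ball (0 : ℂ) ρ, ∀ z ∈ WU f R₃ N, (fv f t)^[N] (Φ t z) = ψ (t, PU f φ N z)) ∧
      ∀ z ∈ WU f R₃ N, ∀ Z' : ℂ → ℂ, ContinuousOn Z' (ball (0 : ℂ) ρ) →
        (∃ t₁ ∈ ball (0 : ℂ) ρ, Z' t₁ = Φ t₁ z) →
        (∀ t ∈ ball (0 : ℂ) ρ, (fv f t)^[N] (Z' t) = ψ (t, PU f φ N z)) →
        ∀ t ∈ ball (0 : ℂ) ρ, Z' t = Φ t z := by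
  classical
  set W := WU f R₃ N with hW
  have hWo : IsOpen W := isOpen_WU f R₃ N
  have h1 : ∀ z ∈ W, ∃ Z : ℂ → ℂ, DifferentiableOn ℂ Z (ball 0 ρ) ∧ Z 0 = z ∧
      (∀ t ∈ ball (0 : ℂ) ρ, (fv f t)^[N] (Z t) = ψ (t, PU f φ N z)) ∧
      ∀ Z' : ℂ → ℂ, ContinuousOn Z' (ball 0 ρ) → (∃ s₁ ∈ ball (0 : ℂ) ρ, Z' s₁ = Z s₁) →
        (∀ t ∈ ball (0 : ℂ) ρ, (fv f t)^[N] (Z' t) = ψ (t, PU f φ N z)) →
        ∀ t ∈ ball (0 : ℂ) ρ, Z' t = Z t := by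
    intro z hz
    exact root_gen hROOT hf hb N (V := ℂ) (U := ball 0 ρ) (τ := id) (σ := fun _ => z)
      isOpen_ball (convex_ball 0 ρ) differentiableOn_id (differentiableOn_const z)
      (fun s hs => hs) (fun _ _ => hz) (mem_ball_self hf.ρ0) (ψ_PU hf hb hz).symm
  choose! Z hZd hZ0 hZr hZu using h1
  refine ⟨fun t z => Z z t, ?_, hZ0, fun t ht z hz => hZr z hz t ht, fun z hz Z' h2 h3 h4 =>
    hZu z hz Z' h2 h3 h4⟩
  rintro ⟨t₁, z₁⟩ ⟨ht₁, hz₁⟩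
  apply DifferentiableAt.differentiableWithinAt
  obtain ⟨δ, hδ, hball⟩ := Metric.isOpen_iff.mp hWo z₁ hz₁
  have hU : IsOpen (ball (0 : ℂ) ρ ×ˢ ball z₁ δ) := isOpen_ball.prod isOpen_ball
  obtain ⟨Y, hYd, hY0, hYr, hYu⟩ := root_gen hROOT hf hb N (V := ℂ × ℂ)
    (U := ball (0 : ℂ) ρ ×ˢ ball z₁ δ) (τ := Prod.fst) (σ := Prod.snd) hU
    ((convex_ball 0 ρ).prod (convex_ball z₁ δ)) differentiable_fst.differentiableOn
    differentiable_snd.differentiableOn (fun s hs => hs.1) (fun s hs => hball hs.2)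
    (s₀ := (0, z₁)) ⟨mem_ball_self hf.ρ0, mem_ball_self hδ⟩ (ψ_PU hf hb hz₁).symm
  -- at time zero `Y` is the identity
  obtain ⟨Y₀, -, hY₀0, -, hY₀u⟩ := root_gen hROOT hf hb N (V := ℂ)
    (U := ball z₁ δ) (τ := fun _ => 0) (σ := id) isOpen_ball
    (convex_ball z₁ δ) (differentiableOn_const 0)
    differentiableOn_id (fun s hs => mem_ball_self hf.ρ0) (fun s hs => hball hs)
    (s₀ := z₁) (mem_ball_self hδ) (ψ_PU hf hb hz₁).symm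
  have hid : ∀ z ∈ ball z₁ δ, Y (0, z) = z := by
    have e0 : ∀ z ∈ ball z₁ δ, id z = Y₀ z := hY₀u id continuousOn_id
      ⟨z₁, mem_ball_self hδ, hY₀0.symm⟩ (fun z hz => (ψ_PU hf hb (hball hz)).symm)
    have e1 : ∀ z ∈ ball z₁ δ, (fun z => Y (0, z)) z = Y₀ z := by
      apply hY₀u
      · exact hYd.continuousOn.comp (by fun_prop) (fun z hz => ⟨mem_ball_self hf.ρ0, hz⟩)
      · exact ⟨z₁, mem_ball_self hδ, by
          have := e0 z₁ (mem_ball_self hδ)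
          simp only [id] at this
          rw [← this]; exact hY0⟩
      · intro z hz
        exact hYr (0, z) ⟨mem_ball_self hf.ρ0, hz⟩
    intro z hz
    have := (e1 z hz).trans (e0 z hz).symm
    simpa using this
  have heq : ∀ p ∈ ball (0 : ℂ) ρ ×ˢ ball z₁ δ, Y p = Z p.2 p.1 := by
    rintro ⟨t, z⟩ ⟨ht, hz⟩
    have hzW := hball hz
    refine hZu z hzW (fun t => Y (t, z)) ?_ ⟨0, mem_ball_self hf.ρ0, ?_⟩ ?_ t ht
    · exact hYd.continuousOn.comp (by fun_prop) (fun t ht => ⟨ht, hz⟩)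
    · rw [hid z hz, hZ0 z hzW]
    · intro t ht
      exact hYr (t, z) ⟨ht, hz⟩
  have hmem : ((t₁, z₁) : ℂ × ℂ) ∈ ball (0 : ℂ) ρ ×ˢ ball z₁ δ := ⟨ht₁, mem_ball_self hδ⟩
  refine (hYd.differentiableAt (hU.mem_nhds hmem)).congr_of_eventuallyEq ?_
  filter_upwards [hU.mem_nhds hmem] with p hp
  exact (heq p hp).symm

end

end Pool.Agent.H69N.LA
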