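import Mathlib

set_option autoImplicit false

open Complex Topology Filter Metric MeasureTheory Set

namespace Pool.Agent.H69N.LA

theorem vol_closedBall (x : ℂ) {r : ℝ} (hr : 0 ≤ r) :
    (volume (closedBall x r)).toReal = Real.pi * r ^ 2 := by
  rw [Complex.volume_closedBall, ENNReal.toReal_mul, ENNReal.toReal_pow, ENNReal.toReal_ofReal hr]
  simp [mul_comm]

theorem vol_ball (x : ℂ) {r : ℝ} (hr : 0 ≤ r) :
    (volume (ball x r)).toReal = Real.pi * r ^ 2 := by
  rw [Complex.volume_ball, ENNReal.toReal_mul, ENNReal.toReal_pow, ENNReal.toReal_ofReal hr]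
  simp [mul_comm]

/-- The integral of `‖z‖ ^ (2 * k)` over a disc. -/
theorem integral_norm_pow {R : ℝ} (hR : 0 < R) (k : ℕ) :
    ∫ z in ball (0 : ℂ) R, ‖z‖ ^ (2 * k) = Real.pi * R ^ (2 * k + 2) / (k + 1) := by
  have h := integral_fun_norm_addHaar (volume : Measure ℂ)
    (fun y : ℝ => (Iio R).indicator (fun y => y ^ (2 * k)) y)
  have h1 : ∫ z : ℂ, (Iio R).indicator (fun y : ℝ => y ^ (2 * k)) ‖z‖ =
      ∫ z in ball (0 : ℂ) R, ‖z‖ ^ (2 * k) := by
    rw [← integral_indicator measurableSet_ball]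
    apply integral_congr_ae
    filter_upwards with z
    by_cases hz : ‖z‖ < R
    · rw [indicator_of_mem (show ‖z‖ ∈ Iio R from hz),
        indicator_of_mem (show z ∈ ball (0 : ℂ) R by simpa using hz)]
    · rw [indicator_of_notMem (show ‖z‖ ∉ Iio R from hz),
        indicator_of_notMem (show z ∉ ball (0 : ℂ) R by simpa using hz)]
  rw [h1] at h
  rw [h, Complex.finrank_real_complex]
  have h2 : volume.real (ball (0 : ℂ) 1) = Real.pi := by
    have := vol_ball 0 (zero_le_one (α := ℝ))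
    rw [one_pow, mul_one] at this
    exact this
  rw [h2]
  have h3 : ∫ y in Ioi (0 : ℝ), y ^ (2 - 1) • (Iio R).indicator (fun y => y ^ (2 * k)) y =
      ∫ y in (0 : ℝ)..R, y ^ (2 * k + 1) := by
    rw [intervalIntegral.integral_of_le hR.le, integral_Ioc_eq_integral_Ioo]
    have h4 : ∀ y : ℝ, y ^ (2 - 1) • (Iio R).indicator (fun y => y ^ (2 * k)) y =
        (Iio R).indicator (fun y => y ^ (2 * k + 1)) y := by
      intro y
      by_cases hy : y ∈ Iio R
      · rw [indicator_of_mem hy, indicator_of_mem hy, smul_eq_mul]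
        ring
      · rw [indicator_of_notMem hy, indicator_of_notMem hy, smul_zero]
    simp only [h4]
    rw [integral_indicator measurableSet_Iio, Measure.restrict_restrict measurableSet_Iio]
    congr 2
    ext y
    simp only [mem_inter_iff, mem_Iio, mem_Ioi, mem_Ioo]
    exact and_comm
  rw [h3, integral_pow]
  simp only [nsmul_eq_mul, smul_eq_mul]
  push_cast
  have hk : (k : ℝ) + 1 ≠ 0 := by positivity
  have : (2 * (k : ℝ) + 1 + 1) ≠ 0 := by positivity
  field_simp
  ring

/-- Finite families of disjoint discs which exhaust a bounded open set. -/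
theorem exists_discs {U : Set ℂ} (hU : IsOpen U) (hUf : volume U < ⊤) {m : ℂ → ℝ}
    (hm : Continuous m) (hmi : IntegrableOn m U) {η : ℝ} (hη : 0 < η) :
    ∃ (t : Finset ℂ) (r : ℂ → ℝ), (∀ x ∈ t, 0 < r x) ∧ (∀ x ∈ t, closedBall x (r x) ⊆ U) ∧
      (∀ x ∈ t, ∀ y ∈ t, x ≠ y → Disjoint (closedBall x (r x)) (closedBall y (r y))) ∧
      (volume U).toReal - η ≤ ∑ x ∈ t, Real.pi * r x ^ 2 ∧
      (∫ z in U, m z) - η ≤ ∑ x ∈ t, m x * (Real.pi * r x ^ 2) := by
  classical
  have hpi := Real.pi_pos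
  set V : ℝ := (volume U).toReal with hV
  have hV0 : 0 ≤ V := ENNReal.toReal_nonneg
  set η' : ℝ := η / (2 * (V + 1)) with hη'
  have hη'0 : 0 < η' := by positivity
  have hex : ∀ x ∈ U, ∃ ρ : ℝ, 0 < ρ ∧ closedBall x ρ ⊆ U ∧ ∀ z ∈ closedBall x ρ, m z ≤ m x + η' := by
    intro x hx
    obtain ⟨ρ₁, hρ₁, h1⟩ := Metric.isOpen_iff.mp hU x hx
    obtain ⟨ρ₂, hρ₂, h2⟩ := Metric.continuousAt_iff.mp (hm.continuousAt (x := x)) η' hη'0
    refine ⟨min (ρ₁ / 2) (ρ₂ / 2), by positivity, ?_, ?_⟩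
    · refine (closedBall_subset_ball ?_).trans h1
      have := min_le_left (ρ₁ / 2) (ρ₂ / 2)
      linarith
    · intro z hz
      have h3 : dist z x < ρ₂ := by
        rw [mem_closedBall] at hz
        have := min_le_right (ρ₁ / 2) (ρ₂ / 2)
        linarith
      have h4 := h2 h3
      rw [Real.dist_eq] at h4
      linarith [le_abs_self (m z - m x)]
  choose! ρ hρ0 hρU hρm using hex
  obtain ⟨T, r, hTc, hTU, hr, hnull, hdis⟩ :=
    Besicovitch.exists_disjoint_closedBall_covering_ae (volume : Measure ℂ) (fun _ => univ) U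
      (fun x _ δ hδ => ⟨δ / 2, mem_univ _, by constructor <;> linarith⟩) ρ hρ0
  have hr0 : ∀ x ∈ T, 0 < r x := fun x hx => (hr x hx).2.1
  have hrρ : ∀ x ∈ T, closedBall x (r x) ⊆ closedBall x (ρ x) := fun x hx =>
    closedBall_subset_closedBall (hr x hx).2.2.le
  have hrU : ∀ x ∈ T, closedBall x (r x) ⊆ U := fun x hx => (hrρ x hx).trans (hρU x (hTU hx))
  have : Countable T := hTc.to_subtype
  set s : T → Set ℂ := fun x => closedBall (x : ℂ) (r x) with hs
  have hsm : ∀ x : T, MeasurableSet (s x) := fun x => measurableSet_closedBall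
  have hsd : Pairwise (Function.onFun Disjoint s) := by
    intro x y hxy
    exact hdis x.2 y.2 (fun h => hxy (Subtype.ext h))
  have hsub : (⋃ x : T, s x) ⊆ U := iUnion_subset fun x => hrU x x.2
  have heq : (⋃ x : T, s x) = ⋃ x ∈ T, closedBall x (r x) := by
    simp only [hs, iUnion_subtype]
  have hnull' : volume (U \ ⋃ x : T, s x) = 0 := by rw [heq]; exact hnull
  have hae : (⋃ x : T, s x) =ᵐ[volume] U := by
    exact (LE.le.eventuallyLE (show (⋃ x : T, s x) ≤ U from hsub)).antisymm (ae_le_set.mpr hnull')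
  have hint : ∀ f : ℂ → ℝ, IntegrableOn f U → HasSum (fun x : T => ∫ z in s x, f z) (∫ z in U, f z) := by
    intro f hf
    have h1 := hasSum_integral_iUnion (μ := volume) hsm hsd (hf.mono_set hsub)
    rwa [setIntegral_congr_set hae] at h1
  have h1 := hint (fun _ => (1 : ℝ)) (integrableOn_const hUf.ne)
  have h2 := hint m hmi
  have e1 : ∫ z in U, (1 : ℝ) = V := by
    rw [setIntegral_const, smul_eq_mul, mul_one]
    rfl
  have e2 : ∀ x : T, ∫ z in s x, (1 : ℝ) = Real.pi * r x ^ 2 := by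
    intro x
    rw [setIntegral_const, smul_eq_mul, mul_one]
    exact vol_closedBall _ (hr0 x x.2).le
  rw [e1] at h1
  simp only [e2] at h1
  have h3 : ∀ᶠ F : Finset T in atTop, V - η < ∑ x ∈ F, Real.pi * r x ^ 2 :=
    h1.eventually (lt_mem_nhds (by linarith))
  have h4 : ∀ᶠ F : Finset T in atTop, (∫ z in U, m z) - η / 2 < ∑ x ∈ F, ∫ z in s x, m z :=
    h2.eventually (lt_mem_nhds (by linarith))
  obtain ⟨F, hF1, hF2⟩ := (h3.and h4).exists
  have hFle : ∑ x ∈ F, Real.pi * r x ^ 2 ≤ V :=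
    sum_le_hasSum F (fun x _ => by positivity) h1
  refine ⟨F.map (Function.Embedding.subtype _), r, ?_, ?_, ?_, ?_, ?_⟩
  · intro x hx
    obtain ⟨y, _, rfl⟩ := Finset.mem_map.mp hx
    exact hr0 y y.2
  · intro x hx
    obtain ⟨y, _, rfl⟩ := Finset.mem_map.mp hx
    exact hrU y y.2
  · intro x hx y hy hxy
    obtain ⟨x', _, rfl⟩ := Finset.mem_map.mp hx
    obtain ⟨y', _, rfl⟩ := Finset.mem_map.mp hy
    exact hdis x'.2 y'.2 hxy
  · rw [Finset.sum_map]
    exact hF1.le
  · rw [Finset.sum_map]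
    have h5 : ∀ x : T, ∫ z in s x, m z ≤ m x * (Real.pi * r x ^ 2) + η' * (Real.pi * r x ^ 2) := by
      intro x
      have h6 : ∫ z in s x, m z ≤ ∫ z in s x, (m x + η') := by
        apply setIntegral_mono_on
        · exact hmi.mono_set (hrU x x.2)
        · exact integrableOn_const (measure_closedBall_lt_top.ne)
        · exact hsm x
        · intro z hz
          exact hρm x (hTU x.2) z (hrρ x x.2 hz)
      rw [setIntegral_const, smul_eq_mul] at h6
      have h7 : volume.real (s x) = Real.pi * r x ^ 2 := vol_closedBall _ (hr0 x x.2).le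
      rw [h7] at h6
      linarith
    have h8 : ∑ x ∈ F, ∫ z in s x, m z ≤
        ∑ x ∈ F, m x * (Real.pi * r x ^ 2) + η' * ∑ x ∈ F, Real.pi * r x ^ 2 := by
      rw [Finset.mul_sum, ← Finset.sum_add_distrib]
      exact Finset.sum_le_sum fun x _ => h5 x
    have h9 : η' * ∑ x ∈ F, Real.pi * r x ^ 2 ≤ η / 2 := by
      have h10 : η' * ∑ x ∈ F, Real.pi * r x ^ 2 ≤ η' * V := mul_le_mul_of_nonneg_left hFle hη'0.le
      have h11 : η' * V ≤ η / 2 := by
        rw [hη', div_mul_eq_mul_div, div_le_div_iff₀ (by positivity) (by positivity)]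
        nlinarith
      linarith
    show (∫ z in U, m z) - η ≤ ∑ x ∈ F, m (x : ℂ) * (Real.pi * r x ^ 2)
    linarith

end Pool.Agent.H69N.LA
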