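import Mathlib
import Pool.Agent.H713R2.AR.AF4

set_option autoImplicit false

open Complex Topology Filter Metric MeasureTheory Set

namespace Pool.Agent.H69N.LA

open Pool.Agent.H713R2 Pool.Agent.H713R2.AR

/-- punctured disc -/
def PD (ρ : ℝ) : Set ℂ := {x | x ≠ 0 ∧ ‖x‖ < ρ}

theorem isOpen_PD (ρ : ℝ) : IsOpen (PD ρ) :=
  isOpen_ne.inter (isOpen_lt continuous_norm continuous_const)

theorem PD_mono {ρ R : ℝ} (h : ρ ≤ R) : PD ρ ⊆ PD R := fun _ hx => ⟨hx.1, hx.2.trans_le h⟩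

theorem isOpen_image_PD {R ρ : ℝ} (hρR : ρ ≤ R) {k : ℂ → ℂ} (hk : DifferentiableOn ℂ k (PD R))
    (hki : InjOn k (PD R)) : IsOpen (k '' PD ρ) :=
  Pool.Agent.Helper202.Univ.isOpen_image (isOpen_PD R) hk hki (isOpen_PD ρ) (PD_mono hρR)

/-- Stokes' formula for the pull back by a univalent function on a punctured disc. -/
theorem ann_formula {R ρ ε : ℝ} (hε : 0 < ε) (hερ : ε < ρ) (hρR : ρ < R) {k : ℂ → ℂ}
    (hk : DifferentiableOn ℂ k (PD R)) (hki : InjOn k (PD R)) {F : ℂ → ℂ} (hF : ContDiff ℝ 1 F)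
    (hF0 : ∀ x : ℂ, x ≠ 0 → ‖x‖ ≤ ε → F (k x) = 0)
    (hG0 : ∀ x : ℂ, x ≠ 0 → ‖x‖ ≤ ε → GG F (k x) = 0) :
    I * ∫ y : ℝ in (-Real.pi)..Real.pi, F (k (circleMap 0 ρ y)) *
      (deriv k (circleMap 0 ρ y) * circleMap 0 ρ y) = ∫ z in k '' PD ρ, GG F z := by
  have hpi := Real.pi_pos
  have hR : 0 < R := by linarith
  have hρ : 0 < ρ := by linarith
  set P : ℂ → ℂ := fun ζ => k (Complex.exp ζ) with hP
  set S : Set ℂ := {ζ : ℂ | ζ.re < Real.log R} with hS
  have hSo : IsOpen S := isOpen_lt Complex.continuous_re continuous_const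
  have hSm : ∀ ζ ∈ S, Complex.exp ζ ∈ PD R := by
    intro ζ hζ
    refine ⟨Complex.exp_ne_zero _, ?_⟩
    rw [Complex.norm_exp]
    exact (Real.lt_log_iff_exp_lt hR).mp hζ
  have hP1' : ∀ ζ ∈ S, HasDerivAt P (deriv k (Complex.exp ζ) * Complex.exp ζ) ζ := by
    intro ζ hζ
    have h1 := (hk.differentiableAt ((isOpen_PD R).mem_nhds (hSm ζ hζ))).hasDerivAt
    exact h1.comp ζ (Complex.hasDerivAt_exp ζ)
  have hPd : DifferentiableOn ℂ P S := fun ζ hζ =>
    (hP1' ζ hζ).differentiableAt.differentiableWithinAt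
  have hP1 : ∀ ζ ∈ S, HasDerivAt P (deriv P ζ) ζ := fun ζ hζ =>
    (hPd.differentiableAt (hSo.mem_nhds hζ)).hasDerivAt
  have hP2 : ∀ ζ ∈ S, HasDerivAt (deriv P) (deriv (deriv P) ζ) ζ := fun ζ hζ =>
    ((hPd.deriv hSo).differentiableAt (hSo.mem_nhds hζ)).hasDerivAt
  have hFd : Differentiable ℝ F := hF.differentiable one_ne_zero
  set f : ℂ → ℂ := fun ζ => F (P ζ) * deriv P ζ with hf
  set f' : ℂ → ℂ →L[ℝ] ℂ := fun ζ =>
    F (P ζ) • ((ContinuousLinearMap.toSpanSingleton ℂ (deriv (deriv P) ζ)).restrictScalars ℝ)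
    + (deriv P ζ) • ((fderiv ℝ F (P ζ)).comp
      ((ContinuousLinearMap.toSpanSingleton ℂ (deriv P ζ)).restrictScalars ℝ)) with hf'
  have hfd : ∀ ζ ∈ S, HasFDerivAt f (f' ζ) ζ := by
    intro ζ hζ
    have h1 : HasFDerivAt (fun ζ => F (P ζ)) ((fderiv ℝ F (P ζ)).comp
      ((ContinuousLinearMap.toSpanSingleton ℂ (deriv P ζ)).restrictScalars ℝ)) ζ :=
      (hFd (P ζ)).hasFDerivAt.comp ζ ((hP1 ζ hζ).hasFDerivAt.restrictScalars ℝ)
    have h2 := (hP2 ζ hζ).hasFDerivAt.restrictScalars ℝ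
    exact h1.mul h2
  have hval : ∀ ζ, I • f' ζ 1 - f' ζ I = ((‖deriv P ζ‖ ^ 2 : ℝ) : ℂ) * GG F (P ζ) := by
    intro ζ
    have h1 := GG_lin (fderiv ℝ F (P ζ)) (deriv P ζ)
    simp only [hf', GG]
    rw [← h1]
    simp
    ring
  have hcont : ContinuousOn f S := fun ζ hζ => (hfd ζ hζ).continuousAt.continuousWithinAt
  have hGc : Continuous (GG F) := by
    unfold GG
    have h1 : ∀ v : ℂ, Continuous (fun z => fderiv ℝ F z v) := fun v =>
      (hF.continuous_fderiv one_ne_zero).clm_apply continuous_const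
    exact (continuous_const.mul (h1 1)).sub (h1 I)
  have hvc : ContinuousOn (fun ζ => ((‖deriv P ζ‖ ^ 2 : ℝ) : ℂ) * GG F (P ζ)) S := by
    have h1 : ContinuousOn (deriv P) S := (hPd.deriv hSo).continuousOn
    have h2 : ContinuousOn P S := hPd.continuousOn
    exact (Complex.continuous_ofReal.comp_continuousOn (h1.norm.pow 2)).mul
      (hGc.comp_continuousOn h2)
  have hlog : Real.log ε < Real.log ρ := Real.log_lt_log hε hερ
  have hlogR : Real.log ρ < Real.log R := Real.log_lt_log hρ hρR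
  have hsub : (Icc (Real.log ε) (Real.log ρ) ×ℂ Icc (-Real.pi) Real.pi) ⊆ S := by
    rintro ζ ⟨h1, _⟩
    exact lt_of_le_of_lt h1.2 hlogR
  have hcompact : IsCompact (Icc (Real.log ε) (Real.log ρ) ×ℂ Icc (-Real.pi) Real.pi) :=
    isCompact_Icc.reProdIm isCompact_Icc
  have hint : IntegrableOn (fun ζ => ((‖deriv P ζ‖ ^ 2 : ℝ) : ℂ) * GG F (P ζ))
      (Icc (Real.log ε) (Real.log ρ) ×ℂ Icc (-Real.pi) Real.pi) :=
    (hvc.mono hsub).integrableOn_compact hcompact
  have hu1 : uIcc (Real.log ε) (Real.log ρ) = Icc (Real.log ε) (Real.log ρ) := uIcc_of_le hlog.le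
  have hu2 : uIcc (-Real.pi) Real.pi = Icc (-Real.pi) Real.pi := uIcc_of_le (by linarith)
  have hbd : ∀ y : ℝ, f (Real.log ρ + y * I) = F (k (circleMap 0 ρ y)) *
      (deriv k (circleMap 0 ρ y) * circleMap 0 ρ y) := by
    intro y
    have e1 : Complex.exp (Real.log ρ + y * I) = circleMap 0 ρ y := by
      rw [Complex.exp_add, ← Complex.ofReal_exp, Real.exp_log hρ, circleMap, zero_add]
    have e2 : ((Real.log ρ : ℂ) + y * I) ∈ S := by
      show ((Real.log ρ : ℂ) + y * I).re < Real.log R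
      simpa using hlogR
    simp only [hf]
    rw [(hP1' _ e2).deriv]
    simp only [hP]
    rw [e1]
  have key := Complex.integral_boundary_rect_of_hasFDerivAt_real_off_countable f f'
    (Real.log ε + (-Real.pi : ℝ) * I) (Real.log ρ + (Real.pi : ℝ) * I) ∅ countable_empty ?_ ?_ ?_
  · have e1 : ((Real.log ε : ℂ) + (-Real.pi : ℝ) * I).re = Real.log ε := by simp
    have e2 : ((Real.log ε : ℂ) + (-Real.pi : ℝ) * I).im = -Real.pi := by simp
    have e3 : ((Real.log ρ : ℂ) + (Real.pi : ℝ) * I).re = Real.log ρ := by simp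
    have e4 : ((Real.log ρ : ℂ) + (Real.pi : ℝ) * I).im = Real.pi := by simp
    rw [e1, e2, e3, e4] at key
    -- the horizontal sides cancel
    have hPper : ∀ ζ, P (ζ + 2 * Real.pi * I) = P ζ := by
      intro ζ
      simp only [hP]
      rw [Complex.exp_add, Complex.exp_two_pi_mul_I, mul_one]
    have hper : ∀ x : ℝ, f (x + (-Real.pi : ℝ) * I) = f (x + (Real.pi : ℝ) * I) := by
      intro x
      have h1 : (x : ℂ) + (Real.pi : ℝ) * I = (x + (-Real.pi : ℝ) * I) + 2 * Real.pi * I := by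
        push_cast; ring
      have h2 : ∀ ζ, deriv P (ζ + 2 * Real.pi * I) = deriv P ζ := by
        intro ζ
        have h3 : (fun ζ => P (ζ + 2 * Real.pi * I)) = P := by
          funext ζ; exact hPper ζ
        rw [← deriv_comp_add_const, h3]
      simp only [hf]
      rw [h1, hPper, h2]
    have hleft : ∀ y : ℝ, f (Real.log ε + y * I) = 0 := by
      intro y
      simp only [hf, hP]
      rw [hF0 _ (Complex.exp_ne_zero _) ?_, zero_mul]
      rw [Complex.norm_exp]
      simp [Real.exp_log hε]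
    simp only [hval] at key
    simp only [hper, hleft, hbd, sub_self, zero_add, intervalIntegral.integral_zero,
      sub_zero, smul_eq_mul, mul_zero] at key
    rw [iterated_rect hlog.le (by linarith) hint] at key
    rw [key]
    -- change of variables
    set O : Set ℂ := Ioo (Real.log ε) (Real.log ρ) ×ℂ Ioo (-Real.pi) Real.pi with hO
    have hOS : O ⊆ S := fun ζ hζ => lt_trans hζ.1.2 hlogR
    have hOm : MeasurableSet O := (isOpen_Ioo.reProdIm isOpen_Ioo).measurableSet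
    have hnorm : ∀ ζ ∈ O, ε < ‖Complex.exp ζ‖ ∧ ‖Complex.exp ζ‖ < ρ := by
      intro ζ hζ
      rw [Complex.norm_exp]
      exact ⟨(Real.log_lt_iff_lt_exp hε).mp hζ.1.1, (Real.lt_log_iff_exp_lt hρ).mp hζ.1.2⟩
    have hinj : InjOn P O := by
      intro ζ hζ ζ' hζ' h
      have h1 := hki (hSm ζ (hOS hζ)) (hSm ζ' (hOS hζ')) h
      exact Complex.exp_inj_of_neg_pi_lt_of_le_pi hζ.2.1 hζ.2.2.le hζ'.2.1 hζ'.2.2.le h1
    have hcv := integral_image_eq_integral_abs_det_fderiv_smul (volume : Measure ℂ) hOm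
      (f := P) (f' := fun ζ => (ContinuousLinearMap.toSpanSingleton ℂ (deriv P ζ)).restrictScalars ℝ)
      (fun ζ hζ => ((hP1 ζ (hOS hζ)).hasFDerivAt.restrictScalars ℝ).hasFDerivWithinAt) hinj (GG F)
    simp only [det_mul_real, abs_sq] at hcv
    have h5 : ∫ ζ in O, ((‖deriv P ζ‖ ^ 2 : ℝ) : ℂ) * GG F (P ζ) =
        ∫ z in P '' O, GG F z := by
      rw [hcv]
      apply setIntegral_congr_fun hOm
      intro ζ _
      simp only [real_smul]
      try rw [abs_of_nonneg (sq_nonneg ‖deriv P ζ‖)]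
    rw [h5]
    symm
    apply setIntegral_eq_of_subset_of_ae_sdiff_eq_zero
      (isOpen_image_PD hρR.le hk hki).measurableSet.nullMeasurableSet
    · rintro _ ⟨ζ, hζ, rfl⟩
      exact ⟨Complex.exp ζ, ⟨Complex.exp_ne_zero _, (hnorm ζ hζ).2⟩, rfl⟩
    · have hnull : volume (k '' (PD ρ ∩ slitPlaneᶜ)) = 0 := by
        apply addHaar_image_eq_zero_of_differentiableOn_of_addHaar_eq_zero
        · intro x hx
          have h1 := hk.differentiableAt ((isOpen_PD R).mem_nhds (PD_mono hρR.le hx.1))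
          exact (h1.restrictScalars ℝ).differentiableWithinAt
        · exact measure_mono_null inter_subset_right slit_null
      have hae := compl_mem_ae_iff.mpr hnull
      filter_upwards [hae] with z hz hzd
      obtain ⟨⟨x, ⟨hx0, hxρ⟩, rfl⟩, hzn⟩ := hzd
      by_cases hxε : ‖x‖ ≤ ε
      · exact hG0 x hx0 hxε
      · exfalso
        push Not at hxε
        by_cases hxs : x ∈ slitPlane
        · apply hzn
          refine ⟨Complex.log x, ⟨⟨?_, ?_⟩, ⟨?_, ?_⟩⟩, ?_⟩
          · rw [Complex.log_re]; exact Real.log_lt_log hε hxε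
          · rw [Complex.log_re]; exact Real.log_lt_log (norm_pos_iff.mpr hx0) hxρ
          · rw [Complex.log_im]; exact Complex.neg_pi_lt_arg x
          · rw [Complex.log_im]
            exact lt_of_le_of_ne (Complex.arg_le_pi x) (Complex.mem_slitPlane_iff_arg.mp hxs).1
          · simp only [hP]
            rw [Complex.exp_log hx0]
        · exact hz ⟨x, ⟨⟨hx0, hxρ⟩, hxs⟩, rfl⟩
  · have e1 : ((Real.log ε : ℂ) + (-Real.pi : ℝ) * I).re = Real.log ε := by simp
    have e2 : ((Real.log ε : ℂ) + (-Real.pi : ℝ) * I).im = -Real.pi := by simp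
    have e3 : ((Real.log ρ : ℂ) + (Real.pi : ℝ) * I).re = Real.log ρ := by simp
    have e4 : ((Real.log ρ : ℂ) + (Real.pi : ℝ) * I).im = Real.pi := by simp
    rw [e1, e2, e3, e4, hu1, hu2]
    exact hcont.mono hsub
  · have e1 : ((Real.log ε : ℂ) + (-Real.pi : ℝ) * I).re = Real.log ε := by simp
    have e3 : ((Real.log ρ : ℂ) + (Real.pi : ℝ) * I).re = Real.log ρ := by simp
    rw [e1, e3]
    intro ζ hζ
    apply hfd
    have := hζ.1.1.2
    rw [max_eq_right hlog.le] at this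
    exact lt_trans this hlogR
  · have e1 : ((Real.log ε : ℂ) + (-Real.pi : ℝ) * I).re = Real.log ε := by simp
    have e2 : ((Real.log ε : ℂ) + (-Real.pi : ℝ) * I).im = -Real.pi := by simp
    have e3 : ((Real.log ρ : ℂ) + (Real.pi : ℝ) * I).re = Real.log ρ := by simp
    have e4 : ((Real.log ρ : ℂ) + (Real.pi : ℝ) * I).im = Real.pi := by simp
    rw [e1, e2, e3, e4, hu1, hu2]
    simp only [hval]
    exact hint

end Pool.Agent.H69N.LA
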