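import Mathlib
import Pool.Agent.H69N.LA.Ann

set_option autoImplicit false

open Complex Topology Filter Metric MeasureTheory Set

namespace Pool.Agent.H69N.LA

open Pool.Agent.H713R2 Pool.Agent.H713R2.AR

theorem tc_euler {G : ℂ → ℂ} {R : ℝ} (hR : 0 < R) (hG : DifferentiableOn ℂ G (ball 0 R)) (k : ℕ) :
    tc (fun x => x * deriv G x - G x) k = ((k : ℂ) - 1) * tc G k := by
  have hL : DifferentiableOn ℂ (fun x => x * deriv G x - G x) (ball 0 R) :=
    (differentiableOn_id.mul (hG.deriv isOpen_ball)).sub hG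
  have h1 := tc_unique (a := fun k => ((k : ℂ) - 1) * tc G k)
    (F := fun x => x * deriv G x - G x) hR hL ?_
  · rw [← h1]
  · filter_upwards [ball_mem_nhds (0 : ℂ) hR] with x hx
    have h2 := hasSum_tc hG hx
    have h3 := hasSum_tc (hG.deriv isOpen_ball) hx
    have h4 : HasSum (fun k : ℕ => (k : ℂ) * tc G k * x ^ k) (x * deriv G x) := by
      have h5 := h3.mul_left x
      rw [← hasSum_nat_add_iff' 1]
      simp only [Finset.range_one, Finset.sum_singleton, Nat.cast_zero, zero_mul, sub_zero]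
      have h6 : (fun k : ℕ => ((k + 1 : ℕ) : ℂ) * tc G (k + 1) * x ^ (k + 1)) =
          fun k => x * (tc (deriv G) k * x ^ k) := by
        funext k
        rw [tc_deriv, pow_succ]
        push_cast
        ring
      rw [h6]
      exact h5
    have h5 := h4.sub h2
    have h7 : (fun k : ℕ => ((k : ℂ) - 1) * tc G k * x ^ k) =
        fun k : ℕ => (k : ℂ) * tc G k * x ^ k - (tc G k * x ^ k) := by
      funext k; ring
    rw [h7]
    exact h5

/-- The boundary integral of a piece. -/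
theorem piece_int {G : ℂ → ℂ} {R ρ : ℝ} (hρ : 0 < ρ) (hρR : ρ < R)
    (hG : DifferentiableOn ℂ G (ball 0 R)) :
    ∃ V : ℝ, (∫ y : ℝ in (-Real.pi)..Real.pi, (starRingEnd ℂ) (G (circleMap 0 ρ y)) *
      (circleMap 0 ρ y * deriv G (circleMap 0 ρ y) - G (circleMap 0 ρ y)) = (V : ℂ)) ∧
      ∀ n : ℕ, 2 ≤ n → 2 * Real.pi * (((n : ℝ) - 1) * (‖tc G n‖ ^ 2 * ρ ^ (2 * n)) - ‖G 0‖ ^ 2) ≤ V := by
  have hR : 0 < R := hρ.trans hρR
  have hpi := Real.pi_pos
  have hL : DifferentiableOn ℂ (fun x => x * deriv G x - G x) (ball 0 R) :=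
    (differentiableOn_id.mul (hG.deriv isOpen_ball)).sub hG
  have hp := parseval_tc hG hL hρ hρR
  have h1 : (fun k : ℕ => 2 * (Real.pi : ℂ) * ((starRingEnd ℂ) (tc G k) *
      tc (fun x => x * deriv G x - G x) k * (ρ : ℂ) ^ (2 * k))) =
      fun k : ℕ => ((2 * Real.pi * (((k : ℝ) - 1) * (‖tc G k‖ ^ 2 * ρ ^ (2 * k))) : ℝ) : ℂ) := by
    funext k
    rw [tc_euler hR hG]
    have h12 : ((‖tc G k‖ ^ 2 : ℝ) : ℂ) = (starRingEnd ℂ) (tc G k) * tc G k := by
      rw [Complex.sq_norm, Complex.normSq_eq_conj_mul_self]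
    push_cast at h12 ⊢
    rw [h12]
    ring
  rw [h1] at hp
  set J : ℂ := ∫ y : ℝ in (-Real.pi)..Real.pi, (starRingEnd ℂ) (G (circleMap 0 ρ y)) *
      (circleMap 0 ρ y * deriv G (circleMap 0 ρ y) - G (circleMap 0 ρ y)) with hJ
  have hre : HasSum (fun k : ℕ => 2 * Real.pi * (((k : ℝ) - 1) * (‖tc G k‖ ^ 2 * ρ ^ (2 * k)))) J.re := by
    have := Complex.hasSum_re hp
    simpa only [Complex.ofReal_re] using this
  have him : J = (J.re : ℂ) := by
    have h2 := Complex.hasSum_ofReal.mpr hre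
    exact hp.unique h2
  refine ⟨J.re, him, fun n hn => ?_⟩
  have hsub := sum_le_hasSum ({0, n} : Finset ℕ) (fun k hk => ?_) hre
  · rw [Finset.sum_pair (by omega)] at hsub
    have e0 : tc G 0 = G 0 := tc_zero G
    rw [e0] at hsub
    simp only [Nat.cast_zero, mul_zero, pow_zero, mul_one] at hsub
    linarith
  · have hk0 : k ≠ 0 := by
      rintro rfl; simp at hk
    have hk1 : (1 : ℝ) ≤ k := by exact_mod_cast Nat.one_le_iff_ne_zero.mpr hk0
    have : 0 ≤ (k : ℝ) - 1 := by linarith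
    positivity

/-- The integral of `GG F` over the image of a punctured disc. -/
theorem piece_eval {R ρ ε : ℝ} (hε : 0 < ε) (hερ : ε < ρ) (hρR : ρ < R) {k : ℂ → ℂ}
    (hk : DifferentiableOn ℂ k (PD R)) (hki : InjOn k (PD R)) {F : ℂ → ℂ} (hF : ContDiff ℝ 1 F)
    (hF0 : ∀ x : ℂ, x ≠ 0 → ‖x‖ ≤ ε → F (k x) = 0)
    (hG0 : ∀ x : ℂ, x ≠ 0 → ‖x‖ ≤ ε → GG F (k x) = 0)
    {F₀ G : ℂ → ℂ} (hG : DifferentiableOn ℂ G (ball 0 R))
    (hF₀d : ∀ x ∈ PD R, DifferentiableAt ℂ F₀ (k x))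
    (hF₀ : ∀ x ∈ PD R, F₀ (k x) = x⁻¹ * G x)
    (hFF : ∀ x : ℂ, ‖x‖ = ρ → F (k x) = (starRingEnd ℂ) (F₀ (k x)) * deriv F₀ (k x)) :
    ∃ V : ℝ, (∫ z in k '' PD ρ, GG F z = I * (V : ℂ)) ∧
      ∀ n : ℕ, 2 ≤ n →
        2 * Real.pi * (((n : ℝ) - 1) * (‖tc G n‖ ^ 2 * ρ ^ (2 * n)) - ‖G 0‖ ^ 2) / ρ ^ 2 ≤ V := by
  have hρ : 0 < ρ := hε.trans hερ
  have h1 := ann_formula hε hερ hρR hk hki hF hF0 hG0
  obtain ⟨V, hV, hV2⟩ := piece_int hρ hρR hG
  refine ⟨V / ρ ^ 2, ?_, fun n hn => div_le_div_of_nonneg_right (hV2 n hn) (by positivity)⟩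
  rw [← h1]
  congr 1
  push_cast
  rw [← hV, div_eq_inv_mul, ← intervalIntegral.integral_const_mul]
  apply intervalIntegral.integral_congr
  intro y _
  simp only
  set x := circleMap 0 ρ y with hx
  have hxn : ‖x‖ = ρ := by rw [hx, norm_circleMap_zero, abs_of_pos hρ]
  have hx0 : x ≠ 0 := by
    intro h
    rw [h, norm_zero] at hxn
    linarith
  have hxR : x ∈ PD R := ⟨hx0, by rw [hxn]; exact hρR⟩
  rw [hFF x hxn]
  have hkd := (hk.differentiableAt ((isOpen_PD R).mem_nhds hxR)).hasDerivAt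
  have hd1 : HasDerivAt (fun x => F₀ (k x)) (deriv F₀ (k x) * deriv k x) x :=
    (hF₀d x hxR).hasDerivAt.comp x hkd
  have hGd : HasDerivAt G (deriv G x) x :=
    (hG.differentiableAt (isOpen_ball.mem_nhds (mem_ball_zero_iff.mpr hxR.2))).hasDerivAt
  have hd2 : HasDerivAt (fun x => x⁻¹ * G x) (-(x ^ 2)⁻¹ * G x + x⁻¹ * deriv G x) x :=
    (hasDerivAt_inv hx0).mul hGd
  have heq : (fun x => F₀ (k x)) =ᶠ[𝓝 x] fun x => x⁻¹ * G x := by
    filter_upwards [(isOpen_PD R).mem_nhds hxR] with z hz using hF₀ z hz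
  have hder := hd1.unique (hd2.congr_of_eventuallyEq heq)
  have h9 : ((ρ : ℂ) ^ 2) = (starRingEnd ℂ) x * x := by
    rw [← hxn, ← Complex.normSq_eq_conj_mul_self, ← Complex.sq_norm]
    push_cast; rfl
  have hcx : (starRingEnd ℂ) x ≠ 0 := by simpa using hx0
  have e1 : (starRingEnd ℂ) (F₀ (k x)) * deriv F₀ (k x) * (deriv k x * x) =
      (starRingEnd ℂ) (F₀ (k x)) * (deriv F₀ (k x) * deriv k x) * x := by ring
  rw [e1, hder, hF₀ x hxR, map_mul, map_inv₀, h9]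
  field_simp
  ring

end Pool.Agent.H69N.LA
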