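import Mathlib
import Pool.Agent.H69N.LA.Piece
import Pool.Agent.H713R3.ZA.TGAIN

set_option autoImplicit false

open Complex Topology Filter Metric MeasureTheory Set

namespace Pool.Agent.H69N.LA

open Pool.Agent.H713R2 Pool.Agent.H713R2.AR
open Pool.Agent.H713R3.ZA.GAIN (gg gg_of_ne isExt UU_eq)

/-- a univalent function, given near infinity and on finitely many disjoint discs -/
structure UD {ι : Type} (Ω : Set ℂ) (h : ℂ → ℂ) (R₀ R C : ℝ) (a : ι → ℂ) (δ : ι → ℝ) : Prop where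
  Ωo : IsOpen Ω
  hd : DifferentiableOn ℂ h Ω
  hi : InjOn h Ω
  R₀1 : 1 ≤ R₀
  R₀R : R₀ < R
  far : ∀ z : ℂ, R₀ < ‖z‖ → z ∈ Ω
  hC : ∀ z : ℂ, R₀ < ‖z‖ → ‖h z - z‖ ≤ C
  δ0 : ∀ i, 0 < δ i
  sub : ∀ i, closedBall (a i) (δ i) ⊆ Ω
  subR : ∀ i, closedBall (a i) (δ i) ⊆ ball 0 R
  dis : ∀ i j, i ≠ j → Disjoint (closedBall (a i) (δ i)) (closedBall (a j) (δ j))

section
variable {ι : Type} [Fintype ι] [DecidableEq ι] {Ω : Set ℂ} {h : ℂ → ℂ} {R₀ R C : ℝ} {a : ι → ℂ}
  {δ : ι → ℝ}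

/-- the function with simple poles at the points `h (a i)` -/
noncomputable def FZ (h : ℂ → ℂ) (a c : ι → ℂ) (w : ℂ) : ℂ :=
  w + ∑ i, c i * deriv h (a i) / (w - h (a i))

/-- `x` times the composition near `a i` -/
noncomputable def GI (h : ℂ → ℂ) (a c : ι → ℂ) (i : ι) (x : ℂ) : ℂ :=
  x * (h (a i + x) + ∑ j ∈ Finset.univ.erase i, c j * deriv h (a j) / (h (a i + x) - h (a j))) +
    c i * deriv h (a i) / dslope h (a i) (a i + x)

/-- `x` times the composition near infinity -/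
noncomputable def GE (h : ℂ → ℂ) (a c : ι → ℂ) (x : ℂ) : ℂ :=
  gg h x + ∑ j, c j * deriv h (a j) * x ^ 2 / (gg h x - x * h (a j))

/-- the pieces -/
noncomputable def kf (h : ℂ → ℂ) (a : ι → ℂ) : Option ι → ℂ → ℂ
  | none => fun x => h x⁻¹
  | some i => fun x => h (a i + x)

/-- the radii -/
noncomputable def rf (R : ℝ) (δ : ι → ℝ) : Option ι → ℝ
  | none => R⁻¹
  | some i => δ i

/-- the functions on the discs -/
noncomputable def Gf (h : ℂ → ℂ) (a c : ι → ℂ) : Option ι → ℂ → ℂ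
  | none => GE h a c
  | some i => GI h a c i

theorem exists_larger {Ω : Set ℂ} (hΩ : IsOpen Ω) {c : ℂ} {r : ℝ} (hr : 0 < r)
    (h : closedBall c r ⊆ Ω) : ∃ r' : ℝ, r < r' ∧ ball c r' ⊆ Ω := by
  obtain ⟨ε, hε, hsub⟩ := (isCompact_closedBall c r).exists_thickening_subset_open hΩ h
  refine ⟨ε + r, by linarith, fun z hz => hsub ?_⟩
  rw [thickening_closedBall hε hr.le]
  exact hz

theorem UD.deriv_ne (hu : UD Ω h R₀ R C a δ) {z : ℂ} (hz : z ∈ Ω) : deriv h z ≠ 0 :=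
  Pool.Agent.Helper202.Univ.deriv_ne_zero hu.Ωo hu.hd hu.hi hz

theorem UD.aΩ (hu : UD Ω h R₀ R C a δ) (i : ι) : a i ∈ Ω :=
  hu.sub i (mem_closedBall_self (hu.δ0 i).le)

theorem UD.isExt (hu : UD Ω h R₀ R C a δ) : IsExt R₀⁻¹ (gg h) :=
  Pool.Agent.H713R3.ZA.GAIN.isExt hu.R₀1 (hu.hd.mono fun z hz => hu.far z hz)
    (fun z hz w hw hzw => hu.hi (hu.far z hz) (hu.far w hw) hzw) hu.hC

/-- data of one piece -/
structure PA (h : ℂ → ℂ) (a c : ι → ℂ) (R : ℝ) (δ : ι → ℝ) (o : Option ι) (R' : ℝ) : Prop where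
  lt : rf R δ o < R'
  kd : DifferentiableOn ℂ (kf h a o) (PD R')
  ki : InjOn (kf h a o) (PD R')
  Gd : DifferentiableOn ℂ (Gf h a c o) (ball 0 R')
  ne : ∀ x ∈ PD R', ∀ j, kf h a o x ≠ h (a j)
  eq : ∀ x ∈ PD R', FZ h a c (kf h a o x) = x⁻¹ * Gf h a c o x

omit [DecidableEq ι] in
theorem FZ_diff (h : ℂ → ℂ) (a c : ι → ℂ) :
    DifferentiableOn ℂ (FZ h a c) {w | ∀ j, w ≠ h (a j)} := by
  intro w hw
  apply DifferentiableAt.differentiableWithinAt
  unfold FZ
  apply DifferentiableAt.add differentiableAt_id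
  apply DifferentiableAt.fun_sum
  intro j _
  exact (differentiableAt_const _).div (differentiableAt_id.sub_const _) (sub_ne_zero.mpr (hw j))

omit [DecidableEq ι] in
theorem isOpen_V (h : ℂ → ℂ) (a : ι → ℂ) : IsOpen {w : ℂ | ∀ j, w ≠ h (a j)} := by
  have : {w : ℂ | ∀ j, w ≠ h (a j)} = ⋂ j, {w | w ≠ h (a j)} := by ext w; simp
  rw [this]
  exact isOpen_iInter_of_finite fun j => isOpen_ne

theorem UD.some_piece (hu : UD Ω h R₀ R C a δ) (c : ι → ℂ) (i : ι) :
    ∃ R', PA h a c R δ (some i) R' := by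
  set Ω' : Set ℂ := Ω ∩ ⋂ j ∈ Finset.univ.erase i, {z | z ≠ a j} with hΩ'
  have hΩo : IsOpen Ω' := by
    apply hu.Ωo.inter
    exact isOpen_biInter_finset fun j _ => isOpen_ne
  have hsub : closedBall (a i) (δ i) ⊆ Ω' := by
    intro z hz
    refine ⟨hu.sub i hz, ?_⟩
    simp only [mem_iInter]
    rintro j hj rfl
    have hij : i ≠ j := (Finset.ne_of_mem_erase hj).symm
    exact Set.disjoint_left.mp (hu.dis i j hij) hz (mem_closedBall_self (hu.δ0 j).le)
  obtain ⟨R', hR', hball⟩ := exists_larger hΩo (hu.δ0 i) hsub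
  have hR'0 : 0 < R' := (hu.δ0 i).trans hR'
  have hmem : ∀ x : ℂ, ‖x‖ < R' → a i + x ∈ Ω' := by
    intro x hx
    apply hball
    rw [mem_ball, dist_eq_norm, add_sub_cancel_left]
    exact hx
  have hne : ∀ x : ℂ, ‖x‖ < R' → ∀ j ∈ Finset.univ.erase i, h (a i + x) ≠ h (a j) := by
    intro x hx j hj hh
    have h1 := hmem x hx
    have h2 := hu.hi h1.1 (hu.aΩ j) hh
    have h3 := h1.2
    simp only [mem_iInter] at h3
    exact h3 j hj h2
  have hds : ∀ x : ℂ, ‖x‖ < R' → dslope h (a i) (a i + x) ≠ 0 := by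
    intro x hx
    by_cases hx0 : x = 0
    · rw [hx0, add_zero, dslope_same]
      exact hu.deriv_ne (hu.aΩ i)
    · have hne' : a i + x ≠ a i := by simpa using hx0
      rw [dslope_of_ne _ hne', slope_def_field]
      apply div_ne_zero
      · rw [sub_ne_zero]
        intro hh
        exact hne' (hu.hi (hmem x hx).1 (hu.aΩ i) hh)
      · simpa using hx0
  have hdom : DifferentiableOn ℂ (fun x => h (a i + x)) (ball 0 R') := by
    apply hu.hd.comp (by fun_prop)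
    intro x hx
    exact (hmem x (mem_ball_zero_iff.mp hx)).1
  refine ⟨R', hR', hdom.mono (fun x hx => mem_ball_zero_iff.mpr hx.2), ?_, ?_, ?_, ?_⟩
  · intro x hx y hy hxy
    exact add_left_cancel (hu.hi (hmem x hx.2).1 (hmem y hy.2).1 hxy)
  · show DifferentiableOn ℂ (GI h a c i) (ball 0 R')
    unfold GI
    apply DifferentiableOn.add
    · apply DifferentiableOn.mul differentiableOn_id
      apply hdom.add
      apply DifferentiableOn.fun_sum
      intro j hj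
      apply (differentiableOn_const _).div (hdom.sub_const _)
      intro x hx
      exact sub_ne_zero.mpr (hne x (mem_ball_zero_iff.mp hx) j hj)
    · apply (differentiableOn_const _).div
      · have h1 : DifferentiableOn ℂ (dslope h (a i)) Ω :=
          (Complex.differentiableOn_dslope (hu.Ωo.mem_nhds (hu.aΩ i))).mpr hu.hd
        apply h1.comp (by fun_prop)
        intro x hx
        exact (hmem x (mem_ball_zero_iff.mp hx)).1
      · intro x hx
        exact hds x (mem_ball_zero_iff.mp hx)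
  · intro x hx j hj
    by_cases hji : j = i
    · subst hji
      have h1 := hu.hi (hmem x hx.2).1 (hu.aΩ j) hj
      exact hx.1 (by simpa using h1)
    · exact hne x hx.2 j (Finset.mem_erase.mpr ⟨hji, Finset.mem_univ j⟩) hj
  · intro x hx
    show FZ h a c (h (a i + x)) = x⁻¹ * GI h a c i x
    unfold FZ GI
    have hx0 := hx.1
    have hne' : a i + x ≠ a i := by simpa using hx0
    have h1 : h (a i + x) - h (a i) ≠ 0 := by
      rw [sub_ne_zero]
      intro hh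
      exact hne' (hu.hi (hmem x hx.2).1 (hu.aΩ i) hh)
    rw [dslope_of_ne _ hne', slope_def_field, add_sub_cancel_left,
      ← Finset.add_sum_erase _ _ (Finset.mem_univ i)]
    generalize (∑ j ∈ Finset.univ.erase i, c j * deriv h (a j) / (h (a i + x) - h (a j))) = s
    field_simp
    ring

theorem UD.none_piece (hu : UD Ω h R₀ R C a δ) (c : ι → ℂ) : ∃ R', PA h a c R δ none R' := by
  have hR₀ : 0 < R₀ := by have := hu.R₀1; linarith
  have hR : 0 < R := hR₀.trans hu.R₀R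
  obtain ⟨R₁, ⟨hR₁0, hR₁R⟩, hR₁a⟩ : ∃ R₁ : ℝ, (R₀ < R₁ ∧ R₁ < R) ∧ ∀ j, ‖a j‖ < R₁ := by
    have h1 : ∀ᶠ r in 𝓝[<] R, R₀ < r ∧ r < R := Ioo_mem_nhdsLT hu.R₀R
    have h2 : ∀ᶠ r in 𝓝[<] R, ∀ j, ‖a j‖ < r := by
      rw [eventually_all]
      intro j
      have h3 : ‖a j‖ < R := by
        have := hu.subR j (mem_closedBall_self (hu.δ0 j).le)
        simpa using this
      filter_upwards [Ioo_mem_nhdsLT h3] with r hr using hr.1
    exact (h1.and h2).exists
  have hR₁p : 0 < R₁ := hR₀.trans hR₁0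
  have hlt : R⁻¹ < R₁⁻¹ := (inv_lt_inv₀ hR hR₁p).mpr hR₁R
  have hinv : ∀ x ∈ PD R₁⁻¹, R₁ < ‖x⁻¹‖ := by
    intro x hx
    rw [norm_inv]
    exact (lt_inv_comm₀ (norm_pos_iff.2 hx.1) hR₁p).1 hx.2
  have hΩ : ∀ x ∈ PD R₁⁻¹, x⁻¹ ∈ Ω := fun x hx => hu.far _ (hR₁0.trans (hinv x hx))
  have hne : ∀ x ∈ PD R₁⁻¹, ∀ j, h x⁻¹ ≠ h (a j) := by
    intro x hx j hj
    have h1 := hu.hi (hΩ x hx) (hu.aΩ j) hj
    have h2 := hinv x hx
    rw [h1] at h2
    exact absurd h2 (not_lt.mpr (hR₁a j).le)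
  have hgd : DifferentiableOn ℂ (gg h) (ball 0 R₁⁻¹) :=
    hu.isExt.diff.mono (ball_subset_ball (inv_anti₀ hR₀ hR₁0.le))
  have hg0 : gg h 0 = 1 := by simp [gg]
  refine ⟨R₁⁻¹, hlt, ?_, ?_, ?_, hne, ?_⟩
  · show DifferentiableOn ℂ (fun x => h x⁻¹) (PD R₁⁻¹)
    apply hu.hd.comp
    · intro x hx
      exact (differentiableAt_inv hx.1).differentiableWithinAt
    · exact hΩ
  · intro x hx y hy hxy
    exact inv_injective (hu.hi (hΩ x hx) (hΩ y hy) hxy)
  · show DifferentiableOn ℂ (GE h a c) (ball 0 R₁⁻¹)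
    unfold GE
    apply hgd.add
    apply DifferentiableOn.fun_sum
    intro j _
    apply DifferentiableOn.div
    · fun_prop
    · exact hgd.sub (by fun_prop)
    · intro x hx
      by_cases hx0 : x = 0
      · rw [hx0, hg0]; simp
      · have hx' : x ∈ PD R₁⁻¹ := ⟨hx0, mem_ball_zero_iff.mp hx⟩
        rw [gg_of_ne hx0, ← mul_sub]
        exact mul_ne_zero hx0 (sub_ne_zero.mpr (hne x hx' j))
  · intro x hx
    show FZ h a c (h x⁻¹) = x⁻¹ * GE h a c x
    unfold FZ GE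
    have hx0 := hx.1
    rw [gg_of_ne hx0, mul_add, Finset.mul_sum, ← mul_assoc, inv_mul_cancel₀ hx0, one_mul]
    congr 1
    apply Finset.sum_congr rfl
    intro j _
    have h1 : h x⁻¹ - h (a j) ≠ 0 := sub_ne_zero.mpr (hne x hx j)
    rw [← mul_sub]
    field_simp

theorem UD.piece (hu : UD Ω h R₀ R C a δ) (c : ι → ℂ) (o : Option ι) :
    ∃ R', PA h a c R δ o R' := by
  cases o with
  | none => exact hu.none_piece c
  | some i => exact hu.some_piece c i

theorem UD.rf_pos (hu : UD Ω h R₀ R C a δ) (o : Option ι) : 0 < rf R δ o := by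
  cases o with
  | none =>
    have := hu.R₀1; have := hu.R₀R
    exact inv_pos.mpr (by linarith)
  | some i => exact hu.δ0 i

end

end Pool.Agent.H69N.LA
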