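import Mathlib
import Pool.Agent.H69N.LA.Leb

set_option autoImplicit false

open Complex Topology Filter Metric MeasureTheory Set

namespace Pool.Agent.H69N.LA

open Pool.Agent.H713R2 Pool.Agent.H713R2.AR
open Pool.Agent.H713R3.ZA.GAIN (gg gg_of_ne isExt UU_eq)

theorem contDiffAt_of_holo {f : ℂ → ℂ} {V : Set ℂ} (hV : IsOpen V) (hf : DifferentiableOn ℂ f V)
    {w : ℂ} (hw : w ∈ V) : ContDiffAt ℝ 1 f w := by
  have h1 : ContDiffOn ℂ 1 f V := hf.contDiffOn hV
  exact (h1.contDiffAt (hV.mem_nhds hw)).restrict_scalars ℝ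

/-- `GG` of the model function. -/
theorem GG_model {f : ℂ → ℂ} {V : Set ℂ} (hV : IsOpen V) (hf : DifferentiableOn ℂ f V)
    {w : ℂ} (hw : w ∈ V) :
    GG (fun w => (starRingEnd ℂ) (f w) * deriv f w) w = 2 * I * ((‖deriv f w‖ ^ 2 : ℝ) : ℂ) := by
  have h2 : HasFDerivAt f
      ((ContinuousLinearMap.toSpanSingleton ℂ (deriv f w)).restrictScalars ℝ) w :=
    ((hf.differentiableAt (hV.mem_nhds hw)).hasDerivAt).hasFDerivAt.restrictScalars ℝ
  have h2' : HasFDerivAt (deriv f)
      ((ContinuousLinearMap.toSpanSingleton ℂ (deriv (deriv f) w)).restrictScalars ℝ) w :=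
    (((hf.deriv hV).differentiableAt (hV.mem_nhds hw)).hasDerivAt).hasFDerivAt.restrictScalars ℝ
  have h3 : HasFDerivAt (fun w : ℂ => (starRingEnd ℂ) (f w))
      ((Complex.conjCLE : ℂ →L[ℝ] ℂ).comp
        ((ContinuousLinearMap.toSpanSingleton ℂ (deriv f w)).restrictScalars ℝ)) w :=
    (Complex.conjCLE : ℂ →L[ℝ] ℂ).hasFDerivAt.comp w h2
  have h4 := h3.mul h2'
  have h4' : fderiv ℝ (fun w => (starRingEnd ℂ) (f w) * deriv f w) w = _ := h4.fderiv
  unfold GG
  rw [h4']
  simp
  have h5 : (((‖deriv f w‖ : ℝ) : ℂ)) ^ 2 = (starRingEnd ℂ) (deriv f w) * deriv f w := by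
    rw [← Complex.ofReal_pow, Complex.sq_norm, Complex.normSq_eq_conj_mul_self]
  rw [h5]
  ring

theorem GG_zero_of_open {F : ℂ → ℂ} {V : Set ℂ} (hV : IsOpen V) (hF : ∀ w ∈ V, F w = 0) {w : ℂ}
    (hw : w ∈ V) : F w = 0 ∧ GG F w = 0 := by
  refine ⟨hF w hw, ?_⟩
  have h1 : F =ᶠ[𝓝 w] fun _ => 0 := by
    filter_upwards [hV.mem_nhds hw] with z hz using hF z hz
  rw [GG_congr h1]
  simp [GG]

theorem continuous_GG {F : ℂ → ℂ} (hF : ContDiff ℝ 1 F) : Continuous (GG F) := by
  unfold GG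
  have h1 : ∀ v : ℂ, Continuous (fun z => fderiv ℝ F z v) := fun v =>
    (hF.continuous_fderiv one_ne_zero).clm_apply continuous_const
  exact (continuous_const.mul (h1 1)).sub (h1 I)

section
variable {ι : Type} [Fintype ι] [DecidableEq ι] {Ω : Set ℂ} {h : ℂ → ℂ} {R₀ R C : ℝ} {a : ι → ℂ}
  {δ : ι → ℝ}

/-- The sum of the boundary integrals is not positive. -/
theorem UD.lebedev (hu : UD Ω h R₀ R C a δ) (c : ι → ℂ) {n : ℕ} (hn : 2 ≤ n) :
    ((n : ℝ) - 1) * (‖tc (GE h a c) n‖ ^ 2 * (R⁻¹) ^ (2 * n)) * R ^ 2 +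
      ∑ i, ‖tc (GI h a c i) 2‖ ^ 2 * δ i ^ 2 ≤ R ^ 2 + ∑ i, ‖c i‖ ^ 2 / δ i ^ 2 := by
  have hpi := Real.pi_pos
  have hR₀ : 0 < R₀ := by have := hu.R₀1; linarith
  have hR : 0 < R := hR₀.trans hu.R₀R
  have hC0 : 0 ≤ C := by
    refine (norm_nonneg _).trans (hu.hC (((R₀ + 1 : ℝ)) : ℂ) ?_)
    rw [Complex.norm_real, Real.norm_eq_abs, abs_of_pos (by linarith)]
    linarith
  choose R' hP using hu.piece c
  have hrf := hu.rf_pos
  -- the open set on which `FZ` is holomorphic
  set V : Set ℂ := {w | ∀ j, w ≠ h (a j)} with hV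
  have hVo : IsOpen V := isOpen_V h a
  have hFV := FZ_diff h a c
  -- discs around the poles
  have hopen : ∀ i, IsOpen (h '' ball (a i) (δ i)) := fun i =>
    Pool.Agent.Helper202.Univ.isOpen_image hu.Ωo hu.hd hu.hi isOpen_ball
      (ball_subset_closedBall.trans (hu.sub i))
  have hex : ∀ i, ∃ e : ℝ, 0 < e ∧ closedBall (h (a i)) (2 * e) ⊆ h '' ball (a i) (δ i) := by
    intro i
    obtain ⟨e, he, hsub⟩ := Metric.isOpen_iff.mp (hopen i) (h (a i))
      ⟨a i, mem_ball_self (hu.δ0 i), rfl⟩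
    refine ⟨e / 4, by positivity, (closedBall_subset_ball (by linarith)).trans hsub⟩
  choose e he hesub using hex
  -- large radius
  obtain ⟨S, hS, hSU⟩ := exists_large hu.isExt (inv_pos.mpr hR) ((inv_lt_inv₀ hR hR₀).mpr hu.R₀R).le
  have hSU' : ∀ w : ℂ, S < ‖w‖ → w ∈ h '' {z : ℂ | R < ‖z‖} := by
    intro w hw
    rw [← UU_eq hR]
    exact hSU w hw
  -- images of the circles are bounded
  have hbd : ∀ o : Option ι, ∃ B : ℝ, ∀ x : ℂ, ‖x‖ = rf R δ o → ‖kf h a o x‖ ≤ B := by
    intro o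
    have hcomp : IsCompact (sphere (0 : ℂ) (rf R δ o)) := isCompact_sphere _ _
    have hcont : ContinuousOn (kf h a o) (sphere (0 : ℂ) (rf R δ o)) := by
      apply (hP o).kd.continuousOn.mono
      intro x hx
      rw [mem_sphere_zero_iff_norm] at hx
      refine ⟨?_, by rw [hx]; exact (hP o).lt⟩
      rintro rfl
      rw [norm_zero] at hx
      have := hrf o
      linarith
    obtain ⟨B, hB⟩ := hcomp.exists_bound_of_continuousOn hcont
    exact ⟨B, fun x hx => hB x (by rw [mem_sphere_zero_iff_norm]; exact hx)⟩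
  choose B hB using hbd
  obtain ⟨S₁, hS₁S, hS₁B⟩ : ∃ S₁ : ℝ, S < S₁ ∧ ∀ o, B o < S₁ := by
    have h1 : ∀ᶠ r in (atTop : Filter ℝ), S < r := eventually_gt_atTop S
    have h2 : ∀ᶠ r in (atTop : Filter ℝ), ∀ o, B o < r := by
      rw [eventually_all]
      exact fun o => eventually_gt_atTop (B o)
    exact (h1.and h2).exists
  have hS₁0 : 0 < S₁ := hS.trans hS₁S
  let Θ : ContDiffBump (0 : ℂ) := ⟨S₁, S₁ + 1, hS₁0, by linarith⟩
  let Θi : ∀ i, ContDiffBump (h (a i)) := fun i => ⟨e i, 2 * e i, he i, by have := he i; linarith⟩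
  set F : ℂ → ℂ := fun w => ((Θ w * ∏ i, (1 - Θi i w) : ℝ) : ℂ) *
    ((starRingEnd ℂ) (FZ h a c w) * deriv (FZ h a c) w) with hF
  -- `F` vanishes near the poles and far away
  have hFp : ∀ i, ∀ w ∈ ball (h (a i)) (e i), F w = 0 := by
    intro i w hw
    have h1 : Θi i w = 1 := (Θi i).one_of_mem_closedBall (ball_subset_closedBall hw)
    have h2 : ∏ i, (1 - Θi i w) = 0 := Finset.prod_eq_zero (Finset.mem_univ i) (by rw [h1, sub_self])
    simp only [hF]
    rw [h2, mul_zero]
    simp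
  have hFfar : ∀ w ∈ {w : ℂ | S₁ + 1 < ‖w‖}, F w = 0 := by
    intro w hw
    have h1 : Θ w = 0 := Θ.zero_of_le_dist (by
      rw [dist_zero_right]
      exact le_of_lt hw)
    simp only [hF]
    rw [h1, zero_mul]
    simp
  have hfaro : IsOpen {w : ℂ | S₁ + 1 < ‖w‖} := isOpen_lt continuous_const continuous_norm
  -- where the cutoff is one
  have hone : ∀ w : ℂ, ‖w‖ < S₁ → (∀ i, w ∉ closedBall (h (a i)) (2 * e i)) →
      F =ᶠ[𝓝 w] fun w => (starRingEnd ℂ) (FZ h a c w) * deriv (FZ h a c) w := by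
    intro w hw1 hw2
    have ho : IsOpen {w : ℂ | ‖w‖ < S₁ ∧ ∀ i, w ∉ closedBall (h (a i)) (2 * e i)} := by
      have : {w : ℂ | ‖w‖ < S₁ ∧ ∀ i, w ∉ closedBall (h (a i)) (2 * e i)} =
          {w | ‖w‖ < S₁} ∩ ⋂ i, (closedBall (h (a i)) (2 * e i))ᶜ := by ext w; simp
      rw [this]
      exact (isOpen_lt continuous_norm continuous_const).inter
        (isOpen_iInter_of_finite fun i => isClosed_closedBall.isOpen_compl)
    filter_upwards [ho.mem_nhds ⟨hw1, hw2⟩] with z hz
    have h1 : Θ z = 1 := Θ.one_of_mem_closedBall (by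
      rw [mem_closedBall_zero_iff]; exact hz.1.le)
    have h2 : ∏ i, (1 - Θi i z) = 1 := by
      apply Finset.prod_eq_one
      intro i _
      have h3 : Θi i z = 0 := (Θi i).zero_of_le_dist (by
        have := hz.2 i
        rw [mem_closedBall, not_le] at this
        exact this.le)
      rw [h3, sub_zero]
    simp only [hF]
    rw [h1, h2]
    simp
  -- regularity
  have hFc : ContDiff ℝ 1 F := by
    rw [contDiff_iff_contDiffAt]
    intro w
    by_cases hw : ∃ i, w ∈ ball (h (a i)) (e i)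
    · obtain ⟨i, hi⟩ := hw
      have h1 : F =ᶠ[𝓝 w] fun _ => 0 := by
        filter_upwards [isOpen_ball.mem_nhds hi] with z hz using hFp i z hz
      exact contDiffAt_const.congr_of_eventuallyEq h1
    · push Not at hw
      have hwV : w ∈ V := by
        intro j hj
        apply hw j
        rw [← hj]
        exact mem_ball_self (he j)
      have h1 := contDiffAt_of_holo hVo hFV hwV
      have h2 := contDiffAt_of_holo hVo (hFV.deriv hVo) hwV
      have h3 : ContDiffAt ℝ 1 (fun w => (starRingEnd ℂ) (FZ h a c w)) w :=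
        Complex.conjCLE.contDiff.contDiffAt.comp w h1
      have h4 : ContDiff ℝ 1 (fun w : ℂ => (Θ w * ∏ i, (1 - Θi i w) : ℝ)) := by
        apply Θ.contDiff.mul
        apply contDiff_prod
        intro i _
        exact contDiff_const.sub (Θi i).contDiff
      have h5 : ContDiffAt ℝ 1 (fun w : ℂ => ((Θ w * ∏ i, (1 - Θi i w) : ℝ) : ℂ)) w :=
        (Complex.ofRealCLM.contDiff.comp h4).contDiffAt
      exact h5.mul (h3.mul h2)
  have hcs : HasCompactSupport F := by
    apply HasCompactSupport.of_support_subset_isCompact (isCompact_closedBall (0 : ℂ) (S₁ + 1))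
    intro z hz
    rw [mem_closedBall_zero_iff]
    by_contra hcon
    push Not at hcon
    exact hz (hFfar z hcon)
  have hint0 := integral_GG hFc hcs
  have hGc : Continuous (GG F) := continuous_GG hFc
  have hGcs : HasCompactSupport (GG F) := by
    apply HasCompactSupport.of_support_subset_isCompact (isCompact_closedBall (0 : ℂ) (S₁ + 1))
    intro z hz
    rw [mem_closedBall_zero_iff]
    by_contra hcon
    push Not at hcon
    exact hz (GG_zero_of_open hfaro hFfar hcon).2
  have hGi : Integrable (GG F) := hGc.integrable_of_hasCompactSupport hGcs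
  -- the pieces
  have hsph : ∀ (o : Option ι) (x : ℂ), ‖x‖ = rf R δ o → ∀ i,
      kf h a o x ∉ closedBall (h (a i)) (2 * e i) := by
    intro o x hx i hcon
    obtain ⟨z, hz, hzx⟩ := hesub i hcon
    have hzΩ : z ∈ Ω := hu.sub i (ball_subset_closedBall hz)
    cases o with
    | none =>
      have hx0 : x ≠ 0 := by
        rintro rfl
        have := hrf (none : Option ι)
        rw [norm_zero] at hx
        linarith
      have hxn : ‖x⁻¹‖ = R := by
        rw [norm_inv, hx]
        show (R⁻¹)⁻¹ = R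
        rw [inv_inv]
      have h1 : x⁻¹ ∈ Ω := hu.far _ (by rw [hxn]; exact hu.R₀R)
      have h2 : z = x⁻¹ := hu.hi hzΩ h1 hzx
      have h3 := hu.subR i (ball_subset_closedBall hz)
      rw [h2, mem_ball_zero_iff, hxn] at h3
      exact lt_irrefl _ h3
    | some j =>
      have hx' : ‖x‖ = δ j := hx
      have h0 : a j + x ∈ closedBall (a j) (δ j) := by
        rw [mem_closedBall, dist_eq_norm, add_sub_cancel_left, hx']
      have h2 : z = a j + x := hu.hi hzΩ (hu.sub j h0) hzx
      by_cases hji : j = i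
      · subst hji
        rw [h2, mem_ball, dist_eq_norm, add_sub_cancel_left, hx'] at hz
        exact lt_irrefl _ hz
      · rw [h2] at hz
        exact Set.disjoint_left.mp (hu.dis j i hji) h0 (ball_subset_closedBall hz)
  have hpe : ∀ o : Option ι, ∃ W : ℝ, (∫ z in kf h a o '' PD (rf R δ o), GG F z = I * (W : ℂ)) ∧
      ∀ n : ℕ, 2 ≤ n → 2 * Real.pi * (((n : ℝ) - 1) * (‖tc (Gf h a c o) n‖ ^ 2 *
        (rf R δ o) ^ (2 * n)) - ‖Gf h a c o 0‖ ^ 2) / (rf R δ o) ^ 2 ≤ W := by
    intro o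
    -- small radius
    obtain ⟨ε, hε, hεr, hF0⟩ : ∃ ε : ℝ, 0 < ε ∧ ε < rf R δ o ∧
        ∀ x : ℂ, x ≠ 0 → ‖x‖ ≤ ε → F (kf h a o x) = 0 ∧ GG F (kf h a o x) = 0 := by
      cases o with
      | none =>
        set ε : ℝ := min (R⁻¹ / 2) (S₁ + 2 + C)⁻¹ with hε
        have hε0 : 0 < ε := lt_min (by positivity) (by positivity)
        refine ⟨ε, hε0, ?_, fun x hx0 hx => ?_⟩
        · have h1 : ε ≤ R⁻¹ / 2 := min_le_left _ _
          have h2 : 0 < R⁻¹ := inv_pos.mpr hR
          show ε < R⁻¹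
          linarith
        · have hxp : 0 < ‖x‖ := norm_pos_iff.mpr hx0
          have h1 : S₁ + 2 + C ≤ ‖x⁻¹‖ := by
            rw [norm_inv]
            exact (le_inv_comm₀ (by positivity) hxp).mpr (hx.trans (min_le_right _ _))
          have h2 : R₀ < ‖x⁻¹‖ := by
            rw [norm_inv]
            have h3 : ‖x‖ ≤ R⁻¹ / 2 := hx.trans (min_le_left _ _)
            have h4 : ‖x‖ < R⁻¹ := by
              have : 0 < R⁻¹ := inv_pos.mpr hR
              linarith
            exact hu.R₀R.trans ((lt_inv_comm₀ hxp hR).mp h4)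
          have h3 := hu.hC _ h2
          have h4 : ‖x⁻¹‖ - ‖h x⁻¹‖ ≤ C := by
            have := norm_sub_norm_le x⁻¹ (h x⁻¹)
            rw [norm_sub_rev] at this
            exact this.trans h3
          apply GG_zero_of_open hfaro hFfar
          show S₁ + 1 < ‖h x⁻¹‖
          linarith
      | some i =>
        have hcont : ContinuousAt h (a i) :=
          (hu.hd.differentiableAt (hu.Ωo.mem_nhds (hu.aΩ i))).continuousAt
        obtain ⟨d, hd, hdb⟩ := Metric.continuousAt_iff.mp hcont (e i) (he i)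
        set ε : ℝ := min (δ i / 2) (d / 2) with hε
        have hδi := hu.δ0 i
        have hε0 : 0 < ε := lt_min (by positivity) (by positivity)
        refine ⟨ε, hε0, ?_, fun x hx0 hx => ?_⟩
        · have h1 : ε ≤ δ i / 2 := min_le_left _ _
          show ε < δ i
          linarith
        · apply GG_zero_of_open isOpen_ball (hFp i)
          show h (a i + x) ∈ ball (h (a i)) (e i)
          rw [mem_ball]
          apply hdb
          rw [dist_eq_norm, add_sub_cancel_left]
          have h1 : ε ≤ d / 2 := min_le_right _ _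
          linarith
    have hPo := hP o
    refine piece_eval hε hεr hPo.lt hPo.kd hPo.ki hFc (fun x h1 h2 => (hF0 x h1 h2).1)
      (fun x h1 h2 => (hF0 x h1 h2).2) (F₀ := FZ h a c) hPo.Gd ?_ hPo.eq ?_
    · intro x hx
      exact hFV.differentiableAt (hVo.mem_nhds (hPo.ne x hx))
    · intro x hx
      have h1 := hone (kf h a o x) ((hB o x hx).trans_lt (hS₁B o)) (hsph o x hx)
      exact h1.self_of_nhds
  choose W hW1 hW2 using hpe
  -- the union of the pieces
  set s : Option ι → Set ℂ := fun o => kf h a o '' PD (rf R δ o) with hs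
  have hso : ∀ o, IsOpen (s o) := fun o => isOpen_image_PD (hP o).lt.le (hP o).kd (hP o).ki
  have hsdis : Pairwise (Function.onFun Disjoint s) := by
    have hkey : ∀ (i : ι) (o : Option ι), o ≠ some i → Disjoint (s (some i)) (s o) := by
      intro i o ho
      rw [Set.disjoint_left]
      rintro _ ⟨x, hx, rfl⟩ ⟨y, hy, hyx⟩
      have hx1 : a i + x ∈ closedBall (a i) (δ i) := by
        rw [mem_closedBall, dist_eq_norm, add_sub_cancel_left]
        exact le_of_lt hx.2
      cases o with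
      | none =>
        have hy1 : R < ‖y⁻¹‖ := by
          rw [norm_inv]
          exact (lt_inv_comm₀ (norm_pos_iff.mpr hy.1) hR).mp hy.2
        have h2 : y⁻¹ = a i + x := hu.hi (hu.far _ (hu.R₀R.trans hy1)) (hu.sub i hx1) hyx
        have h3 := hu.subR i hx1
        rw [← h2, mem_ball_zero_iff] at h3
        linarith
      | some j =>
        have hji : i ≠ j := fun h => ho (by rw [h])
        have hy1 : a j + y ∈ closedBall (a j) (δ j) := by
          rw [mem_closedBall, dist_eq_norm, add_sub_cancel_left]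
          exact le_of_lt hy.2
        have h2 : a j + y = a i + x := hu.hi (hu.sub j hy1) (hu.sub i hx1) hyx
        rw [h2] at hy1
        exact Set.disjoint_left.mp (hu.dis i j hji) hx1 hy1
    intro o o' hoo
    cases o with
    | some i => exact hkey i o' (Ne.symm hoo)
    | none =>
      cases o' with
      | some i => exact (hkey i none (by simp)).symm
      | none => exact absurd rfl hoo
  have hU : ∫ z in ⋃ o, s o, GG F z = ∑ o, I * (W o : ℂ) := by
    rw [integral_iUnion_fintype (fun o => (hso o).measurableSet) hsdis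
      (fun o => hGi.integrableOn)]
    exact Finset.sum_congr rfl fun o _ => hW1 o
  have hUm : MeasurableSet (⋃ o, s o) := MeasurableSet.iUnion fun o => (hso o).measurableSet
  have hsplit := integral_add_compl hUm hGi
  rw [hint0, hU] at hsplit
  -- the complement
  have hcompl : ∀ w ∈ (⋃ o, s o)ᶜ, 0 ≤ (GG F w).im := by
    intro w hw
    simp only [mem_compl_iff, mem_iUnion, not_exists] at hw
    by_cases hwp : ∃ i, w = h (a i)
    · obtain ⟨i, hi⟩ := hwp
      have h1 : w ∈ ball (h (a i)) (e i) := by rw [hi]; exact mem_ball_self (he i)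
      rw [(GG_zero_of_open isOpen_ball (hFp i) h1).2]
      simp
    · push Not at hwp
      have hwV : w ∈ V := hwp
      have hnS : ‖w‖ < S₁ := by
        by_contra hcon
        push Not at hcon
        obtain ⟨z, hz, hzw⟩ := hSU' w (hS₁S.trans_le hcon)
        apply hw none
        have hzR : R < ‖z‖ := hz
        have hz0 : z ≠ 0 := by
          rintro rfl
          rw [norm_zero] at hzR
          linarith
        refine ⟨z⁻¹, ⟨inv_ne_zero hz0, ?_⟩, ?_⟩
        · show ‖z⁻¹‖ < R⁻¹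
          rw [norm_inv]
          exact (inv_lt_inv₀ (norm_pos_iff.mpr hz0) hR).mpr hzR
        · show h (z⁻¹)⁻¹ = w
          rw [inv_inv, hzw]
      have hnc : ∀ i, w ∉ closedBall (h (a i)) (2 * e i) := by
        intro i hcon
        obtain ⟨z, hz, hzw⟩ := hesub i hcon
        apply hw (some i)
        refine ⟨z - a i, ⟨?_, ?_⟩, ?_⟩
        · rw [sub_ne_zero]
          rintro rfl
          exact hwp i hzw.symm
        · show ‖z - a i‖ < δ i
          rw [← dist_eq_norm]; exact hz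
        · show h (a i + (z - a i)) = w
          rw [add_sub_cancel, hzw]
      rw [GG_congr (hone w hnS hnc), GG_model hVo hFV hwV]
      simp only [Complex.mul_im, Complex.mul_re, Complex.ofReal_re, Complex.ofReal_im, Complex.I_re,
        Complex.I_im, Complex.re_ofNat, Complex.im_ofNat]
      nlinarith [sq_nonneg ‖deriv (FZ h a c) w‖]
  have him : 0 ≤ (∫ z in (⋃ o, s o)ᶜ, GG F z).im := by
    have h1 : (∫ z in (⋃ o, s o)ᶜ, GG F z).im = ∫ z in (⋃ o, s o)ᶜ, (GG F z).im := by
      have := Complex.imCLM.integral_comp_comm (μ := volume.restrict (⋃ o, s o)ᶜ)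
        hGi.integrableOn
      simpa using this.symm
    rw [h1]
    exact setIntegral_nonneg hUm.compl hcompl
  have hsum : ∑ o, W o ≤ 0 := by
    have h1 := congrArg Complex.im hsplit
    rw [Complex.add_im, Complex.im_sum] at h1
    have h2 : ∀ o, (I * (W o : ℂ)).im = W o := by intro o; simp
    simp only [h2] at h1
    simp only [Complex.zero_im] at h1
    linarith
  rw [Fintype.sum_option] at hsum
  have hn0 := hW2 none n hn
  have hg0 : Gf h a c none 0 = 1 := by
    show GE h a c 0 = 1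
    unfold GE
    simp [gg]
  rw [hg0] at hn0
  have hi0 : ∀ i, 2 * Real.pi * (‖tc (GI h a c i) 2‖ ^ 2 * δ i ^ 2 - ‖c i‖ ^ 2 / δ i ^ 2) ≤
      W (some i) := by
    intro i
    have h1 := hW2 (some i) 2 le_rfl
    have h2 : Gf h a c (some i) 0 = c i := by
      show GI h a c i 0 = c i
      unfold GI
      rw [zero_mul, zero_add, add_zero, dslope_same]
      exact mul_div_cancel_right₀ _ (hu.deriv_ne (hu.aΩ i))
    rw [h2] at h1
    refine le_trans (le_of_eq ?_) h1
    have hδi := hu.δ0 i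
    show _ = 2 * Real.pi * ((((2 : ℕ) : ℝ) - 1) * (‖tc (GI h a c i) 2‖ ^ 2 *
        (δ i) ^ (2 * 2)) - ‖c i‖ ^ 2) / (δ i) ^ 2
    push_cast
    field_simp
    ring
  have hsi : ∑ i, 2 * Real.pi * (‖tc (GI h a c i) 2‖ ^ 2 * δ i ^ 2 - ‖c i‖ ^ 2 / δ i ^ 2) ≤
      ∑ i, W (some i) := Finset.sum_le_sum fun i _ => hi0 i
  rw [← Finset.mul_sum, Finset.sum_sub_distrib] at hsi
  have hn1 : 2 * Real.pi * (((n : ℝ) - 1) * (‖tc (GE h a c) n‖ ^ 2 * (R⁻¹) ^ (2 * n)) * R ^ 2 -
      R ^ 2) ≤ W none := by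
    refine le_trans (le_of_eq ?_) hn0
    show _ = 2 * Real.pi * (((n : ℝ) - 1) * (‖tc (GE h a c) n‖ ^ 2 *
        (R⁻¹) ^ (2 * n)) - ‖(1 : ℂ)‖ ^ 2) / (R⁻¹) ^ 2
    rw [norm_one]
    generalize ((n : ℝ) - 1) * (‖tc (GE h a c) n‖ ^ 2 * (R⁻¹) ^ (2 * n)) = q
    field_simp
  have h2pi : 0 < 2 * Real.pi := by positivity
  have hfin : 2 * Real.pi * ((((n : ℝ) - 1) * (‖tc (GE h a c) n‖ ^ 2 * (R⁻¹) ^ (2 * n)) * R ^ 2 -
      R ^ 2) + (∑ i, ‖tc (GI h a c i) 2‖ ^ 2 * δ i ^ 2 - ∑ i, ‖c i‖ ^ 2 / δ i ^ 2)) ≤ 0 := by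
    linarith
  have := nonpos_of_mul_nonpos_right hfin h2pi
  linarith

end

end Pool.Agent.H69N.LA
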