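import Mathlib
import Pool.Agent.H713R2.TC
import Pool.Agent.Helper540.Holo

set_option autoImplicit false

open Complex Topology Filter Metric MeasureTheory Set

namespace Pool.Agent.H69N.LA

open Pool.Agent.H713R2

/-- Taylor coefficients depend holomorphically on parameters. -/
theorem tc_param {ρ s : ℝ} (hs : 0 < s) {W : Set ℂ} (hW : IsOpen W)
    (hsW : sphere (0 : ℂ) s ⊆ W) {Q : ℂ → ℂ → ℂ}
    (hQ : DifferentiableOn ℂ (fun p : ℂ × ℂ => Q p.1 p.2) (ball (0 : ℂ) ρ ×ˢ W))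
    (hQt : ∀ t ∈ ball (0 : ℂ) ρ, ∃ R' : ℝ, s < R' ∧ DifferentiableOn ℂ (Q t) (ball 0 R')) (n : ℕ) :
    DifferentiableOn ℂ (fun t => tc (Q t) n) (ball (0 : ℂ) ρ) := by
  intro t₀ ht₀
  apply DifferentiableAt.differentiableWithinAt
  have hpi : (2 * Real.pi * I : ℂ) ≠ 0 := by
    simp [Real.pi_ne_zero]
  have hSo : IsOpen (ball (0 : ℂ) ρ ×ˢ W) := isOpen_ball.prod hW
  set Ψ : ℂ × ℂ → ℂ := fun p => Q p.1 p.2 with hΨ
  have hdd : DifferentiableOn ℂ (fun p => fderiv ℂ Ψ p (1, 0)) (ball (0 : ℂ) ρ ×ˢ W) :=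
    Pool.Agent.Helper540.differentiableOn_fderiv_apply hSo hQ (1, 0)
  obtain ⟨ε, hε, hεs⟩ : ∃ ε : ℝ, 0 < ε ∧ closedBall t₀ ε ⊆ ball (0 : ℂ) ρ := by
    obtain ⟨ε, hε, h⟩ := Metric.isOpen_iff.mp isOpen_ball t₀ ht₀
    exact ⟨ε / 2, by positivity, (closedBall_subset_ball (by linarith)).trans h⟩
  have hcomp : IsCompact (closedBall t₀ ε ×ˢ sphere (0 : ℂ) s) :=
    (isCompact_closedBall t₀ ε).prod (isCompact_sphere 0 s)
  obtain ⟨M, hM⟩ := hcomp.exists_bound_of_continuousOn
    (hdd.continuousOn.mono (prod_mono hεs hsW))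
  have hcm : ∀ θ : ℝ, circleMap 0 s θ ∈ sphere (0 : ℂ) s := fun θ => circleMap_mem_sphere 0 hs.le θ
  have hcm0 : ∀ θ : ℝ, circleMap (0 : ℂ) s θ ≠ 0 := fun θ => circleMap_ne_center hs.ne'
  set F : ℂ → ℝ → ℂ := fun t θ =>
    deriv (circleMap 0 s) θ • (Q t (circleMap 0 s θ) / circleMap 0 s θ ^ (n + 1)) with hF
  set F' : ℂ → ℝ → ℂ := fun t θ =>
    deriv (circleMap 0 s) θ • (fderiv ℂ Ψ (t, circleMap 0 s θ) (1, 0) /
      circleMap 0 s θ ^ (n + 1)) with hF'
  have hF'c : Continuous fun θ : ℝ => circleMap (0 : ℂ) s θ := continuous_circleMap 0 s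
  have hderc : Continuous fun θ : ℝ => deriv (circleMap (0 : ℂ) s) θ := by
    have : (fun θ : ℝ => deriv (circleMap (0 : ℂ) s) θ) = fun θ => circleMap 0 s θ * I := by
      funext θ; rw [deriv_circleMap]
    rw [this]
    exact hF'c.mul continuous_const
  have hcont : ∀ t ∈ ball (0 : ℂ) ρ, Continuous (F t) := by
    intro t ht
    apply hderc.smul
    apply Continuous.div
    · have h1 : Continuous fun θ : ℝ => Ψ (t, circleMap 0 s θ) :=
        hQ.continuousOn.comp_continuous (by fun_prop) (fun θ => ⟨ht, hsW (hcm θ)⟩)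
      exact h1
    · exact hF'c.pow _
    · exact fun θ => pow_ne_zero _ (hcm0 θ)
  have hcont' : ∀ t ∈ ball (0 : ℂ) ρ, Continuous (F' t) := by
    intro t ht
    apply hderc.smul
    apply Continuous.div
    · exact hdd.continuousOn.comp_continuous (by fun_prop) (fun θ => ⟨ht, hsW (hcm θ)⟩)
    · exact hF'c.pow _
    · exact fun θ => pow_ne_zero _ (hcm0 θ)
  have key := intervalIntegral.hasDerivAt_integral_of_dominated_loc_of_deriv_le
    (μ := volume) (a := 0) (b := 2 * Real.pi) (F := F) (F' := F') (x₀ := t₀) (s := ball t₀ ε)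
    (bound := fun _ => s * (M / s ^ (n + 1)))
    (ball_mem_nhds t₀ hε) ?_ ?_ ?_ ?_ ?_ ?_
  · have h1 : ∀ᶠ t in 𝓝 t₀, tc (Q t) n =
        (2 * Real.pi * I)⁻¹ * ∫ θ in (0 : ℝ)..(2 * Real.pi), F t θ := by
      filter_upwards [isOpen_ball.mem_nhds ht₀] with t ht
      obtain ⟨R', hR', hd⟩ := hQt t ht
      have h2 := circleIntegral_tc hs hR' hd n
      rw [circleIntegral] at h2
      simp only [hF]
      rw [h2, ← mul_assoc, inv_mul_cancel₀ hpi, one_mul]
    exact (key.2.const_mul ((2 * Real.pi * I : ℂ)⁻¹)).differentiableAt.congr_of_eventuallyEq h1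
  · filter_upwards [isOpen_ball.mem_nhds ht₀] with t ht
    exact (hcont t ht).aestronglyMeasurable
  · exact (hcont t₀ ht₀).intervalIntegrable _ _
  · exact (hcont' t₀ ht₀).aestronglyMeasurable
  · refine Filter.Eventually.of_forall fun θ _ t ht => ?_
    have h1 := hM (t, circleMap 0 s θ) ⟨ball_subset_closedBall ht, hcm θ⟩
    simp only [hF']
    rw [norm_smul, norm_div, norm_pow, deriv_circleMap, norm_mul, Complex.norm_I, mul_one,
      norm_circleMap_zero, abs_of_pos hs]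
    gcongr
  · exact intervalIntegrable_const
  · refine Filter.Eventually.of_forall fun θ _ t ht => ?_
    have h1 : (t, circleMap 0 s θ) ∈ ball (0 : ℂ) ρ ×ˢ W :=
      ⟨hεs (ball_subset_closedBall ht), hsW (hcm θ)⟩
    have h2 := (hQ.differentiableAt (hSo.mem_nhds h1)).hasFDerivAt
    have h3 : HasDerivAt (fun t : ℂ => ((t, circleMap 0 s θ) : ℂ × ℂ)) ((1, 0) : ℂ × ℂ) t :=
      (hasDerivAt_id t).prodMk (hasDerivAt_const t _)
    have h4 : HasDerivAt (fun t => Q t (circleMap 0 s θ)) (fderiv ℂ Ψ (t, circleMap 0 s θ) (1, 0)) t := by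
      have h5 := HasFDerivAt.comp_hasDerivAt (f := fun t : ℂ => ((t, circleMap 0 s θ) : ℂ × ℂ)) t h2 h3
      exact h5
    have h6 := (h4.div_const (circleMap 0 s θ ^ (n + 1))).const_smul (deriv (circleMap 0 s) θ)
    exact h6

theorem tc_add {F G : ℂ → ℂ} {r : ℝ} (hr : 0 < r) (hF : DifferentiableOn ℂ F (ball 0 r))
    (hG : DifferentiableOn ℂ G (ball 0 r)) (n : ℕ) :
    tc (fun x => F x + G x) n = tc F n + tc G n := by
  have h := tc_unique (a := fun n => tc F n + tc G n) (F := fun x => F x + G x) hr (hF.add hG) ?_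
  · rw [← h]
  · filter_upwards [ball_mem_nhds (0 : ℂ) hr] with x hx
    have h1 := (hasSum_tc hF hx).add (hasSum_tc hG hx)
    refine h1.congr_fun ?_
    intro k; ring

theorem tc_const_mul {F : ℂ → ℂ} {r : ℝ} (hr : 0 < r) (hF : DifferentiableOn ℂ F (ball 0 r))
    (c : ℂ) (n : ℕ) : tc (fun x => c * F x) n = c * tc F n := by
  have h := tc_unique (a := fun n => c * tc F n) (F := fun x => c * F x) hr (hF.const_mul c) ?_
  · rw [← h]
  · filter_upwards [ball_mem_nhds (0 : ℂ) hr] with x hx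
    have h1 := (hasSum_tc hF hx).mul_left c
    refine h1.congr_fun ?_
    intro k; ring

theorem tc_sum {ι : Type} [DecidableEq ι] (t : Finset ι) {F : ι → ℂ → ℂ} {r : ℝ} (hr : 0 < r)
    (hF : ∀ i, DifferentiableOn ℂ (F i) (ball 0 r)) (n : ℕ) :
    tc (fun x => ∑ i ∈ t, F i x) n = ∑ i ∈ t, tc (F i) n := by
  induction t using Finset.induction_on with
  | empty =>
    simp only [Finset.sum_empty]
    have h := tc_unique (a := fun _ => 0) (F := fun _ : ℂ => (0 : ℂ)) hr
      (differentiableOn_const 0) (Filter.Eventually.of_forall fun x => by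
        simp)
    rw [← h]
  | insert i t hi ih =>
    simp only [Finset.sum_insert hi]
    rw [tc_add hr (hF i) (DifferentiableOn.fun_sum fun j _ => hF j), ih]

theorem tc_congr {F G : ℂ → ℂ} (h : F =ᶠ[𝓝 0] G) (n : ℕ) : tc F n = tc G n := by
  unfold tc
  rw [h.iteratedDeriv_eq]

theorem tc_poly (D : Polynomial ℂ) (n : ℕ) : tc (fun z => D.eval z) n = D.coeff n := by
  have h1 : (fun k => D.coeff k) = tc (fun z => D.eval z) := by
    apply tc_unique one_pos D.differentiable.differentiableOn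
    filter_upwards with x
    have h2 : D.eval x = ∑ k ∈ Finset.range (D.natDegree + 1), D.coeff k * x ^ k :=
      Polynomial.eval_eq_sum_range x
    rw [h2]
    apply hasSum_sum_of_ne_finset_zero
    intro k hk
    rw [Polynomial.coeff_eq_zero_of_natDegree_lt, zero_mul]
    simpa using hk
  rw [← h1]

/-- The Taylor coefficients of `x ^ 2 / (1 - x * a)`. -/
theorem tc_geom (a : ℂ) (k : ℕ) : tc (fun x => x ^ 2 / (1 - x * a)) (k + 2) = a ^ k := by
  have hr : 0 < (‖a‖ + 1)⁻¹ := by positivity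
  have hb : ∀ x ∈ ball (0 : ℂ) (‖a‖ + 1)⁻¹, ‖x * a‖ < 1 := by
    intro x hx
    rw [mem_ball_zero_iff] at hx
    rw [norm_mul]
    by_cases ha : a = 0
    · simp [ha]
    · have h1 : 0 < ‖a‖ := norm_pos_iff.mpr ha
      calc ‖x‖ * ‖a‖ < (‖a‖ + 1)⁻¹ * ‖a‖ := mul_lt_mul_of_pos_right hx h1
        _ < 1 := by
          rw [inv_mul_lt_iff₀ (by positivity)]
          linarith
  have hd : DifferentiableOn ℂ (fun x => x ^ 2 / (1 - x * a)) (ball 0 (‖a‖ + 1)⁻¹) := by
    apply DifferentiableOn.div (by fun_prop) (by fun_prop)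
    intro x hx h0
    have h1 := hb x hx
    rw [← sub_eq_zero.mp h0, norm_one] at h1
    exact lt_irrefl _ h1
  have h := tc_unique (a := fun n => if 2 ≤ n then a ^ (n - 2) else 0)
    (F := fun x => x ^ 2 / (1 - x * a)) hr hd ?_
  · rw [← h]
    simp
  · filter_upwards [ball_mem_nhds (0 : ℂ) hr] with x hx
    have h1 := (hasSum_geometric_of_norm_lt_one (hb x hx)).mul_left (x ^ 2)
    rw [← hasSum_nat_add_iff' 2]
    rw [Finset.sum_range_succ, Finset.sum_range_one]
    simp only [Nat.not_ofNat_le_one, if_false, zero_mul, add_zero, sub_zero,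
      Nat.le_add_left, if_true, Nat.add_sub_cancel, nonpos_iff_eq_zero, OfNat.ofNat_ne_zero]
    rw [div_eq_mul_inv]
    refine h1.congr_fun ?_
    intro k
    rw [mul_pow]
    ring

end Pool.Agent.H69N.LA
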