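import Mathlib
import Pool.Agent.H69N.LA.Leb2
import Pool.Agent.H69N.LA.TcP

set_option autoImplicit false

open Complex Topology Filter Metric MeasureTheory Set

namespace Pool.Agent.H69N.LA

open Pool.Agent.H713R2 Pool.Agent.H713R2.AR
open Pool.Agent.H713R3.ZA.GAIN (gg gg_of_ne isExt UU_eq)

theorem don_div {E : Type} [NormedAddCommGroup E] [NormedSpace ℂ E] {f g : E → ℂ} {s : Set E}
    (hf : DifferentiableOn ℂ f s) (hg : DifferentiableOn ℂ g s) (h : ∀ x ∈ s, g x ≠ 0) :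
    DifferentiableOn ℂ (fun x => f x / g x) s := by
  simp only [div_eq_mul_inv]
  exact hf.mul (hg.fun_inv h)

/-- a holomorphic motion of a neighbourhood of infinity, conformal in the space variable -/
structure MV (ρ : ℝ) (Ω : Set ℂ) (H : ℂ → ℂ → ℂ) (R₀ C : ℝ) : Prop where
  ρ0 : 0 < ρ
  Ωo : IsOpen Ω
  hd : DifferentiableOn ℂ (fun p : ℂ × ℂ => H p.1 p.2) (ball (0 : ℂ) ρ ×ˢ Ω)
  H0 : ∀ z ∈ Ω, H 0 z = z
  hi : ∀ t ∈ ball (0 : ℂ) ρ, InjOn (H t) Ω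
  R₀1 : 1 ≤ R₀
  far : ∀ z : ℂ, R₀ < ‖z‖ → z ∈ Ω
  hC : ∀ t ∈ ball (0 : ℂ) ρ, ∀ z : ℂ, R₀ < ‖z‖ → ‖H t z - z‖ ≤ C

/-- disjoint discs in `Ω ∩ ball 0 R` -/
structure DK {ι : Type} (Ω : Set ℂ) (R₀ R : ℝ) (a : ι → ℂ) (δ : ι → ℝ) : Prop where
  R₀R : R₀ < R
  δ0 : ∀ i, 0 < δ i
  sub : ∀ i, closedBall (a i) (δ i) ⊆ Ω
  subR : ∀ i, closedBall (a i) (δ i) ⊆ ball 0 R
  dis : ∀ i j, i ≠ j → Disjoint (closedBall (a i) (δ i)) (closedBall (a j) (δ j))

section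
variable {ι : Type} {Ω : Set ℂ} {h : ℂ → ℂ} {R₀ R C ρ : ℝ} {a : ι → ℂ}
  {δ : ι → ℝ} {H : ℂ → ℂ → ℂ}

theorem MV.ud (hm : MV ρ Ω H R₀ C) (hD : DK Ω R₀ R a δ) {t : ℂ} (ht : t ∈ ball (0 : ℂ) ρ) :
    UD Ω (H t) R₀ R C a δ where
  Ωo := hm.Ωo
  hd := hm.hd.comp (f := fun z : ℂ => ((t, z) : ℂ × ℂ)) (by fun_prop) (fun z hz => ⟨ht, hz⟩)
  hi := hm.hi t ht
  R₀1 := hm.R₀1
  R₀R := hD.R₀R
  far := hm.far
  hC := hm.hC t ht
  δ0 := hD.δ0
  sub := hD.sub
  subR := hD.subR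
  dis := hD.dis

theorem MV.deriv_diff (hm : MV ρ Ω H R₀ C) :
    DifferentiableOn ℂ (fun p : ℂ × ℂ => deriv (H p.1) p.2) (ball (0 : ℂ) ρ ×ˢ Ω) := by
  have hSo : IsOpen (ball (0 : ℂ) ρ ×ˢ Ω) := isOpen_ball.prod hm.Ωo
  have hdd : DifferentiableOn ℂ (fun p => fderiv ℂ (fun p : ℂ × ℂ => H p.1 p.2) p (0, 1))
      (ball (0 : ℂ) ρ ×ˢ Ω) :=
    Pool.Agent.Helper540.differentiableOn_fderiv_apply hSo hm.hd (0, 1)
  apply hdd.congr
  rintro ⟨t, z⟩ hp
  have e1 := (hm.hd.differentiableAt (hSo.mem_nhds hp)).hasFDerivAt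
  have e2 : HasDerivAt (fun w : ℂ => ((t, w) : ℂ × ℂ)) ((0, 1) : ℂ × ℂ) z :=
    (hasDerivAt_const z t).prodMk (hasDerivAt_id z)
  have e3 := HasFDerivAt.comp_hasDerivAt (f := fun w : ℂ => ((t, w) : ℂ × ℂ)) z e1 e2
  exact e3.deriv

theorem MV.zero_mem (hm : MV ρ Ω H R₀ C) : (0 : ℂ) ∈ ball (0 : ℂ) ρ := mem_ball_self hm.ρ0

theorem MV.deriv_zero (hm : MV ρ Ω H R₀ C) {z : ℂ} (hz : z ∈ Ω) : deriv (H 0) z = 1 := by
  have e1 : H 0 =ᶠ[𝓝 z] id := by
    filter_upwards [hm.Ωo.mem_nhds hz] with w hw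
    exact hm.H0 w hw
  rw [e1.deriv_eq, deriv_id]

/-- composition with a holomorphic map -/
theorem MV.comp (hm : MV ρ Ω H R₀ C) {W : Set (ℂ × ℂ)} {u : ℂ × ℂ → ℂ}
    (hu : DifferentiableOn ℂ u W) (hW : ∀ p ∈ W, p.1 ∈ ball (0 : ℂ) ρ ∧ u p ∈ Ω) :
    DifferentiableOn ℂ (fun p : ℂ × ℂ => H p.1 (u p)) W := by
  have h1 : DifferentiableOn ℂ (fun p : ℂ × ℂ => ((p.1, u p) : ℂ × ℂ)) W :=
    differentiable_fst.differentiableOn.prodMk hu
  exact hm.hd.comp h1 (fun p hp => ⟨(hW p hp).1, (hW p hp).2⟩)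

theorem MV.comp' (hm : MV ρ Ω H R₀ C) {W : Set (ℂ × ℂ)} {z : ℂ} (hz : z ∈ Ω)
    (hW : ∀ p ∈ W, p.1 ∈ ball (0 : ℂ) ρ) :
    DifferentiableOn ℂ (fun p : ℂ × ℂ => deriv (H p.1) z) W := by
  have h1 : DifferentiableOn ℂ (fun p : ℂ × ℂ => ((p.1, z) : ℂ × ℂ)) W := by fun_prop
  exact hm.deriv_diff.comp h1 (fun p hp => ⟨hW p hp, hz⟩)

variable [Fintype ι] [DecidableEq ι]

/-- the coefficients at the discs -/
theorem MV.A_diff (hm : MV ρ Ω H R₀ C) (hD : DK Ω R₀ R a δ) (τ : ι → ℂ) (i : ι) :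
    DifferentiableOn ℂ (fun t => tc (GI (H t) a (fun j => t * τ j) i) 2) (ball (0 : ℂ) ρ) := by
  set W : Set ℂ := {x | x ≠ 0 ∧ a i + x ∈ Ω ∧ ∀ j ∈ Finset.univ.erase i, a i + x ≠ a j} with hW
  have hWo : IsOpen W := by
    have : W = {x | x ≠ 0} ∩ ((fun x => a i + x) ⁻¹' Ω ∩
        ⋂ j ∈ Finset.univ.erase i, {x | a i + x ≠ a j}) := by
      ext x; simp [hW]
    rw [this]
    apply isOpen_ne.inter
    apply IsOpen.inter (hm.Ωo.preimage (by fun_prop))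
    apply isOpen_biInter_finset
    intro j _
    exact isOpen_ne_fun (by fun_prop) (by fun_prop)
  have hai : ∀ j, a j ∈ Ω := fun j => hD.sub j (mem_closedBall_self (hD.δ0 j).le)
  refine tc_param (hD.δ0 i) hWo ?_ ?_ ?_ 2
  · intro x hx
    rw [mem_sphere_zero_iff_norm] at hx
    have hδi := hD.δ0 i
    have hcl : a i + x ∈ closedBall (a i) (δ i) := by
      rw [mem_closedBall, dist_eq_norm, add_sub_cancel_left, hx]
    refine ⟨?_, hD.sub i hcl, ?_⟩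
    · rintro rfl
      rw [norm_zero] at hx
      linarith
    · intro j hj hh
      rw [hh] at hcl
      exact Set.disjoint_left.mp (hD.dis i j (Finset.ne_of_mem_erase hj).symm) hcl
        (mem_closedBall_self (hD.δ0 j).le)
  · -- joint differentiability
    have hcong : ∀ p ∈ ball (0 : ℂ) ρ ×ˢ W, GI (H p.1) a (fun j => p.1 * τ j) i p.2 =
        p.2 * (H p.1 (a i + p.2) + ∑ j ∈ Finset.univ.erase i,
          (p.1 * τ j) * deriv (H p.1) (a j) / (H p.1 (a i + p.2) - H p.1 (a j))) +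
        (p.1 * τ i) * deriv (H p.1) (a i) / ((H p.1 (a i + p.2) - H p.1 (a i)) / p.2) := by
      rintro ⟨t, x⟩ ⟨ht, hx⟩
      have hx0 : x ≠ 0 := hx.1
      have hne' : a i + x ≠ a i := by simpa using hx0
      simp only [GI]
      rw [dslope_of_ne _ hne', slope_def_field, add_sub_cancel_left]
    apply DifferentiableOn.congr _ hcong
    have h1 : DifferentiableOn ℂ (fun p : ℂ × ℂ => H p.1 (a i + p.2)) (ball (0 : ℂ) ρ ×ˢ W) :=
      hm.comp (by fun_prop) (fun p hp => ⟨hp.1, hp.2.2.1⟩)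
    have h2 : ∀ j, DifferentiableOn ℂ (fun p : ℂ × ℂ => H p.1 (a j)) (ball (0 : ℂ) ρ ×ˢ W) :=
      fun j => hm.comp (differentiableOn_const _) (fun p hp => ⟨hp.1, hai j⟩)
    have h3 : ∀ j, DifferentiableOn ℂ (fun p : ℂ × ℂ => deriv (H p.1) (a j)) (ball (0 : ℂ) ρ ×ˢ W) :=
      fun j => hm.comp' (hai j) (fun p hp => hp.1)
    have h4 : DifferentiableOn ℂ (fun p : ℂ × ℂ => p.1) (ball (0 : ℂ) ρ ×ˢ W) :=
      differentiable_fst.differentiableOn
    have h5 : DifferentiableOn ℂ (fun p : ℂ × ℂ => p.2) (ball (0 : ℂ) ρ ×ˢ W) :=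
      differentiable_snd.differentiableOn
    apply DifferentiableOn.add
    · apply h5.mul
      apply h1.add
      apply DifferentiableOn.fun_sum
      intro j hj
      apply don_div
      · exact (h4.mul_const _).mul (h3 j)
      · exact h1.sub (h2 j)
      · intro p hp
        rw [sub_ne_zero]
        intro hh
        exact hp.2.2.2 j hj (hm.hi p.1 hp.1 hp.2.2.1 (hai j) hh)
    · apply don_div
      · exact (h4.mul_const _).mul (h3 i)
      · apply don_div (h1.sub (h2 i)) h5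
        intro p hp
        exact hp.2.1
      · intro p hp
        apply div_ne_zero _ hp.2.1
        rw [sub_ne_zero]
        intro hh
        have := hm.hi p.1 hp.1 hp.2.2.1 (hai i) hh
        exact hp.2.1 (by simpa using this)
  · intro t ht
    obtain ⟨R', hR'⟩ := (hm.ud hD ht).some_piece (fun j => t * τ j) i
    exact ⟨R', hR'.lt, hR'.Gd⟩

/-- at time zero -/
theorem MV.A_zero (hm : MV ρ Ω H R₀ C) (hD : DK Ω R₀ R a δ) (τ : ι → ℂ) (i : ι) :
    tc (GI (H 0) a (fun j => (0 : ℂ) * τ j) i) 2 = 1 := by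
  have hai : a i ∈ Ω := hD.sub i (mem_closedBall_self (hD.δ0 i).le)
  have h1 : GI (H 0) a (fun j => (0 : ℂ) * τ j) i =ᶠ[𝓝 0]
      fun x => (Polynomial.C (a i) * Polynomial.X + Polynomial.X ^ 2 : Polynomial ℂ).eval x := by
    have h2 : ∀ᶠ x : ℂ in 𝓝 0, a i + x ∈ Ω := by
      have : ContinuousAt (fun x : ℂ => a i + x) 0 := by fun_prop
      apply this.eventually
      simp only [add_zero]
      exact hm.Ωo.mem_nhds hai
    filter_upwards [h2] with x hx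
    simp only [GI, zero_mul, zero_div, Finset.sum_const_zero, add_zero, Polynomial.eval_add,
      Polynomial.eval_mul, Polynomial.eval_C, Polynomial.eval_X, Polynomial.eval_pow]
    rw [hm.H0 _ hx]
    ring
  rw [tc_congr h1, tc_poly]
  simp [Polynomial.coeff_X_pow]

theorem isOpen_invpre {Ω : Set ℂ} (hΩ : IsOpen Ω) : IsOpen {x : ℂ | x ≠ 0 ∧ x⁻¹ ∈ Ω} := by
  have h1 : ContinuousOn (fun x : ℂ => x⁻¹) {x | x ≠ 0} := continuousOn_inv₀
  have h2 := h1.isOpen_inter_preimage (isOpen_ne (x := (0 : ℂ))) hΩ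
  exact h2

omit [DecidableEq ι] in
theorem exists_R₁ (hD : DK Ω R₀ R a δ) : ∃ R₁ : ℝ, (R₀ < R₁ ∧ R₁ < R) ∧ ∀ j, ‖a j‖ < R₁ := by
  have h1 : ∀ᶠ r in 𝓝[<] R, R₀ < r ∧ r < R := Ioo_mem_nhdsLT hD.R₀R
  have h2 : ∀ᶠ r in 𝓝[<] R, ∀ j, ‖a j‖ < r := by
    rw [eventually_all]
    intro j
    have h3 : ‖a j‖ < R := by
      have := hD.subR j (mem_closedBall_self (hD.δ0 j).le)
      simpa using this
    filter_upwards [Ioo_mem_nhdsLT h3] with r hr using hr.1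
  exact (h1.and h2).exists

/-- the term at infinity which belongs to a disc -/
noncomputable def ET (h : ℂ → ℂ) (z : ℂ) (x : ℂ) : ℂ := deriv h z * x ^ 2 / (gg h x - x * h z)

omit [Fintype ι] [DecidableEq ι] in
theorem ET_diff (hu : UD Ω h R₀ R C a δ) {R₁ : ℝ} (hR₁0 : R₀ < R₁) {j : ι}
    (hj : ‖a j‖ < R₁) : DifferentiableOn ℂ (ET h (a j)) (ball 0 R₁⁻¹) := by
  have hR₀ : 0 < R₀ := by have := hu.R₀1; linarith
  have hR₁p : 0 < R₁ := hR₀.trans hR₁0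
  have haj : a j ∈ Ω := hu.sub j (mem_closedBall_self (hu.δ0 j).le)
  have hext : IsExt R₀⁻¹ (gg h) := isExt hu.R₀1 (hu.hd.mono fun z hz => hu.far z hz)
    (fun z hz w hw hzw => hu.hi (hu.far z hz) (hu.far w hw) hzw) hu.hC
  have hgd : DifferentiableOn ℂ (gg h) (ball 0 R₁⁻¹) :=
    hext.diff.mono (ball_subset_ball (inv_anti₀ hR₀ hR₁0.le))
  unfold ET
  apply DifferentiableOn.div
  · fun_prop
  · exact hgd.sub (by fun_prop)
  · intro x hx
    by_cases hx0 : x = 0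
    · rw [hx0]; simp [gg]
    · have h1 : R₁ < ‖x⁻¹‖ := by
        rw [norm_inv]
        exact (lt_inv_comm₀ (norm_pos_iff.2 hx0) hR₁p).1 (mem_ball_zero_iff.mp hx)
      rw [gg_of_ne hx0, ← mul_sub]
      apply mul_ne_zero hx0
      rw [sub_ne_zero]
      intro hh
      have h2 := hu.hi (hu.far _ (hR₁0.trans h1)) haj hh
      rw [h2] at h1
      linarith

/-- the coefficient of the motion at infinity -/
theorem MV.β_diff (hm : MV ρ Ω H R₀ C) (n : ℕ) :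
    DifferentiableOn ℂ (fun t => tc (gg (H t)) n) (ball (0 : ℂ) ρ) := by
  have hR₀ : 0 < R₀ := by have := hm.R₀1; linarith
  have hs : 0 < (R₀ + 1)⁻¹ := by positivity
  refine tc_param (W := {x : ℂ | x ≠ 0 ∧ x⁻¹ ∈ Ω}) hs (isOpen_invpre hm.Ωo) ?_ ?_ ?_ n
  · intro x hx
    rw [mem_sphere_zero_iff_norm] at hx
    refine ⟨?_, ?_⟩
    · rintro rfl
      rw [norm_zero] at hx
      linarith
    · apply hm.far
      rw [norm_inv, hx, inv_inv]
      linarith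
  · have hcong : ∀ p ∈ ball (0 : ℂ) ρ ×ˢ {x : ℂ | x ≠ 0 ∧ x⁻¹ ∈ Ω}, gg (H p.1) p.2 =
        p.2 * H p.1 (p.2)⁻¹ := by
      rintro ⟨t, x⟩ ⟨ht, hx⟩
      exact gg_of_ne hx.1
    apply DifferentiableOn.congr _ hcong
    apply differentiable_snd.differentiableOn.mul
    apply hm.comp _ (fun p hp => ⟨hp.1, hp.2.2⟩)
    exact differentiable_snd.differentiableOn.fun_inv (fun p hp => hp.2.1)
  · intro t ht
    refine ⟨R₀⁻¹, inv_strictAnti₀ hR₀ (by linarith), ?_⟩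
    have hext : IsExt R₀⁻¹ (gg (H t)) := by
      apply isExt hm.R₀1 _ _ (hm.hC t ht)
      · exact hm.hd.comp (f := fun z : ℂ => ((t, z) : ℂ × ℂ)) (by fun_prop)
          (fun z hz => ⟨ht, hm.far z hz⟩)
      · exact fun z hz w hw hzw => hm.hi t ht (hm.far z hz) (hm.far w hw) hzw
    exact hext.diff

omit [DecidableEq ι] in
theorem MV.E_diff (hm : MV ρ Ω H R₀ C) (hD : DK Ω R₀ R a δ) (j : ι) (n : ℕ) :
    DifferentiableOn ℂ (fun t => tc (ET (H t) (a j)) n) (ball (0 : ℂ) ρ) := by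
  have hR₀ : 0 < R₀ := by have := hm.R₀1; linarith
  have hR : 0 < R := hR₀.trans hD.R₀R
  have hs : 0 < R⁻¹ := inv_pos.mpr hR
  have hai : ∀ j, a j ∈ Ω := fun j => hD.sub j (mem_closedBall_self (hD.δ0 j).le)
  obtain ⟨R₁, ⟨hR₁0, hR₁R⟩, hR₁a⟩ := exists_R₁ hD
  have hR₁p : 0 < R₁ := hR₀.trans hR₁0
  refine tc_param (W := {x : ℂ | x ≠ 0 ∧ x⁻¹ ∈ Ω ∩ {z | z ≠ a j}}) hs
    (isOpen_invpre (hm.Ωo.inter isOpen_ne)) ?_ ?_ ?_ n
  · intro x hx
    rw [mem_sphere_zero_iff_norm] at hx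
    have hxn : ‖x⁻¹‖ = R := by rw [norm_inv, hx, inv_inv]
    refine ⟨?_, ?_, ?_⟩
    · rintro rfl
      rw [norm_zero] at hx
      linarith
    · apply hm.far
      rw [hxn]
      exact hD.R₀R
    · intro hh
      rw [hh] at hxn
      have := hR₁a j
      linarith
  · have hcong : ∀ p ∈ ball (0 : ℂ) ρ ×ˢ {x : ℂ | x ≠ 0 ∧ x⁻¹ ∈ Ω ∩ {z | z ≠ a j}},
        ET (H p.1) (a j) p.2 =
        deriv (H p.1) (a j) * p.2 ^ 2 / (p.2 * H p.1 (p.2)⁻¹ - p.2 * H p.1 (a j)) := by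
      rintro ⟨t, x⟩ ⟨ht, hx⟩
      simp only [ET]
      rw [gg_of_ne hx.1]
    apply DifferentiableOn.congr _ hcong
    apply don_div
    · exact (hm.comp' (hai j) (fun p hp => hp.1)).mul (by fun_prop)
    · apply DifferentiableOn.sub
      · apply differentiable_snd.differentiableOn.mul
        apply hm.comp _ (fun p hp => ⟨hp.1, hp.2.2.1⟩)
        exact differentiable_snd.differentiableOn.fun_inv (fun p hp => hp.2.1)
      · exact differentiable_snd.differentiableOn.mul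
          (hm.comp (differentiableOn_const _) (fun p hp => ⟨hp.1, hai j⟩))
    · rintro ⟨t, x⟩ ⟨ht, hx⟩
      simp only
      rw [← mul_sub]
      apply mul_ne_zero hx.1
      rw [sub_ne_zero]
      intro hh
      exact hx.2.2 (hm.hi t ht hx.2.1 (hai j) hh)
  · intro t ht
    exact ⟨R₁⁻¹, inv_strictAnti₀ hR₁p hR₁R, ET_diff (hm.ud hD ht) hR₁0 (hR₁a j)⟩

omit [Fintype ι] [DecidableEq ι] in
theorem MV.E_zero (hm : MV ρ Ω H R₀ C) (hD : DK Ω R₀ R a δ) (j : ι) (k : ℕ) :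
    tc (ET (H 0) (a j)) (k + 2) = a j ^ k := by
  have haj : a j ∈ Ω := hD.sub j (mem_closedBall_self (hD.δ0 j).le)
  have hR₀ : 0 < R₀ := by have := hm.R₀1; linarith
  rw [← tc_geom]
  apply tc_congr
  filter_upwards [ball_mem_nhds (0 : ℂ) (inv_pos.mpr hR₀)] with x hx
  have hg : gg (H 0) x = 1 := by
    by_cases hx0 : x = 0
    · rw [hx0]; simp [gg]
    · rw [gg_of_ne hx0, hm.H0 _ (hm.far _ _), mul_inv_cancel₀ hx0]
      rw [norm_inv]
      exact (lt_inv_comm₀ (norm_pos_iff.2 hx0) hR₀).1 (mem_ball_zero_iff.mp hx)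
  rw [ET, hg, hm.H0 _ haj, hm.deriv_zero haj, one_mul]

theorem MV.β_zero (hm : MV ρ Ω H R₀ C) {n : ℕ} (hn : 1 ≤ n) : tc (gg (H 0)) n = 0 := by
  have hR₀ : 0 < R₀ := by have := hm.R₀1; linarith
  have h1 : gg (H 0) =ᶠ[𝓝 0] fun x => (1 : Polynomial ℂ).eval x := by
    filter_upwards [ball_mem_nhds (0 : ℂ) (inv_pos.mpr hR₀)] with x hx
    rw [Polynomial.eval_one]
    by_cases hx0 : x = 0
    · rw [hx0]; simp [gg]
    · rw [gg_of_ne hx0, hm.H0 _ (hm.far _ _), mul_inv_cancel₀ hx0]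
      rw [norm_inv]
      exact (lt_inv_comm₀ (norm_pos_iff.2 hx0) hR₀).1 (mem_ball_zero_iff.mp hx)
  rw [tc_congr h1, tc_poly, Polynomial.coeff_one, if_neg (by omega)]

theorem MV.GE_tc (hm : MV ρ Ω H R₀ C) (hD : DK Ω R₀ R a δ) (τ : ι → ℂ) (n : ℕ) {t : ℂ}
    (ht : t ∈ ball (0 : ℂ) ρ) : tc (GE (H t) a (fun j => t * τ j)) n =
      tc (gg (H t)) n + t * ∑ j, τ j * tc (ET (H t) (a j)) n := by
  have hR₀ : 0 < R₀ := by have := hm.R₀1; linarith
  obtain ⟨R₁, ⟨hR₁0, hR₁R⟩, hR₁a⟩ := exists_R₁ hD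
  have hR₁p : 0 < R₁ := hR₀.trans hR₁0
  have hu := hm.ud hD ht
  have hE : ∀ j, DifferentiableOn ℂ (ET (H t) (a j)) (ball 0 R₁⁻¹) := fun j =>
    ET_diff hu hR₁0 (hR₁a j)
  have hg : DifferentiableOn ℂ (gg (H t)) (ball 0 R₁⁻¹) :=
    hu.isExt.diff.mono (ball_subset_ball (inv_anti₀ hR₀ hR₁0.le))
  have h1 : GE (H t) a (fun j => t * τ j) = fun x => gg (H t) x + ∑ j, (t * τ j) * ET (H t) (a j) x := by
    funext x
    simp only [GE, ET]
    congr 1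
    apply Finset.sum_congr rfl
    intro j _
    ring
  have hr := inv_pos.mpr hR₁p
  rw [h1, tc_add hr hg (DifferentiableOn.fun_sum fun j _ => (hE j).const_mul _),
    tc_sum Finset.univ hr (fun j => (hE j).const_mul _), Finset.mul_sum]
  congr 1
  apply Finset.sum_congr rfl
  intro j _
  rw [tc_const_mul hr (hE j)]
  ring

/-- The basic inequality for a motion and a finite family of discs. -/
theorem MV.ineq (hm : MV ρ Ω H R₀ C) (hD : DK Ω R₀ R a δ) {r : ℝ} (hr : 0 < r) (hrρ : r < ρ)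
    (τ : ι → ℂ) (k : ℕ) :
    ((k : ℝ) + 1) * (R⁻¹) ^ (2 * (k + 2)) * R ^ 2 * (r ^ 2 *
      ‖deriv (fun t => tc (gg (H t)) (k + 2)) 0 + ∑ j, τ j * a j ^ k‖ ^ 2) + ∑ i, δ i ^ 2 ≤
    R ^ 2 + r ^ 2 * ∑ i, ‖τ i‖ ^ 2 / δ i ^ 2 := by
  have hR₀ : 0 < R₀ := by have := hm.R₀1; linarith
  have hR : 0 < R := hR₀.trans hD.R₀R
  set β : ℂ → ℂ := fun t => tc (gg (H t)) (k + 2) with hβ
  set E : ℂ → ℂ := fun t => ∑ j, τ j * tc (ET (H t) (a j)) (k + 2) with hE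
  set A : ι → ℂ → ℂ := fun i t => tc (GI (H t) a (fun j => t * τ j) i) 2 with hA
  set Bt : ℂ → ℂ := fun t => dslope β 0 t + E t with hBt
  set κ : ℝ := ((k : ℝ) + 1) * (R⁻¹) ^ (2 * (k + 2)) * R ^ 2 with hκ
  have hκ0 : 0 < κ := by positivity
  set M : ℝ := R ^ 2 + r ^ 2 * ∑ i, ‖τ i‖ ^ 2 / δ i ^ 2 with hM
  set b : ℂ := deriv β 0 + ∑ j, τ j * a j ^ k with hb
  have hβ0 : β 0 = 0 := hm.β_zero (by omega)
  have hBt0 : Bt 0 = b := by
    simp only [hBt, hE, hb]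
    rw [dslope_same]
    congr 1
    apply Finset.sum_congr rfl
    intro j _
    rw [hm.E_zero hD]
  have hA0 : ∀ i, A i 0 = 1 := fun i => hm.A_zero hD τ i
  have hβd : DifferentiableOn ℂ β (ball (0 : ℂ) ρ) := hm.β_diff (k + 2)
  have hBtd : DifferentiableOn ℂ Bt (ball (0 : ℂ) ρ) := by
    apply DifferentiableOn.add
    · exact (Complex.differentiableOn_dslope (isOpen_ball.mem_nhds hm.zero_mem)).mpr hβd
    · apply DifferentiableOn.fun_sum
      intro j _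
      exact (hm.E_diff hD j (k + 2)).const_mul _
  have hAd : ∀ i, DifferentiableOn ℂ (A i) (ball (0 : ℂ) ρ) := fun i => hm.A_diff hD τ i
  set s : ℂ → ℂ := fun t => ∑ i, ((δ i ^ 2 : ℝ) : ℂ) * (2 * A i t - 1) +
    ((κ * r ^ 2 : ℝ) : ℂ) * (2 * (starRingEnd ℂ) b * Bt t - ((‖b‖ ^ 2 : ℝ) : ℂ)) with hs
  have hsd : DifferentiableOn ℂ s (ball (0 : ℂ) ρ) := by
    apply DifferentiableOn.add
    · apply DifferentiableOn.fun_sum
      intro i _
      exact (((hAd i).const_mul 2).sub_const 1).const_mul _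
    · exact ((hBtd.const_mul _).sub_const _).const_mul _
  -- on the circle
  have hcirc : ∀ t : ℂ, ‖t‖ = r → (s t).re ≤ M := by
    intro t ht
    have htρ : t ∈ ball (0 : ℂ) ρ := by rw [mem_ball_zero_iff, ht]; exact hrρ
    have ht0 : t ≠ 0 := by
      rintro rfl
      rw [norm_zero] at ht
      linarith
    have hleb := (hm.ud hD htρ).lebedev (fun j => t * τ j) (n := k + 2) (by omega)
    rw [hm.GE_tc hD τ (k + 2) htρ] at hleb
    have h1 : tc (gg (H t)) (k + 2) + t * ∑ j, τ j * tc (ET (H t) (a j)) (k + 2) = t * Bt t := by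
      simp only [hBt, hE]
      rw [dslope_of_ne _ ht0, slope_def_field, hβ0]
      field_simp
      simp only [hβ]
      ring
    rw [h1, norm_mul, ht] at hleb
    have h2 : ∑ i, ‖t * τ i‖ ^ 2 / δ i ^ 2 = r ^ 2 * ∑ i, ‖τ i‖ ^ 2 / δ i ^ 2 := by
      rw [Finset.mul_sum]
      apply Finset.sum_congr rfl
      intro i _
      rw [norm_mul, ht]
      ring
    rw [h2] at hleb
    have h3 : (((k + 2 : ℕ) : ℝ) - 1) * ((r * ‖Bt t‖) ^ 2 * (R⁻¹) ^ (2 * (k + 2))) * R ^ 2 =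
        κ * r ^ 2 * ‖Bt t‖ ^ 2 := by
      simp only [hκ]
      push_cast
      ring
    rw [h3] at hleb
    -- pointwise inequalities
    have hre1 : ∀ i, (((δ i ^ 2 : ℝ) : ℂ) * (2 * A i t - 1)).re ≤ ‖A i t‖ ^ 2 * δ i ^ 2 := by
      intro i
      rw [Complex.re_ofReal_mul]
      have e1 : (2 * A i t - 1).re = 2 * (A i t).re - 1 := by simp
      have e2 : 2 * (A i t).re - 1 ≤ ‖A i t‖ ^ 2 := by
        have e3 : (A i t).re ^ 2 ≤ ‖A i t‖ ^ 2 := by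
          rw [Complex.sq_norm, Complex.normSq_apply]
          nlinarith [sq_nonneg (A i t).im]
        nlinarith [sq_nonneg ((A i t).re - 1)]
      rw [e1]
      nlinarith [sq_nonneg (δ i)]
    have hre2 : (((κ * r ^ 2 : ℝ) : ℂ) * (2 * (starRingEnd ℂ) b * Bt t - ((‖b‖ ^ 2 : ℝ) : ℂ))).re ≤
        κ * r ^ 2 * ‖Bt t‖ ^ 2 := by
      rw [Complex.re_ofReal_mul]
      apply mul_le_mul_of_nonneg_left _ (by positivity)
      rw [Complex.sub_re, Complex.ofReal_re]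
      have e1 : (2 * (starRingEnd ℂ) b * Bt t).re = 2 * (b.re * (Bt t).re + b.im * (Bt t).im) := by
        simp
        ring
      rw [e1, Complex.sq_norm, Complex.sq_norm, Complex.normSq_apply, Complex.normSq_apply]
      nlinarith [sq_nonneg (b.re - (Bt t).re), sq_nonneg (b.im - (Bt t).im)]
    have hsre : (s t).re ≤ ∑ i, ‖A i t‖ ^ 2 * δ i ^ 2 + κ * r ^ 2 * ‖Bt t‖ ^ 2 := by
      simp only [hs]
      rw [Complex.add_re, Complex.re_sum]
      exact add_le_add (Finset.sum_le_sum fun i _ => hre1 i) hre2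
    have hleb' : κ * r ^ 2 * ‖Bt t‖ ^ 2 + ∑ i, ‖A i t‖ ^ 2 * δ i ^ 2 ≤ M := hleb
    linarith
  -- maximum principle
  have hmax : (s 0).re ≤ M := by
    have hd : DiffContOnCl ℂ (fun t => Complex.exp (s t)) (ball (0 : ℂ) r) := by
      apply DifferentiableOn.diffContOnCl
      rw [closure_ball _ hr.ne']
      exact (hsd.mono (closedBall_subset_ball hrρ)).cexp
    have h1 := Complex.norm_le_of_forall_mem_frontier_norm_le (C := Real.exp M) isBounded_ball hd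
      (by
        intro t ht
        rw [frontier_ball _ hr.ne', mem_sphere_zero_iff_norm] at ht
        rw [Complex.norm_exp]
        exact Real.exp_le_exp.mpr (hcirc t ht)) (z := 0) (subset_closure (mem_ball_self hr))
    rw [Complex.norm_exp] at h1
    exact Real.exp_le_exp.mp h1
  have hs0 : (s 0).re = ∑ i, δ i ^ 2 + κ * r ^ 2 * ‖b‖ ^ 2 := by
    simp only [hs]
    rw [Complex.add_re, Complex.re_sum, hBt0]
    congr 1
    · apply Finset.sum_congr rfl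
      intro i _
      rw [hA0, Complex.re_ofReal_mul]
      have : (2 * (1 : ℂ) - 1).re = 1 := by norm_num
      rw [this, mul_one]
    · rw [Complex.re_ofReal_mul, mul_assoc 2 _ b, ← Complex.normSq_eq_conj_mul_self, Complex.sub_re,
        Complex.ofReal_re, ← Complex.sq_norm]
      have : (2 * ((‖b‖ ^ 2 : ℝ) : ℂ)).re = 2 * ‖b‖ ^ 2 := by
        rw [Complex.mul_re, Complex.ofReal_re, Complex.ofReal_im, mul_zero, sub_zero,
          Complex.re_ofNat]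
      rw [this]
      ring
  rw [hs0] at hmax
  have hfin : κ * (r ^ 2 * ‖b‖ ^ 2) + ∑ i, δ i ^ 2 ≤ M := by linarith
  exact hfin

end

end Pool.Agent.H69N.LA
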