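import Mathlib
import Pool.Agent.H69N.LA.Mv
import Pool.Agent.H69N.LA.Cov

set_option autoImplicit false

open Complex Topology Filter Metric MeasureTheory Set

namespace Pool.Agent.H69N.LA

open Pool.Agent.H713R2 Pool.Agent.H713R2.AR
open Pool.Agent.H713R3.ZA.GAIN (gg gg_of_ne isExt UU_eq)

section
variable {ι : Type} [Fintype ι] [DecidableEq ι] {Ω : Set ℂ} {R₀ R C ρ : ℝ} {a : ι → ℂ}
  {δ : ι → ℝ} {H : ℂ → ℂ → ℂ}

/-- optimising over the weights -/
theorem MV.ineq2 (hm : MV ρ Ω H R₀ C) (hD : DK Ω R₀ R a δ) {r : ℝ} (hr : 0 < r) (hrρ : r < ρ)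
    (k : ℕ) {y : ℝ} (hy : 0 < y)
    (hys : R ^ (2 * k + 2) / ((k : ℝ) + 1) - ∑ i, ‖a i‖ ^ (2 * k) * δ i ^ 2 ≤ y) :
    r ^ 2 * ‖deriv (fun t => tc (gg (H t)) (k + 2)) 0‖ ^ 2 ≤ y * (R ^ 2 - ∑ i, δ i ^ 2) := by
  have hR₀ : 0 < R₀ := by have := hm.R₀1; linarith
  have hR : 0 < R := hR₀.trans hD.R₀R
  set b : ℂ := deriv (fun t => tc (gg (H t)) (k + 2)) 0 with hb
  set s : ℝ := ∑ i, ‖a i‖ ^ (2 * k) * δ i ^ 2 with hs
  have hs0 : 0 ≤ s := Finset.sum_nonneg fun i _ => by positivity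
  have h := hm.ineq hD hr hrρ (fun i => ((δ i ^ 2 / y : ℝ) : ℂ) * b * (starRingEnd ℂ) (a i ^ k)) k
  rw [← hb] at h
  set S : ℝ := R ^ (2 * k + 2) / ((k : ℝ) + 1) with hS
  have hk : (0 : ℝ) < (k : ℝ) + 1 := by positivity
  have hS0 : 0 < S := by positivity
  have hκ : ((k : ℝ) + 1) * (R⁻¹) ^ (2 * (k + 2)) * R ^ 2 = S⁻¹ := by
    rw [hS, inv_div, inv_pow, show 2 * (k + 2) = (2 * k + 2) + 2 by ring, pow_add]
    field_simp
  have h1 : b + ∑ j, ((δ j ^ 2 / y : ℝ) : ℂ) * b * (starRingEnd ℂ) (a j ^ k) * a j ^ k =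
      ((1 + s / y : ℝ) : ℂ) * b := by
    have e : ∀ j, ((δ j ^ 2 / y : ℝ) : ℂ) * b * (starRingEnd ℂ) (a j ^ k) * a j ^ k =
        ((‖a j‖ ^ (2 * k) * δ j ^ 2 : ℝ) : ℂ) * (((y⁻¹ : ℝ) : ℂ) * b) := by
      intro j
      have e1 : (starRingEnd ℂ) (a j ^ k) * a j ^ k = ((‖a j‖ ^ (2 * k) : ℝ) : ℂ) := by
        rw [← Complex.normSq_eq_conj_mul_self, Complex.normSq_eq_norm_sq, norm_pow, ← pow_mul,
          mul_comm k 2]
      rw [mul_assoc _ _ (a j ^ k), e1]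
      push_cast
      rw [div_eq_mul_inv]
      ring
    simp only [e]
    rw [← Finset.sum_mul, ← Complex.ofReal_sum, ← hs]
    push_cast
    rw [div_eq_mul_inv]
    ring
  have h2 : ∑ i, ‖((δ i ^ 2 / y : ℝ) : ℂ) * b * (starRingEnd ℂ) (a i ^ k)‖ ^ 2 / δ i ^ 2 =
      s * (‖b‖ ^ 2 / y ^ 2) := by
    rw [hs, Finset.sum_mul]
    apply Finset.sum_congr rfl
    intro i _
    have hδ := hD.δ0 i
    rw [norm_mul, norm_mul, Complex.norm_real, Real.norm_of_nonneg (by positivity), RCLike.norm_conj,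
      norm_pow, mul_pow, mul_pow, ← pow_mul, mul_comm k 2]
    field_simp
  rw [h1, h2, hκ, norm_mul, Complex.norm_real, Real.norm_of_nonneg (by positivity)] at h
  have h3 : S⁻¹ * (1 + s / y) ^ 2 - s / y ^ 2 ≥ 1 / y := by
    have e : S⁻¹ * (1 + s / y) ^ 2 - s / y ^ 2 - 1 / y = (y + s) * (y + s - S) / (S * y ^ 2) := by
      field_simp
      ring
    have : 0 ≤ (y + s) * (y + s - S) / (S * y ^ 2) := by
      apply div_nonneg _ (by positivity)
      apply mul_nonneg (by positivity)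
      linarith
    linarith
  have h4 : r ^ 2 * ‖b‖ ^ 2 * (S⁻¹ * (1 + s / y) ^ 2 - s / y ^ 2) ≤ R ^ 2 - ∑ i, δ i ^ 2 := by
    calc r ^ 2 * ‖b‖ ^ 2 * (S⁻¹ * (1 + s / y) ^ 2 - s / y ^ 2) =
        S⁻¹ * (r ^ 2 * ((1 + s / y) * ‖b‖) ^ 2) - r ^ 2 * (s * (‖b‖ ^ 2 / y ^ 2)) := by
          field_simp
      _ ≤ _ := by linarith
  have h5 : r ^ 2 * ‖b‖ ^ 2 * (1 / y) ≤ R ^ 2 - ∑ i, δ i ^ 2 :=
    (mul_le_mul_of_nonneg_left h3 (by positivity)).trans h4
  rw [mul_one_div, div_le_iff₀ hy] at h5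
  linarith

end

variable {Ω : Set ℂ} {R₀ C ρ : ℝ} {H : ℂ → ℂ → ℂ}

/-- The main inequality: the derivative of a Laurent coefficient of a conformal holomorphic motion
is bounded by the area of the complement. -/
theorem MV.main (hm : MV ρ Ω H R₀ C) (k : ℕ) :
    (Real.pi * ρ * ‖deriv (fun t => tc (gg (H t)) (k + 2)) 0‖) ^ 2 ≤
      (volume Ωᶜ).toReal * ∫ z in Ωᶜ, ‖z‖ ^ (2 * k) := by
  have hpi := Real.pi_pos
  have hρ := hm.ρ0
  have hR₀ : 0 < R₀ := by have := hm.R₀1; linarith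
  set R : ℝ := R₀ + 1 with hR
  have hR0 : 0 < R := by positivity
  have hsub : Ωᶜ ⊆ closedBall 0 R₀ := by
    intro z hz
    rw [mem_closedBall_zero_iff]
    by_contra h
    exact hz (hm.far z (not_le.mp h))
  have hsub' : Ωᶜ ⊆ ball 0 R := hsub.trans (closedBall_subset_ball (by rw [hR]; linarith))
  have hfin : volume Ωᶜ < ⊤ := (measure_mono hsub).trans_lt measure_closedBall_lt_top
  have hcm : Continuous fun z : ℂ => ‖z‖ ^ (2 * k) := by fun_prop
  have hball : IntegrableOn (fun z : ℂ => ‖z‖ ^ (2 * k)) (ball 0 R) :=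
    (hcm.continuousOn.integrableOn_compact (isCompact_closedBall 0 R)).mono_set ball_subset_closedBall
  set U : Set ℂ := Ω ∩ ball 0 R with hU
  have hUo : IsOpen U := hm.Ωo.inter isOpen_ball
  have hUm : MeasurableSet U := hUo.measurableSet
  have hΩm : MeasurableSet Ωᶜ := hm.Ωo.measurableSet.compl
  have hUfin : volume U < ⊤ := (measure_mono inter_subset_right).trans_lt measure_ball_lt_top
  have hcov : U ∪ Ωᶜ = ball 0 R := by
    ext z
    constructor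
    · rintro (h | h)
      · exact h.2
      · exact hsub' h
    · intro h
      by_cases hz : z ∈ Ω
      · exact Or.inl ⟨hz, h⟩
      · exact Or.inr hz
  have hdj : Disjoint U Ωᶜ := by
    rw [Set.disjoint_left]
    intro z hz hz'
    exact hz' hz.1
  set Vc : ℝ := (volume Ωᶜ).toReal with hVc
  set I : ℝ := ∫ z in Ωᶜ, ‖z‖ ^ (2 * k) with hI
  have hI0 : 0 ≤ I := setIntegral_nonneg hΩm fun z _ => by positivity
  have hVc0 : 0 ≤ Vc := ENNReal.toReal_nonneg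
  have hvol : (volume U).toReal + Vc = Real.pi * R ^ 2 := by
    rw [← vol_ball 0 hR0.le, ← hcov, measure_union hdj hΩm, ENNReal.toReal_add hUfin.ne hfin.ne]
  have hint : (∫ z in U, ‖z‖ ^ (2 * k)) + I = Real.pi * R ^ (2 * k + 2) / (k + 1) := by
    rw [← integral_norm_pow hR0 k, ← hcov, setIntegral_union hdj hΩm (hball.mono_set inter_subset_right)
      (hball.mono_set hsub')]
  set B : ℝ := ‖deriv (fun t => tc (gg (H t)) (k + 2)) 0‖ with hB
  -- inequality with `r` and `η`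
  have key : ∀ r : ℝ, 0 < r → r < ρ → ∀ η : ℝ, 0 < η → (Real.pi * r * B) ^ 2 ≤ (Vc + η) * (I + η) := by
    intro r hr hrρ η hη
    obtain ⟨t, δ, hδ0, hδU, hdis, hA, hM⟩ := exists_discs hUo hUfin hcm
      (hball.mono_set inter_subset_right) hη
    have hD : DK (ι := ↥t) Ω R₀ R (fun x => (x : ℂ)) (fun x => δ x) :=
      { R₀R := by rw [hR]; linarith
        δ0 := fun i => hδ0 i i.2
        sub := fun i => (hδU i i.2).trans inter_subset_left
        subR := fun i => (hδU i i.2).trans inter_subset_right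
        dis := fun i j hij => hdis i i.2 j j.2 (fun h => hij (Subtype.ext h)) }
    have e1 : ∑ x ∈ t, Real.pi * δ x ^ 2 = Real.pi * ∑ i : ↥t, δ i ^ 2 := by
      rw [← Finset.sum_coe_sort t, Finset.mul_sum]
    have e2 : ∑ x ∈ t, ‖x‖ ^ (2 * k) * (Real.pi * δ x ^ 2) =
        Real.pi * ∑ i : ↥t, ‖(i : ℂ)‖ ^ (2 * k) * δ i ^ 2 := by
      rw [← Finset.sum_coe_sort t, Finset.mul_sum]
      exact Finset.sum_congr rfl fun i _ => by ring
    rw [e1] at hA
    rw [e2] at hM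
    have hy0 : 0 < (I + η) / Real.pi := by positivity
    have hy : R ^ (2 * k + 2) / ((k : ℝ) + 1) - ∑ i : ↥t, ‖(i : ℂ)‖ ^ (2 * k) * δ i ^ 2 ≤
        (I + η) / Real.pi := by
      rw [le_div_iff₀ hpi]
      have : Real.pi * R ^ (2 * k + 2) / (k + 1) = R ^ (2 * k + 2) / ((k : ℝ) + 1) * Real.pi := by ring
      linarith
    have h := hm.ineq2 hD hr hrρ k hy0 hy
    rw [← hB] at h
    have h2 : Real.pi * (R ^ 2 - ∑ i : ↥t, δ i ^ 2) ≤ Vc + η := by linarith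
    calc (Real.pi * r * B) ^ 2 = Real.pi ^ 2 * (r ^ 2 * B ^ 2) := by ring
      _ ≤ Real.pi ^ 2 * ((I + η) / Real.pi * (R ^ 2 - ∑ i : ↥t, δ i ^ 2)) :=
          mul_le_mul_of_nonneg_left h (by positivity)
      _ = (Real.pi * (R ^ 2 - ∑ i : ↥t, δ i ^ 2)) * (I + η) := by
          field_simp
      _ ≤ (Vc + η) * (I + η) := mul_le_mul_of_nonneg_right h2 (by positivity)
  have key2 : ∀ r : ℝ, 0 < r → r < ρ → (Real.pi * r * B) ^ 2 ≤ Vc * I := by
    intro r hr hrρ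
    have hc : Tendsto (fun η : ℝ => (Vc + η) * (I + η)) (𝓝[>] 0) (𝓝 ((Vc + 0) * (I + 0))) := by
      apply Tendsto.mono_left _ nhdsWithin_le_nhds
      exact (Continuous.tendsto (by fun_prop) 0)
    rw [add_zero, add_zero] at hc
    exact ge_of_tendsto hc (by filter_upwards [self_mem_nhdsWithin] with η hη using key r hr hrρ η hη)
  have hc : Tendsto (fun r : ℝ => (Real.pi * r * B) ^ 2) (𝓝[<] ρ) (𝓝 ((Real.pi * ρ * B) ^ 2)) := by
    apply Tendsto.mono_left _ nhdsWithin_le_nhds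
    exact (Continuous.tendsto (by fun_prop) ρ)
  apply le_of_tendsto hc
  have h1 : ∀ᶠ r : ℝ in 𝓝[<] ρ, 0 < r := nhdsWithin_le_nhds (lt_mem_nhds hρ)
  filter_upwards [h1, self_mem_nhdsWithin] with r hr hrρ using key2 r hr hrρ

end Pool.Agent.H69N.LA
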