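import Mathlib
import Pool.Agent.H69N.LA.Fm1
import Pool.Agent.H69N.LA.Main
import Pool.Agent.H713R5.QJ.TASYP

set_option autoImplicit false

open Topology Filter Metric Set Polynomial MeasureTheory

namespace Pool.Agent.H69N.LA

open Pool.Agent.H713R3.ZA (StROOT StINV StBSUM KJ QQ)
open Pool.Agent.H713R2
open Pool.Agent.H713R3.ZA.GAIN (gg gg_of_ne isExt UU_eq)

section
variable {a : ℂ} {n : ℕ} {ρ A : ℝ} {f : ℂ → ℂ[X]} {R C₁ R₁ R₃ : ℝ} {ψ φ : ℂ × ℂ → ℂ}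

/-- the conjugacy near infinity -/
noncomputable def farU (ψ φ : ℂ × ℂ → ℂ) (t : ℂ) : ℂ → ℂ := fun z => ψ (t, φ (0, z))

theorem BU.φ_norm (hb : BU a n ρ f R C₁ R₁ R₃ ψ φ) {x : ℂ} (hx : x ∈ ball (0 : ℂ) ρ) {z : ℂ}
    (hz : R₃ < ‖z‖) : R₁ < ‖φ (x, z)‖ := by
  have h1 := hb.φc x hx _ hz
  have h2 := norm_sub_norm_le z (φ (x, z))
  rw [norm_sub_rev] at h2
  have := hb.hR₃
  linarith

theorem BU.φ_fv (hb : BU a n ρ f R C₁ R₁ R₃ ψ φ) {x : ℂ} (hx : x ∈ ball (0 : ℂ) ρ) {z : ℂ}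
    (hz : R₃ < ‖z‖) (hz' : R₃ < ‖fv f x z‖) : φ (x, fv f x z) = QQ a n (φ (x, z)) := by
  have h1 := hb.φ_norm hx hz
  have h2 := hb.φ_norm hx hz'
  apply hb.ψi x hx h2
  · show R₁ < ‖QQ a n (φ (x, z))‖
    exact hb.QQ_iter h1 1
  · show ψ (x, φ (x, fv f x z)) = ψ (x, QQ a n (φ (x, z)))
    rw [hb.ψφ x hx _ hz']
    have h3 := hb.fe x hx _ h1
    rw [hb.ψφ x hx _ hz] at h3
    exact h3

theorem BU.large_of_large (hb : BU a n ρ f R C₁ R₁ R₃ ψ φ) {x : ℂ} (hx : x ∈ ball (0 : ℂ) ρ)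
    {z : ℂ} (hz : R₃ < ‖z‖) (k : ℕ) : R₃ < ‖(fv f x)^[k] z‖ := by
  have h1 := hb.hR; have h2 := hb.hC; have h3 := hb.hR₁; have h4 := hb.hR₃
  exact hz.trans_le (hb.iter_large hx (by linarith) k)

theorem BU.φ_iter (hb : BU a n ρ f R C₁ R₁ R₃ ψ φ) {x : ℂ} (hx : x ∈ ball (0 : ℂ) ρ) {z : ℂ}
    (hz : R₃ < ‖z‖) (N : ℕ) : φ (x, (fv f x)^[N] z) = (QQ a n)^[N] (φ (x, z)) := by
  induction N with
  | zero => rfl
  | succ N ih =>
    rw [Function.iterate_succ_apply', Function.iterate_succ_apply', ← ih]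
    have h1 := hb.large_of_large hx hz N
    apply hb.φ_fv hx h1
    have := hb.large_of_large hx hz (N + 1)
    rwa [Function.iterate_succ_apply'] at this

theorem far_root (hf : FA a n ρ A f) (hb : BU a n ρ f R C₁ R₁ R₃ ψ φ) {t : ℂ}
    (ht : t ∈ ball (0 : ℂ) ρ) {z : ℂ} (hz : R₃ < ‖z‖) (N : ℕ) :
    (fv f t)^[N] (farU ψ φ t z) = ψ (t, PU f φ N z) := by
  have h0 := mem_ball_self (x := (0 : ℂ)) hf.ρ0
  unfold farU PU
  rw [hb.fe_iter ht (hb.φ_norm h0 hz), hb.φ_iter h0 hz]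

theorem farU_zero (hf : FA a n ρ A f) (hb : BU a n ρ f R C₁ R₁ R₃ ψ φ) {z : ℂ} (hz : R₃ < ‖z‖) :
    farU ψ φ 0 z = z := hb.ψφ 0 (mem_ball_self hf.ρ0) z hz

theorem farU_sub (hf : FA a n ρ A f) (hb : BU a n ρ f R C₁ R₁ R₃ ψ φ) {t : ℂ}
    (ht : t ∈ ball (0 : ℂ) ρ) {z : ℂ} (hz : R₃ < ‖z‖) : ‖farU ψ φ t z - z‖ ≤ 2 * C₁ := by
  have h0 := mem_ball_self (x := (0 : ℂ)) hf.ρ0
  have e1 := hb.ψc t ht _ (hb.φ_norm h0 hz)
  have e2 := hb.φc 0 h0 z hz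
  calc ‖farU ψ φ t z - z‖ ≤ ‖ψ (t, φ (0, z)) - φ (0, z)‖ + ‖φ (0, z) - z‖ := by
        have : farU ψ φ t z - z = (ψ (t, φ (0, z)) - φ (0, z)) + (φ (0, z) - z) := by
          unfold farU; ring
        rw [this]; exact norm_add_le _ _
    _ ≤ 2 * C₁ := by linarith

theorem farU_diff (hf : FA a n ρ A f) (hb : BU a n ρ f R C₁ R₁ R₃ ψ φ) :
    DifferentiableOn ℂ (fun p : ℂ × ℂ => farU ψ φ p.1 p.2)
      (ball (0 : ℂ) ρ ×ˢ {z : ℂ | R₃ < ‖z‖}) := by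
  have h0 := mem_ball_self (x := (0 : ℂ)) hf.ρ0
  apply hb.ψ_comp_diff differentiable_fst.differentiableOn ?_ (fun s hs => hs.1)
    (fun s hs => hb.φ_norm h0 hs.2)
  exact hb.φd.comp (f := fun p : ℂ × ℂ => ((0, p.2) : ℂ × ℂ)) (by fun_prop)
    (fun p hp => ⟨h0, hp.2⟩)

theorem farU_conj (hf : FA a n ρ A f) (hb : BU a n ρ f R C₁ R₁ R₃ ψ φ) {t : ℂ}
    (ht : t ∈ ball (0 : ℂ) ρ) {z : ℂ} (hz : R₃ < ‖z‖) :
    fv f t (farU ψ φ t z) = farU ψ φ t (fv f 0 z) := by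
  have h0 := mem_ball_self (x := (0 : ℂ)) hf.ρ0
  unfold farU
  rw [hb.fe t ht _ (hb.φ_norm h0 hz), hb.φ_fv h0 hz (hb.large_of_large h0 hz 1)]
  rfl

/-- The motion. -/
theorem exists_mv (hROOT : StROOT) (hf : FA a n ρ A f) (hb : BU a n ρ f R C₁ R₁ R₃ ψ φ) (N : ℕ) :
    ∃ Φ : ℂ → ℂ → ℂ, MV ρ (WU f R₃ N) Φ R₃ (2 * C₁) ∧
      ∀ t ∈ ball (0 : ℂ) ρ, ∀ z : ℂ, R₃ < ‖z‖ → Φ t z = farU ψ φ t z := by
  have h0 := mem_ball_self (x := (0 : ℂ)) hf.ρ0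
  obtain ⟨Φ, hΦd, hΦ0, hΦr, hΦu⟩ := exists_mot hROOT hf hb N
  have hlarge : ∀ z : ℂ, R₃ < ‖z‖ → z ∈ WU f R₃ N := fun z hz => hb.large_of_large h0 hz N
  have hPeq : ∀ t ∈ ball (0 : ℂ) ρ, ∀ z z' : ℂ, z ∈ WU f R₃ N → z' ∈ WU f R₃ N →
      ψ (t, PU f φ N z) = ψ (t, PU f φ N z') → PU f φ N z = PU f φ N z' :=
    fun t ht z z' h1 h2 h3 => hb.ψi _ ht (PU_norm hf hb h1) (PU_norm hf hb h2) h3
  have hcont : ∀ z ∈ WU f R₃ N, ContinuousOn (fun s => Φ s z) (ball (0 : ℂ) ρ) := fun z hz =>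
    hΦd.continuousOn.comp (f := fun s : ℂ => ((s, z) : ℂ × ℂ)) (by fun_prop) (fun s hs => ⟨hs, hz⟩)
  have hinj : ∀ t ∈ ball (0 : ℂ) ρ, InjOn (Φ t) (WU f R₃ N) := by
    intro t ht z hz z' hz' h
    have e1 : PU f φ N z = PU f φ N z' := by
      apply hPeq t ht z z' hz hz'
      rw [← hΦr t ht z hz, ← hΦr t ht z' hz', h]
    have e2 := hΦu z hz (fun s => Φ s z') (hcont z' hz') ⟨t, ht, h.symm⟩
      (fun s hs => by rw [hΦr s hs z' hz', e1]) 0 h0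
    simp only [hΦ0 z hz, hΦ0 z' hz'] at e2
    exact e2.symm
  have hfar : ∀ t ∈ ball (0 : ℂ) ρ, ∀ z : ℂ, R₃ < ‖z‖ → Φ t z = farU ψ φ t z := by
    intro t ht z hz
    have hfc : ContinuousOn (fun s => farU ψ φ s z) (ball (0 : ℂ) ρ) :=
      (farU_diff hf hb).continuousOn.comp (f := fun s : ℂ => ((s, z) : ℂ × ℂ)) (by fun_prop)
        (fun s hs => ⟨hs, hz⟩)
    exact (hΦu z (hlarge z hz) (fun s => farU ψ φ s z) hfc
      ⟨0, h0, by rw [farU_zero hf hb hz, hΦ0 z (hlarge z hz)]⟩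
      (fun s hs => far_root hf hb hs hz N) t ht).symm
  refine ⟨Φ, ⟨hf.ρ0, isOpen_WU f R₃ N, hΦd, hΦ0, hinj, ?_, hlarge, ?_⟩, hfar⟩
  · have := hb.hR; have := hb.hR₁; have := hb.hR₃; have := hb.hC
    linarith
  · intro t ht z hz
    rw [hfar t ht z hz]
    exact farU_sub hf hb ht hz

/-- The area bound, with the area of the filled Julia set. -/
theorem exists_level (hf : FA a n ρ A f) (hb : BU a n ρ f R C₁ R₁ R₃ ψ φ) (m : ℂ → ℝ)
    (hm : Continuous m) :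
    Tendsto (fun N : ℕ => (volume (WU f R₃ N)ᶜ).toReal) atTop (𝓝 (volume (KJ (f 0))).toReal) ∧
    Tendsto (fun N : ℕ => ∫ z in (WU f R₃ N)ᶜ, m z) atTop (𝓝 (∫ z in KJ (f 0), m z)) := by
  have h0 := mem_ball_self (x := (0 : ℂ)) hf.ρ0
  have h1 := hb.hR; have h2 := hb.hC; have h3 := hb.hR₁; have h4 := hb.hR₃
  set L : ℕ → Set ℂ := fun N => (WU f R₃ N)ᶜ with hL
  have hmeas : ∀ N, MeasurableSet (L N) := fun N => (isOpen_WU f R₃ N).measurableSet.compl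
  have hmem : ∀ N z, z ∈ L N ↔ ‖(fv f 0)^[N] z‖ ≤ R₃ := by
    intro N z
    simp only [hL, WU, mem_compl_iff, mem_ofPred, not_lt]
  have hanti : Antitone L := by
    apply antitone_nat_of_succ_le
    intro N z hz
    rw [hmem] at hz ⊢
    by_contra hcon
    have e1 : R₃ < ‖(fv f 0)^[N] z‖ := not_le.mp hcon
    have e2 := hb.large_of_large h0 e1 1
    rw [Function.iterate_one, ← Function.iterate_succ_apply' (fv f 0)] at e2
    exact absurd hz (not_le.mpr e2)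
  have hL0 : L 0 = closedBall (0 : ℂ) R₃ := by
    ext z
    rw [hmem]
    simp
  have hfin : volume (L 0) ≠ ⊤ := by
    rw [hL0]
    exact measure_closedBall_lt_top.ne
  have hK : (⋂ N, L N) = KJ (f 0) := by
    ext z
    rw [mem_iInter]
    constructor
    · intro hz hcon
      obtain ⟨k, hk⟩ := (hcon.eventually (eventually_gt_atTop R₃)).exists
      exact absurd ((hmem k z).mp (hz k)) (not_le.mpr hk)
    · intro hz k
      rw [hmem]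
      have := hb.lt_of_mem_KJ h0 hz k
      linarith
  have hlim := tendsto_measure_iInter_atTop (μ := (volume : Measure ℂ))
    (fun N => (hmeas N).nullMeasurableSet) hanti ⟨0, hfin⟩
  rw [hK] at hlim
  have hsub : ∀ N, L N ⊆ closedBall (0 : ℂ) R₃ := fun N => by
    rw [← hL0]; exact hanti (Nat.zero_le N)
  refine ⟨?_, ?_⟩
  · exact (ENNReal.tendsto_toReal (ne_top_of_le_ne_top hfin
      (by rw [← hK]; exact measure_mono (iInter_subset _ 0)))).comp hlim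
  · have hint : IntegrableOn m (L 0) := by
      rw [hL0]
      exact hm.continuousOn.integrableOn_compact (isCompact_closedBall 0 R₃)
    have := tendsto_setIntegral_of_antitone hmeas hanti ⟨0, hint⟩
    rw [hK] at this
    exact this

/-- Bound of the derivatives of the Laurent coefficients of the conjugacy near infinity. -/
theorem coeff_bound (hROOT : StROOT) (hf : FA a n ρ A f) (hb : BU a n ρ f R C₁ R₁ R₃ ψ φ) (k : ℕ) :
    (Real.pi * ρ * ‖deriv (fun t => tc (gg (farU ψ φ t)) (k + 2)) 0‖) ^ 2 ≤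
      (volume (KJ (f 0))).toReal * ∫ z in KJ (f 0), ‖z‖ ^ (2 * k) := by
  obtain ⟨h1, h2⟩ := exists_level hf hb (fun z => ‖z‖ ^ (2 * k)) (by fun_prop)
  have h0 := mem_ball_self (x := (0 : ℂ)) hf.ρ0
  have hR3 : 1 ≤ R₃ := by
    have := hb.hR; have := hb.hR₁; have := hb.hR₃; have := hb.hC
    linarith
  refine ge_of_tendsto (h1.mul h2) (Eventually.of_forall fun N => ?_)
  obtain ⟨Φ, hm, hfar⟩ := exists_mv hROOT hf hb N
  have h3 := hm.main k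
  have h4 : (fun t => tc (gg (Φ t)) (k + 2)) =ᶠ[𝓝 0] fun t => tc (gg (farU ψ φ t)) (k + 2) := by
    filter_upwards [isOpen_ball.mem_nhds h0] with t ht
    have h5 : gg (Φ t) =ᶠ[𝓝 0] gg (farU ψ φ t) := by
      have h6 : ball (0 : ℂ) R₃⁻¹ ∈ 𝓝 (0 : ℂ) := ball_mem_nhds 0 (by positivity)
      filter_upwards [h6] with x hx
      by_cases hx0 : x = 0
      · rw [hx0]
        simp [gg]
      · rw [gg_of_ne hx0, gg_of_ne hx0, hfar t ht]
        rw [norm_inv]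
        exact (lt_inv_comm₀ (norm_pos_iff.2 hx0) (by linarith)).1 (mem_ball_zero_iff.mp hx)
    exact tc_congr h5 _
  rw [h4.deriv_eq] at h3
  exact h3

end

end Pool.Agent.H69N.LA
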