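import Mathlib
import Pool.Agent.H69N.LA.TcP

set_option autoImplicit false

open Complex Topology Filter Metric MeasureTheory Set

namespace Pool.Agent.H69N.LA

open Pool.Agent.H713R2

/-- The derivative of a Taylor coefficient with respect to a parameter. -/
theorem tc_param_deriv {ρ s R' : ℝ} (hs : 0 < s) {W : Set ℂ} (hW : IsOpen W)
    (hsW : sphere (0 : ℂ) s ⊆ W) {Q : ℂ → ℂ → ℂ}
    (hQ : DifferentiableOn ℂ (fun p : ℂ × ℂ => Q p.1 p.2) (ball (0 : ℂ) ρ ×ˢ W))
    (hQt : ∀ t ∈ ball (0 : ℂ) ρ, ∃ R' : ℝ, s < R' ∧ DifferentiableOn ℂ (Q t) (ball 0 R'))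
    {t₀ : ℂ} (ht₀ : t₀ ∈ ball (0 : ℂ) ρ) (hsR : s < R')
    (hD : DifferentiableOn ℂ (fun z => deriv (fun t => Q t z) t₀) (ball 0 R')) (n : ℕ) :
    deriv (fun t => tc (Q t) n) t₀ = tc (fun z => deriv (fun t => Q t z) t₀) n := by
  have hpi : (2 * Real.pi * I : ℂ) ≠ 0 := by
    simp [Real.pi_ne_zero]
  have hSo : IsOpen (ball (0 : ℂ) ρ ×ˢ W) := isOpen_ball.prod hW
  set Ψ : ℂ × ℂ → ℂ := fun p => Q p.1 p.2 with hΨ
  have hdd : DifferentiableOn ℂ (fun p => fderiv ℂ Ψ p (1, 0)) (ball (0 : ℂ) ρ ×ˢ W) :=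
    Pool.Agent.Helper540.differentiableOn_fderiv_apply hSo hQ (1, 0)
  obtain ⟨ε, hε, hεs⟩ : ∃ ε : ℝ, 0 < ε ∧ closedBall t₀ ε ⊆ ball (0 : ℂ) ρ := by
    obtain ⟨ε, hε, h⟩ := Metric.isOpen_iff.mp isOpen_ball t₀ ht₀
    exact ⟨ε / 2, by positivity, (closedBall_subset_ball (by linarith)).trans h⟩
  have hcomp : IsCompact (closedBall t₀ ε ×ˢ sphere (0 : ℂ) s) :=
    (isCompact_closedBall t₀ ε).prod (isCompact_sphere 0 s)
  obtain ⟨M, hM⟩ := hcomp.exists_bound_of_continuousOn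
    (hdd.continuousOn.mono (prod_mono hεs hsW))
  have hcm : ∀ θ : ℝ, circleMap 0 s θ ∈ sphere (0 : ℂ) s := fun θ => circleMap_mem_sphere 0 hs.le θ
  have hcm0 : ∀ θ : ℝ, circleMap (0 : ℂ) s θ ≠ 0 := fun θ => circleMap_ne_center hs.ne'
  set F : ℂ → ℝ → ℂ := fun t θ =>
    deriv (circleMap 0 s) θ • (Q t (circleMap 0 s θ) / circleMap 0 s θ ^ (n + 1)) with hF
  set F' : ℂ → ℝ → ℂ := fun t θ =>
    deriv (circleMap 0 s) θ • (fderiv ℂ Ψ (t, circleMap 0 s θ) (1, 0) /
      circleMap 0 s θ ^ (n + 1)) with hF'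
  have hF'c : Continuous fun θ : ℝ => circleMap (0 : ℂ) s θ := continuous_circleMap 0 s
  have hderc : Continuous fun θ : ℝ => deriv (circleMap (0 : ℂ) s) θ := by
    have : (fun θ : ℝ => deriv (circleMap (0 : ℂ) s) θ) = fun θ => circleMap 0 s θ * I := by
      funext θ; rw [deriv_circleMap]
    rw [this]
    exact hF'c.mul continuous_const
  have hcont : ∀ t ∈ ball (0 : ℂ) ρ, Continuous (F t) := by
    intro t ht
    apply hderc.smul
    apply Continuous.div
    · have h1 : Continuous fun θ : ℝ => Ψ (t, circleMap 0 s θ) :=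
        hQ.continuousOn.comp_continuous (by fun_prop) (fun θ => ⟨ht, hsW (hcm θ)⟩)
      exact h1
    · exact hF'c.pow _
    · exact fun θ => pow_ne_zero _ (hcm0 θ)
  have hcont' : ∀ t ∈ ball (0 : ℂ) ρ, Continuous (F' t) := by
    intro t ht
    apply hderc.smul
    apply Continuous.div
    · exact hdd.continuousOn.comp_continuous (by fun_prop) (fun θ => ⟨ht, hsW (hcm θ)⟩)
    · exact hF'c.pow _
    · exact fun θ => pow_ne_zero _ (hcm0 θ)
  have hder : ∀ t ∈ ball (0 : ℂ) ρ, ∀ z ∈ W, HasDerivAt (fun t => Q t z) (fderiv ℂ Ψ (t, z) (1, 0)) t := by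
    intro t ht z hz
    have h2 := (hQ.differentiableAt (hSo.mem_nhds (show (t, z) ∈ ball (0 : ℂ) ρ ×ˢ W from
      ⟨ht, hz⟩))).hasFDerivAt
    have h3 : HasDerivAt (fun t : ℂ => ((t, z) : ℂ × ℂ)) ((1, 0) : ℂ × ℂ) t :=
      (hasDerivAt_id t).prodMk (hasDerivAt_const t _)
    exact HasFDerivAt.comp_hasDerivAt (f := fun t : ℂ => ((t, z) : ℂ × ℂ)) t h2 h3
  have key := intervalIntegral.hasDerivAt_integral_of_dominated_loc_of_deriv_le
    (μ := volume) (a := 0) (b := 2 * Real.pi) (F := F) (F' := F') (x₀ := t₀) (s := ball t₀ ε)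
    (bound := fun _ => s * (M / s ^ (n + 1)))
    (ball_mem_nhds t₀ hε) ?_ ?_ ?_ ?_ ?_ ?_
  · have h1 : (fun t => tc (Q t) n) =ᶠ[𝓝 t₀] fun t =>
        (2 * Real.pi * I)⁻¹ * ∫ θ in (0 : ℝ)..(2 * Real.pi), F t θ := by
      filter_upwards [isOpen_ball.mem_nhds ht₀] with t ht
      obtain ⟨R', hR', hd⟩ := hQt t ht
      have h2 := circleIntegral_tc hs hR' hd n
      rw [circleIntegral] at h2
      simp only [hF]
      rw [h2, ← mul_assoc, inv_mul_cancel₀ hpi, one_mul]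
    rw [h1.deriv_eq, (key.2.const_mul ((2 * Real.pi * I : ℂ)⁻¹)).deriv]
    have h3 := circleIntegral_tc hs hsR hD n
    rw [circleIntegral] at h3
    have h4 : ∫ θ in (0 : ℝ)..(2 * Real.pi), F' t₀ θ = 2 * Real.pi * I *
        tc (fun z => deriv (fun t => Q t z) t₀) n := by
      rw [← h3]
      apply intervalIntegral.integral_congr
      intro θ _
      simp only [hF']
      rw [(hder t₀ ht₀ _ (hsW (hcm θ))).deriv]
    rw [h4, ← mul_assoc, inv_mul_cancel₀ hpi, one_mul]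
  · filter_upwards [isOpen_ball.mem_nhds ht₀] with t ht
    exact (hcont t ht).aestronglyMeasurable
  · exact (hcont t₀ ht₀).intervalIntegrable _ _
  · exact (hcont' t₀ ht₀).aestronglyMeasurable
  · refine Filter.Eventually.of_forall fun θ _ t ht => ?_
    have h1 := hM (t, circleMap 0 s θ) ⟨ball_subset_closedBall ht, hcm θ⟩
    simp only [hF']
    rw [norm_smul, norm_div, norm_pow, deriv_circleMap, norm_mul, Complex.norm_I, mul_one,
      norm_circleMap_zero, abs_of_pos hs]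
    gcongr
  · exact intervalIntegrable_const
  · refine Filter.Eventually.of_forall fun θ _ t ht => ?_
    have h4 := hder t (hεs (ball_subset_closedBall ht)) _ (hsW (hcm θ))
    exact (h4.div_const (circleMap 0 s θ ^ (n + 1))).const_smul (deriv (circleMap 0 s) θ)

/-- vanishing of the Taylor coefficients -/
theorem tc_eq_zero {F : ℂ → ℂ} {r C : ℝ} (hr : 0 < r) (hF : DifferentiableOn ℂ F (ball 0 r)) {m i : ℕ}
    (him : i < m) (hC : ∀ᶠ x in 𝓝[≠] (0 : ℂ), ‖F x‖ ≤ C * ‖x‖ ^ m) : tc F i = 0 := by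
  have hpi : (2 * Real.pi * I : ℂ) ≠ 0 := by
    simp [Real.pi_ne_zero]
  rw [eventually_nhdsWithin_iff, Metric.eventually_nhds_iff] at hC
  obtain ⟨ε, hε, hC⟩ := hC
  have hb : ∀ s : ℝ, 0 < s → s < min r ε → ‖tc F i‖ ≤ |C| * s ^ (m - i) := by
    intro s hs hs2
    have hsr : s < r := hs2.trans_le (min_le_left _ _)
    have hsε : s < ε := hs2.trans_le (min_le_right _ _)
    have h1 := circleIntegral_tc hs hsr hF i
    have h2 : ‖∮ z in C(0, s), F z / z ^ (i + 1)‖ ≤ 2 * Real.pi * s * (|C| * s ^ m / s ^ (i + 1)) := by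
      apply circleIntegral.norm_integral_le_of_norm_le_const hs.le
      intro z hz
      have hzs : ‖z‖ = s := mem_sphere_zero_iff_norm.mp hz
      have hz0 : z ≠ 0 := by
        rintro rfl
        rw [norm_zero] at hzs
        linarith
      have h3 := hC (y := z) (by rw [dist_zero_right, hzs]; exact hsε) hz0
      rw [norm_div, norm_pow, hzs]
      rw [hzs] at h3
      have h4 : C * s ^ m ≤ |C| * s ^ m := mul_le_mul_of_nonneg_right (le_abs_self C) (by positivity)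
      gcongr
      linarith
    rw [h1, norm_mul] at h2
    have h5 : ‖(2 * Real.pi * I : ℂ)‖ = 2 * Real.pi := by
      simp [abs_of_pos Real.pi_pos]
    rw [h5] at h2
    have h6 : 2 * Real.pi * s * (|C| * s ^ m / s ^ (i + 1)) = 2 * Real.pi * (|C| * s ^ (m - i)) := by
      have : s ^ m = s ^ (m - i) * s ^ i := by rw [← pow_add]; congr 1; omega
      rw [this, pow_succ]
      field_simp
    rw [h6] at h2
    exact le_of_mul_le_mul_left h2 (by positivity)
  have hlim : Tendsto (fun s : ℝ => |C| * s ^ (m - i)) (𝓝[>] 0) (𝓝 (|C| * 0 ^ (m - i))) := by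
    apply Tendsto.mono_left _ nhdsWithin_le_nhds
    exact (Continuous.tendsto (by fun_prop) 0)
  rw [zero_pow (by omega), mul_zero] at hlim
  have h7 : ‖tc F i‖ ≤ 0 := by
    apply ge_of_tendsto hlim
    have : Ioo (0 : ℝ) (min r ε) ∈ 𝓝[>] (0 : ℝ) := Ioo_mem_nhdsGT (lt_min hr hε)
    filter_upwards [this] with s hs using hb s hs.1 hs.2
  exact norm_le_zero_iff.mp h7

end Pool.Agent.H69N.LA
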