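import Mathlib
import Pool.Agent.H69N.LA.Fm2
import Pool.Agent.H69N.LA.TcD

set_option autoImplicit false

open Topology Filter Metric Set Polynomial MeasureTheory

namespace Pool.Agent.H69N.LA

open Pool.Agent.H713R3.ZA (StROOT StINV StBSUM KJ QQ)
open Pool.Agent.H713R2
open Pool.Agent.H713R2.AR
open Pool.Agent.H713R3.ZA.GAIN (gg gg_of_ne isExt UU_eq)

section
variable {a : ℂ} {n : ℕ} {ρ A : ℝ} {f : ℂ → ℂ[X]} {R C₁ R₁ R₃ : ℝ} {ψ φ : ℂ × ℂ → ℂ}

open Pool.Agent.H713R5.QJ.ASYPaux in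
/-- The conjugacy is tangent to the identity at infinity (adapted from
`Pool.Agent.H713R5.QJ.TASYP`). -/
theorem farU_asyp (hf : FA a n ρ A f) (hb : BU a n ρ f R C₁ R₁ R₃ ψ φ) {y : ℂ}
    (hy : y ∈ ball (0 : ℂ) ρ) :
    Tendsto (fun z : ℂ => farU ψ φ y z - z) (Bornology.cobounded ℂ) (𝓝 0) := by
  have ha := hf.a0
  have hn := hf.n1
  have h0 := mem_ball_self (x := (0 : ℂ)) hf.ρ0
  have hc := hf.sec y hy
  set Φ : ℂ → ℂ := fun z => farU ψ φ y z with hΦ
  set δ : ℂ → ℂ := fun z => Φ z - z with hδ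
  have hR1 := hb.hR
  have hC := hb.hC
  have hR₁ := hb.hR₁
  have hR₃ := hb.hR₃
  have hδb : ∀ z : ℂ, R₃ < ‖z‖ → ‖δ z‖ ≤ 2 * C₁ := fun z hz => farU_sub hf hb hy hz
  have hFn : ∀ z : ℂ, R₃ < ‖z‖ → R₃ < ‖fv f 0 z‖ := fun z hz => hb.large_of_large h0 hz 1
  have hfe : ∀ z : ℂ, R₃ < ‖z‖ → fv f y (Φ z) = Φ (fv f 0 z) := fun z hz => farU_conj hf hb hy hz
  have hev : ∀ᶠ z in Bornology.cobounded ℂ, R₃ < ‖z‖ :=
    (tendsto_norm_cobounded_atTop (E := ℂ)).eventually (eventually_gt_atTop R₃)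
  have hδO : (fun z => δ z) =O[Bornology.cobounded ℂ] (fun _ => (1 : ℂ)) := by
    refine Asymptotics.IsBigO.of_bound (2 * C₁) ?_
    filter_upwards [hev] with z hz
    rw [norm_one, mul_one]
    exact hδb z hz
  have hδFO : (fun z => δ (fv f 0 z)) =O[Bornology.cobounded ℂ] (fun _ => (1 : ℂ)) := by
    refine Asymptotics.IsBigO.of_bound (2 * C₁) ?_
    filter_upwards [hev] with z hz
    rw [norm_one, mul_one]
    exact hδb _ (hFn z hz)
  have hsmall : ∀ f : ℂ → ℂ, f =O[Bornology.cobounded ℂ] (fun _ => (1 : ℂ)) → ∀ m : ℕ, 1 ≤ m →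
      Tendsto (fun z : ℂ => f z * (z⁻¹) ^ m) (Bornology.cobounded ℂ) (𝓝 0) := by
    intro f hf m hm
    have h1 : (fun z : ℂ => (z⁻¹) ^ m) =o[Bornology.cobounded ℂ] (fun _ => (1 : ℂ)) := by
      rw [Asymptotics.isLittleO_one_iff]
      have := (ti0).pow m
      rwa [zero_pow (by omega)] at this
    have h2 := hf.mul_isLittleO h1
    simp only [mul_one] at h2
    rwa [Asymptotics.isLittleO_one_iff] at h2
  set v : ℂ → ℂ := fun z => 1 + δ z * z⁻¹ with hv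
  have hv1 : Tendsto v (Bornology.cobounded ℂ) (𝓝 1) := by
    have h1 := hsmall δ hδO 1 le_rfl
    simp only [pow_one] at h1
    have h2 := h1.const_add (1 : ℂ)
    rwa [add_zero] at h2
  set c := (f 0).coeff n with hcx
  set S : ℂ → ℂ := fun z => a * ∑ i ∈ Finset.range (n + 1), v z ^ i with hS
  set T : ℂ → ℂ := fun z => δ (fv f 0 z) * (z⁻¹) ^ n - c * (v z ^ n - 1) -
    (∑ i ∈ Finset.range n, (f y).coeff i * v z ^ i * (z⁻¹) ^ (n - i)) +
    ∑ i ∈ Finset.range n, (f 0).coeff i * 1 ^ i * (z⁻¹) ^ (n - i) with hT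
  have hSt : Tendsto S (Bornology.cobounded ℂ) (𝓝 (a * ((n : ℂ) + 1))) := by
    have h1 : Tendsto (fun z => a * ∑ i ∈ Finset.range (n + 1), v z ^ i) (Bornology.cobounded ℂ)
        (𝓝 (a * ∑ i ∈ Finset.range (n + 1), (1 : ℂ) ^ i)) :=
      tendsto_const_nhds.mul (tendsto_finsetSum _ fun i _ => hv1.pow i)
    have e : ∑ i ∈ Finset.range (n + 1), (1 : ℂ) ^ i = (n : ℂ) + 1 := by
      simp
    rwa [e] at h1
  have hTt : Tendsto T (Bornology.cobounded ℂ) (𝓝 0) := by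
    have h1 := hsmall _ hδFO n hn
    have h2 : Tendsto (fun z => c * (v z ^ n - 1)) (Bornology.cobounded ℂ)
        (𝓝 (c * ((1 : ℂ) ^ n - 1))) :=
      tendsto_const_nhds.mul ((hv1.pow n).sub tendsto_const_nhds)
    have h3 := low_tendsto (f y) n v hv1
    have h4 := low_tendsto (f 0) n (fun _ => 1) tendsto_const_nhds
    have h5 := ((h1.sub h2).sub h3).add h4
    have e : (0 : ℂ) - c * ((1 : ℂ) ^ n - 1) - 0 + 0 = 0 := by simp
    rwa [e] at h5
  have key : ∀ᶠ z in Bornology.cobounded ℂ, δ z * S z = T z := by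
    filter_upwards [hev] with z hz
    have hz0 : z ≠ 0 := by
      rintro rfl
      rw [norm_zero] at hz
      linarith
    have hΦv : Φ z = z * v z := by
      simp only [hv, hδ]
      field_simp
      ring
    have h1 := hfe z hz
    have h2 : fv f y (Φ z) = fv f 0 z + δ (fv f 0 z) := by
      rw [h1]
      simp only [hδ]
      ring
    have e1 : fv f y (Φ z) = a * (z * v z) ^ (n + 1) + c * (z * v z) ^ n +
        ∑ i ∈ Finset.range n, (f y).coeff i * (z * v z) ^ i := by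
      rw [hΦv]
      show (f y).eval (z * v z) = _
      rw [eval_expand _ n (hf.deg y hy), hf.lead y hy, hc]
    have e2 : fv f 0 z = a * z ^ (n + 1) + c * z ^ n +
        ∑ i ∈ Finset.range n, (f 0).coeff i * z ^ i := by
      show (f 0).eval z = _
      rw [eval_expand _ n (hf.deg 0 h0), hf.lead 0 h0]
    have hzn : z ^ n ≠ 0 := pow_ne_zero n hz0
    have low : ∀ (p : ℂ[X]) (u : ℂ), ∑ i ∈ Finset.range n, p.coeff i * u ^ i * (z⁻¹) ^ (n - i) =
        (∑ i ∈ Finset.range n, p.coeff i * (z * u) ^ i) * (z⁻¹) ^ n := by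
      intro p u
      rw [Finset.sum_mul]
      refine Finset.sum_congr rfl fun i hi => ?_
      have hi' := Finset.mem_range.1 hi
      have e3 : (z⁻¹) ^ n = (z⁻¹) ^ (n - i) * (z⁻¹) ^ i := by
        rw [← pow_add]
        congr 1
        omega
      rw [e3, mul_pow, inv_pow z i]
      have : z ^ i ≠ 0 := pow_ne_zero i hz0
      field_simp
    have low1 := low (f y) (v z)
    have low2 := low (f 0) 1
    rw [mul_one] at low2
    simp only [hT, hS]
    rw [low1, low2]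
    have geo : (∑ i ∈ Finset.range (n + 1), v z ^ i) * (v z - 1) = v z ^ (n + 1) - 1 :=
      geom_sum_mul (v z) (n + 1)
    have hvd : δ z = z * (v z - 1) := by
      simp only [hv]
      field_simp
      ring
    have h3 : δ (fv f 0 z) = fv f y (Φ z) - fv f 0 z := by
      rw [h2]
      ring
    rw [h3, e1, e2]
    have hin : z ^ n * (z⁻¹) ^ n = 1 := by
      rw [← mul_pow, mul_inv_cancel₀ hz0, one_pow]
    have lhs : δ z * (a * ∑ i ∈ Finset.range (n + 1), v z ^ i) =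
        a * z * (v z ^ (n + 1) - 1) := by
      rw [← geo, hvd]
      ring
    rw [lhs]
    generalize (∑ i ∈ Finset.range n, (f y).coeff i * (z * v z) ^ i) = A1
    generalize (∑ i ∈ Finset.range n, (f 0).coeff i * z ^ i) = A2
    have r1 : (a * (z * v z) ^ (n + 1) + c * (z * v z) ^ n + A1 -
        (a * z ^ (n + 1) + c * z ^ n + A2)) * (z⁻¹) ^ n =
        (a * z * (v z ^ (n + 1) - 1) + c * (v z ^ n - 1)) * (z ^ n * (z⁻¹) ^ n) +
          A1 * (z⁻¹) ^ n - A2 * (z⁻¹) ^ n := by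
      rw [mul_pow, mul_pow]
      ring
    rw [r1, hin]
    ring
  have hS0 : a * ((n : ℂ) + 1) ≠ 0 := mul_ne_zero ha (by exact_mod_cast Nat.succ_ne_zero n)
  have hSne : ∀ᶠ z in Bornology.cobounded ℂ, S z ≠ 0 := hSt.eventually_ne hS0
  have hfin := hTt.div hSt hS0
  rw [zero_div] at hfin
  refine hfin.congr' ?_
  filter_upwards [key, hSne] with z h1 h2
  show T z / S z = δ z
  rw [← h1, mul_div_assoc, div_self h2, mul_one]

theorem R3_one (hb : BU a n ρ f R C₁ R₁ R₃ ψ φ) : 1 ≤ R₃ := by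
  have := hb.hR; have := hb.hR₁; have := hb.hR₃; have := hb.hC
  linarith

theorem farU_ext (hf : FA a n ρ A f) (hb : BU a n ρ f R C₁ R₁ R₃ ψ φ) {t : ℂ}
    (ht : t ∈ ball (0 : ℂ) ρ) : IsExt R₃⁻¹ (gg (farU ψ φ t)) := by
  have h0 := mem_ball_self (x := (0 : ℂ)) hf.ρ0
  apply isExt (R3_one hb) _ _ (fun z hz => farU_sub hf hb ht hz)
  · exact (farU_diff hf hb).comp (f := fun z : ℂ => ((t, z) : ℂ × ℂ)) (by fun_prop)
      (fun z hz => ⟨ht, hz⟩)
  · intro z hz z' hz' h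
    have e1 := hb.ψi t ht (hb.φ_norm h0 hz) (hb.φ_norm h0 hz') h
    have e2 := hb.ψφ 0 h0 z hz
    have e3 := hb.ψφ 0 h0 z' hz'
    rw [← e2, e1, e3]

theorem inv_large {R₃ : ℝ} (hR : 0 < R₃) {x : ℂ} (hx : x ∈ ball (0 : ℂ) R₃⁻¹) (hx0 : x ≠ 0) :
    R₃ < ‖x⁻¹‖ := by
  rw [norm_inv]
  exact (lt_inv_comm₀ (norm_pos_iff.2 hx0) hR).1 (mem_ball_zero_iff.mp hx)

theorem tc_one_farU (hf : FA a n ρ A f) (hb : BU a n ρ f R C₁ R₁ R₃ ψ φ) {t : ℂ}
    (ht : t ∈ ball (0 : ℂ) ρ) : tc (gg (farU ψ φ t)) 1 = 0 := by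
  have h1 : HasDerivAt (gg (farU ψ φ t)) 0 0 := by
    rw [hasDerivAt_iff_tendsto_slope]
    have h2 := (farU_asyp hf hb ht).comp Filter.tendsto_inv₀_nhdsNE_zero
    refine h2.congr' ?_
    filter_upwards [self_mem_nhdsWithin] with x hx
    have hx0 : x ≠ 0 := hx
    rw [slope_def_field, gg_of_ne hx0]
    have : gg (farU ψ φ t) 0 = 1 := by simp [gg]
    rw [this, sub_zero]
    simp only [Function.comp]
    field_simp
  unfold tc
  rw [iteratedDeriv_one, h1.deriv, mul_zero]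

/-- the infinitesimal motion, near infinity -/
noncomputable def Gv (ψ φ : ℂ × ℂ → ℂ) (x : ℂ) : ℂ := deriv (fun t => gg (farU ψ φ t) x) 0

theorem gg_joint (hf : FA a n ρ A f) (hb : BU a n ρ f R C₁ R₁ R₃ ψ φ) :
    DifferentiableOn ℂ (fun p : ℂ × ℂ => gg (farU ψ φ p.1) p.2)
      (ball (0 : ℂ) ρ ×ˢ {x : ℂ | x ≠ 0 ∧ x⁻¹ ∈ {z : ℂ | R₃ < ‖z‖}}) := by
  have hcong : ∀ p ∈ ball (0 : ℂ) ρ ×ˢ {x : ℂ | x ≠ 0 ∧ x⁻¹ ∈ {z : ℂ | R₃ < ‖z‖}},
      gg (farU ψ φ p.1) p.2 = p.2 * farU ψ φ p.1 (p.2)⁻¹ := by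
    rintro ⟨t, x⟩ ⟨ht, hx⟩
    exact gg_of_ne hx.1
  apply DifferentiableOn.congr _ hcong
  apply differentiable_snd.differentiableOn.mul
  refine (farU_diff hf hb).comp (f := fun p : ℂ × ℂ => ((p.1, p.2⁻¹) : ℂ × ℂ)) ?_
    (fun p hp => ⟨hp.1, hp.2.2⟩)
  apply differentiable_fst.differentiableOn.prodMk
  exact differentiable_snd.differentiableOn.fun_inv (fun p hp => hp.2.1)

theorem isOpen_far (R₃ : ℝ) : IsOpen {z : ℂ | R₃ < ‖z‖} := isOpen_lt continuous_const continuous_norm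

/-- derivative in the first variable of a jointly holomorphic function -/
theorem deriv_fst {Q : ℂ → ℂ → ℂ} {W : Set ℂ} (hW : IsOpen W) (hρ : 0 < ρ)
    (hQ : DifferentiableOn ℂ (fun p : ℂ × ℂ => Q p.1 p.2) (ball (0 : ℂ) ρ ×ˢ W)) :
    DifferentiableOn ℂ (fun z => deriv (fun t => Q t z) 0) W ∧
      ∀ z ∈ W, HasDerivAt (fun t => Q t z) (deriv (fun t => Q t z) 0) 0 := by
  have hSo : IsOpen (ball (0 : ℂ) ρ ×ˢ W) := isOpen_ball.prod hW
  set Ψ : ℂ × ℂ → ℂ := fun p => Q p.1 p.2 with hΨ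
  have hdd : DifferentiableOn ℂ (fun p => fderiv ℂ Ψ p (1, 0)) (ball (0 : ℂ) ρ ×ˢ W) :=
    Pool.Agent.Helper540.differentiableOn_fderiv_apply hSo hQ (1, 0)
  have hder : ∀ z ∈ W, HasDerivAt (fun t => Q t z) (fderiv ℂ Ψ (0, z) (1, 0)) 0 := by
    intro z hz
    have h2 := (hQ.differentiableAt (hSo.mem_nhds (show ((0 : ℂ), z) ∈ ball (0 : ℂ) ρ ×ˢ W from
      ⟨mem_ball_self hρ, hz⟩))).hasFDerivAt
    have h3 : HasDerivAt (fun t : ℂ => ((t, z) : ℂ × ℂ)) ((1, 0) : ℂ × ℂ) 0 :=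
      (hasDerivAt_id 0).prodMk (hasDerivAt_const 0 _)
    exact HasFDerivAt.comp_hasDerivAt (f := fun t : ℂ => ((t, z) : ℂ × ℂ)) 0 h2 h3
  refine ⟨?_, fun z hz => ?_⟩
  · have h1 : DifferentiableOn ℂ (fun z : ℂ => fderiv ℂ Ψ (0, z) (1, 0)) W :=
      hdd.comp (f := fun z : ℂ => ((0, z) : ℂ × ℂ)) (by fun_prop)
        (fun z hz => ⟨mem_ball_self hρ, hz⟩)
    exact h1.congr (fun z hz => (hder z hz).deriv)
  · rw [(hder z hz).deriv]
    exact hder z hz

theorem Gv_zero (ψ φ : ℂ × ℂ → ℂ) : Gv ψ φ 0 = 0 := by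
  unfold Gv
  have : (fun t : ℂ => gg (farU ψ φ t) 0) = fun _ => 1 := by
    funext t; simp [gg]
  rw [this, deriv_const]

theorem Gv_diff (hf : FA a n ρ A f) (hb : BU a n ρ f R C₁ R₁ R₃ ψ φ) :
    DifferentiableOn ℂ (Gv ψ φ) (ball 0 R₃⁻¹) := by
  have hR3 := R3_one hb
  have hR30 : 0 < R₃ := by linarith
  have hs : ball (0 : ℂ) R₃⁻¹ ∈ 𝓝 (0 : ℂ) := ball_mem_nhds _ (inv_pos.2 hR30)
  have hWo : IsOpen {x : ℂ | x ≠ 0 ∧ x⁻¹ ∈ {z : ℂ | R₃ < ‖z‖}} := isOpen_invpre (isOpen_far R₃)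
  obtain ⟨hd, hder⟩ := deriv_fst (Q := fun t x => gg (farU ψ φ t) x) hWo hf.ρ0 (gg_joint hf hb)
  rw [← Complex.differentiableOn_compl_singleton_and_continuousAt_iff hs]
  constructor
  · apply hd.mono
    intro x hx
    exact ⟨hx.2, inv_large hR30 hx.1 hx.2⟩
  · -- Cauchy's estimate
    have hρ := hf.ρ0
    have hb2 : ∀ x ∈ ball (0 : ℂ) R₃⁻¹, ‖Gv ψ φ x‖ ≤ 2 * C₁ * ‖x‖ / (ρ / 2) := by
      intro x hx
      by_cases hx0 : x = 0
      · rw [hx0, Gv_zero, norm_zero]; simp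
      · have hxl := inv_large hR30 hx hx0
        have h1 : Gv ψ φ x = deriv (fun t => gg (farU ψ φ t) x - 1) 0 := by
          rw [deriv_sub_const]; rfl
        rw [h1]
        apply Complex.norm_deriv_le_of_forall_mem_sphere_norm_le (by positivity)
        · apply DifferentiableOn.diffContOnCl
          rw [closure_ball _ (by positivity)]
          intro t ht
          have htρ : t ∈ ball (0 : ℂ) ρ := closedBall_subset_ball (by linarith) ht
          have h2 := (gg_joint hf hb).differentiableAt ((isOpen_ball.prod hWo).mem_nhds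
            (show ((t, x) : ℂ × ℂ) ∈ _ from ⟨htρ, hx0, hxl⟩))
          have h3 : DifferentiableAt ℂ (fun t => gg (farU ψ φ t) x) t :=
            h2.comp t (f := fun t : ℂ => ((t, x) : ℂ × ℂ)) (by fun_prop)
          exact (h3.sub_const 1).differentiableWithinAt
        · intro t ht
          have htρ : t ∈ ball (0 : ℂ) ρ := by
            rw [mem_sphere_zero_iff_norm] at ht
            rw [mem_ball_zero_iff, ht]; linarith
          rw [gg_of_ne hx0]
          have h2 : x * farU ψ φ t x⁻¹ - 1 = x * (farU ψ φ t x⁻¹ - x⁻¹) := by field_simp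
          rw [h2, norm_mul, mul_comm]
          exact mul_le_mul_of_nonneg_right (farU_sub hf hb htρ hxl) (norm_nonneg x)
    have hC := hb.hC
    rw [Metric.continuousAt_iff]
    intro ε hε
    refine ⟨min R₃⁻¹ (ε * (ρ / 2) / (2 * C₁)), lt_min (inv_pos.2 hR30) (by positivity), fun x hx => ?_⟩
    have hx1 : x ∈ ball (0 : ℂ) R₃⁻¹ := lt_of_lt_of_le hx (min_le_left _ _)
    have hx2 : ‖x‖ < ε * (ρ / 2) / (2 * C₁) := by
      have := lt_of_lt_of_le hx (min_le_right _ _)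
      rwa [dist_zero_right] at this
    rw [Gv_zero, dist_zero_right]
    refine (hb2 x hx1).trans_lt ?_
    rw [div_lt_iff₀ (by positivity)]
    rw [lt_div_iff₀ (by positivity)] at hx2
    linarith

theorem tc_Gv (hf : FA a n ρ A f) (hb : BU a n ρ f R C₁ R₁ R₃ ψ φ) (m : ℕ) :
    tc (Gv ψ φ) m = deriv (fun t => tc (gg (farU ψ φ t)) m) 0 := by
  have hR3 := R3_one hb
  have hR30 : 0 < R₃ := by linarith
  have hs : 0 < (R₃ + 1)⁻¹ := by positivity
  have hsR : (R₃ + 1)⁻¹ < R₃⁻¹ := inv_strictAnti₀ hR30 (by linarith)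
  have hWo : IsOpen {x : ℂ | x ≠ 0 ∧ x⁻¹ ∈ {z : ℂ | R₃ < ‖z‖}} := isOpen_invpre (isOpen_far R₃)
  refine (tc_param_deriv (Q := fun t x => gg (farU ψ φ t) x) hs hWo ?_ (gg_joint hf hb) ?_
    (mem_ball_self hf.ρ0) hsR (Gv_diff hf hb) m).symm
  · intro x hx
    rw [mem_sphere_zero_iff_norm] at hx
    refine ⟨?_, ?_⟩
    · rintro rfl
      rw [norm_zero] at hx
      linarith
    · show R₃ < ‖x⁻¹‖
      rw [norm_inv, hx, inv_inv]
      linarith
  · intro t ht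
    exact ⟨R₃⁻¹, hsR, (farU_ext hf hb ht).diff⟩

theorem tc_Gv_one (hf : FA a n ρ A f) (hb : BU a n ρ f R C₁ R₁ R₃ ψ φ) : tc (Gv ψ φ) 1 = 0 := by
  rw [tc_Gv hf hb]
  have h1 : (fun t => tc (gg (farU ψ φ t)) 1) =ᶠ[𝓝 0] fun _ => 0 := by
    filter_upwards [isOpen_ball.mem_nhds (mem_ball_self (x := (0 : ℂ)) hf.ρ0)] with t ht
    exact tc_one_farU hf hb ht
  rw [h1.deriv_eq, deriv_const]

/-- the infinitesimal motion -/
noncomputable def vv (ψ φ : ℂ × ℂ → ℂ) (z : ℂ) : ℂ := deriv (fun t => farU ψ φ t z) 0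

theorem Gv_eq (ψ φ : ℂ × ℂ → ℂ) {x : ℂ} (hx0 : x ≠ 0) : Gv ψ φ x = x * vv ψ φ x⁻¹ := by
  unfold Gv vv
  have h2 : (fun t : ℂ => gg (farU ψ φ t) x) = fun t => x * farU ψ φ t x⁻¹ := by
    funext t
    exact gg_of_ne hx0
  rw [h2, deriv_const_mul_field]

theorem tc_X_mul {F : ℂ → ℂ} {r : ℝ} (hr : 0 < r) (hF : DifferentiableOn ℂ F (ball 0 r)) (i : ℕ) :
    tc (fun x => x * F x) (i + 1) = tc F i := by
  have h := tc_unique (a := fun k => Nat.casesOn k 0 (fun k => tc F k)) (F := fun x => x * F x) hr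
    (differentiableOn_id.mul hF) ?_
  · rw [← h]
  · filter_upwards [ball_mem_nhds (0 : ℂ) hr] with x hx
    have h1 := (hasSum_tc hF hx).mul_left x
    rw [← hasSum_nat_add_iff' 1]
    have h2 : x * F x - ∑ i ∈ Finset.range 1, (Nat.casesOn i 0 (fun k => tc F k) : ℂ) * x ^ i =
        x * F x := by
      simp
    rw [h2]
    refine h1.congr_fun ?_
    intro k
    show tc F k * x ^ (k + 1) = x * (tc F k * x ^ k)
    ring

/-- the second order quotient -/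
theorem exists_W (hf : FA a n ρ A f) (hb : BU a n ρ f R C₁ R₁ R₃ ψ φ) :
    ∃ W : ℂ → ℂ, DifferentiableOn ℂ W (ball 0 R₃⁻¹) ∧ (∀ x, Gv ψ φ x = x * (x * W x)) ∧
      ∀ i, tc W i = tc (Gv ψ φ) (i + 2) := by
  have hR3 := R3_one hb
  have hR30 : 0 < R₃ := by linarith
  have hr : 0 < R₃⁻¹ := inv_pos.2 hR30
  have hs : ball (0 : ℂ) R₃⁻¹ ∈ 𝓝 (0 : ℂ) := ball_mem_nhds _ hr
  have hG := Gv_diff hf hb
  set G₁ : ℂ → ℂ := dslope (Gv ψ φ) 0 with hG₁
  have hG₁d : DifferentiableOn ℂ G₁ (ball 0 R₃⁻¹) := (Complex.differentiableOn_dslope hs).mpr hG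
  have e1 : ∀ x, Gv ψ φ x = x * G₁ x := by
    intro x
    have := sub_smul_dslope (Gv ψ φ) 0 x
    rw [Gv_zero, sub_zero, sub_zero, smul_eq_mul] at this
    exact this.symm
  have hGe : Gv ψ φ = fun x => x * G₁ x := funext e1
  have htc : ∀ i, tc G₁ i = tc (Gv ψ φ) (i + 1) := by
    intro i
    rw [← tc_X_mul hr hG₁d i, ← hGe]
  have h10 : G₁ 0 = 0 := by
    rw [← tc_zero G₁, htc 0]
    exact tc_Gv_one hf hb
  set W : ℂ → ℂ := dslope G₁ 0 with hW
  have hWd : DifferentiableOn ℂ W (ball 0 R₃⁻¹) := (Complex.differentiableOn_dslope hs).mpr hG₁d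
  have e2 : ∀ x, G₁ x = x * W x := by
    intro x
    have := sub_smul_dslope G₁ 0 x
    rw [h10, sub_zero, sub_zero, smul_eq_mul] at this
    exact this.symm
  have hG₁e : G₁ = fun x => x * W x := funext e2
  refine ⟨W, hWd, fun x => by rw [e1 x, e2 x], fun i => ?_⟩
  rw [← tc_X_mul hr hWd i, ← hG₁e, htc]

/-- the linearised conjugacy equation -/
theorem lin_eq (hf : FA a n ρ A f) (hb : BU a n ρ f R C₁ R₁ R₃ ψ φ) {z : ℂ} (hz : R₃ < ‖z‖) :
    (∑ i ∈ Finset.range (n + 2), deriv (fun t => (f t).coeff i) 0 * z ^ i) +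
      (derivative (f 0)).eval z * vv ψ φ z = vv ψ φ ((f 0).eval z) := by
  have h0 := mem_ball_self (x := (0 : ℂ)) hf.ρ0
  have hTz : R₃ < ‖fv f 0 z‖ := hb.large_of_large h0 hz 1
  obtain ⟨-, hder⟩ := deriv_fst (isOpen_far R₃) hf.ρ0 (farU_diff hf hb)
  have h1 := hder z hz
  have h2 := hder _ hTz
  -- the left-hand side of the conjugacy equation
  have h3 : HasDerivAt (fun t => fv f t (farU ψ φ t z))
      ((∑ i ∈ Finset.range (n + 2), deriv (fun t => (f t).coeff i) 0 * z ^ i) +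
      (derivative (f 0)).eval z * vv ψ φ z) 0 := by
    have h4 : ∀ i : ℕ, HasDerivAt (fun t => (f t).coeff i) (deriv (fun t => (f t).coeff i) 0) 0 :=
      fun i => ((hf.hol i).differentiableAt (isOpen_ball.mem_nhds h0)).hasDerivAt
    have h5 : HasDerivAt (fun t => ∑ i ∈ Finset.range (n + 2), (f t).coeff i * farU ψ φ t z ^ i)
        (∑ i ∈ Finset.range (n + 2), (deriv (fun t => (f t).coeff i) 0 * farU ψ φ 0 z ^ i +
          (f 0).coeff i * ((i : ℂ) * farU ψ φ 0 z ^ (i - 1) * vv ψ φ z))) 0 := by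
      apply HasDerivAt.fun_sum
      intro i _
      exact (h4 i).mul (h1.fun_pow i)
    rw [farU_zero hf hb hz, Finset.sum_add_distrib] at h5
    have h6 : ∑ i ∈ Finset.range (n + 2), (f 0).coeff i * ((i : ℂ) * z ^ (i - 1) * vv ψ φ z) =
        (derivative (f 0)).eval z * vv ψ φ z := by
      rw [derivative_eval, Polynomial.sum_over_range' (f 0) (by simp) (n + 2)
        (lt_of_le_of_lt (hf.deg 0 h0) (by omega)), Finset.sum_mul]
      apply Finset.sum_congr rfl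
      intro i _
      ring
    rw [h6] at h5
    refine h5.congr_of_eventuallyEq ?_
    filter_upwards [isOpen_ball.mem_nhds h0] with t ht
    exact Polynomial.eval_eq_sum_range' (lt_of_le_of_lt (hf.deg t ht) (by omega)) _
  have h7 : (fun t => fv f t (farU ψ φ t z)) =ᶠ[𝓝 0] fun t => farU ψ φ t (fv f 0 z) := by
    filter_upwards [isOpen_ball.mem_nhds h0] with t ht
    exact farU_conj hf hb ht hz
  have h8 := h3.deriv
  rw [h7.deriv_eq] at h8
  exact h8.symm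

end

end Pool.Agent.H69N.LA
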