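import Mathlib
import Pool.Agent.H69N.LA.Fm3

set_option autoImplicit false

open Topology Filter Metric Set Polynomial MeasureTheory

namespace Pool.Agent.H69N.LA

open Pool.Agent.H713R3.ZA (StROOT StINV StBSUM KJ QQ)
open Pool.Agent.H713R2
open Pool.Agent.H713R2.AR
open Pool.Agent.H713R3.ZA.GAIN (gg gg_of_ne isExt UU_eq)

section
variable {a : ℂ} {n : ℕ} {ρ A : ℝ} {f : ℂ → ℂ[X]} {R C₁ R₁ R₃ : ℝ} {ψ φ : ℂ × ℂ → ℂ}

/-- The coefficients of the derivative of the family in terms of the infinitesimal motion. -/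
theorem coeff_rel (hf : FA a n ρ A f) (hb : BU a n ρ f R C₁ R₁ R₃ ψ φ) {j : ℕ} (hj : j < n) :
    deriv (fun t => (f t).coeff j) 0 =
      -∑ q ∈ Finset.range (n - j), ((j + q + 2 : ℕ) : ℂ) * (f 0).coeff (j + q + 2) *
        tc (Gv ψ φ) (q + 2) := by
  have h0 := mem_ball_self (x := (0 : ℂ)) hf.ρ0
  have hR3 := R3_one hb
  have hR30 : 0 < R₃ := by linarith
  have hr : 0 < R₃⁻¹ := inv_pos.2 hR30
  obtain ⟨W, hWd, hGW, hWtc⟩ := exists_W hf hb
  set c : ℕ → ℂ := fun j => deriv (fun t => (f t).coeff j) 0 with hc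
  have hconst : ∀ k : ℕ, (∀ t ∈ ball (0 : ℂ) ρ, (f t).coeff k = (f 0).coeff k) → c k = 0 := by
    intro k hk
    have h1 : (fun t => (f t).coeff k) =ᶠ[𝓝 0] fun _ => (f 0).coeff k := by
      filter_upwards [isOpen_ball.mem_nhds h0] with t ht
      exact hk t ht
    simp only [hc]
    rw [h1.deriv_eq, deriv_const]
  have hcn : c n = 0 := hconst n hf.sec
  have hcn1 : c (n + 1) = 0 := hconst (n + 1) (fun t ht => by rw [hf.lead t ht, hf.lead 0 h0])
  -- reversed polynomials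
  set D1 : ℂ[X] := ∑ i ∈ Finset.range n, C (c (n - 1 - i)) * X ^ i with hD1
  set D2 : ℂ[X] := ∑ i ∈ Finset.range (n + 1), C (((n + 1 - i : ℕ) : ℂ) * (f 0).coeff (n + 1 - i)) * X ^ i
    with hD2
  have hD1c : ∀ i < n, D1.coeff i = c (n - 1 - i) := by
    intro i hi
    simp only [hD1, finsetSum_coeff, coeff_C_mul_X_pow]
    rw [Finset.sum_ite_eq, if_pos (Finset.mem_range.mpr hi)]
  have hD2c : ∀ i ≤ n, D2.coeff i = ((n + 1 - i : ℕ) : ℂ) * (f 0).coeff (n + 1 - i) := by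
    intro i hi
    simp only [hD2, finsetSum_coeff, coeff_C_mul_X_pow]
    rw [Finset.sum_ite_eq, if_pos (Finset.mem_range.mpr (by omega))]
  have hn := hf.n1
  have hD1e : ∀ x : ℂ, x ≠ 0 → D1.eval x = x ^ (n - 1) * ∑ i ∈ Finset.range (n + 2), c i * (x⁻¹) ^ i := by
    intro x hx
    rw [Finset.sum_range_succ, Finset.sum_range_succ, hcn, hcn1, zero_mul, zero_mul, add_zero,
      add_zero, hD1, eval_finsetSum, ← Finset.sum_range_reflect (fun i => eval x _), Finset.mul_sum]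
    apply Finset.sum_congr rfl
    intro i hi
    have hi' := Finset.mem_range.mp hi
    rw [eval_mul, eval_C, eval_pow, eval_X]
    have e1 : n - 1 - (n - 1 - i) = i := by omega
    rw [e1]
    have e2 : x ^ (n - 1) = x ^ (n - 1 - i) * x ^ i := by rw [← pow_add]; congr 1; omega
    rw [e2, inv_pow]
    field_simp
  have hD2e : ∀ x : ℂ, x ≠ 0 → D2.eval x = x ^ n * (derivative (f 0)).eval x⁻¹ := by
    intro x hx
    have e0 : (derivative (f 0)).eval x⁻¹ = ∑ i ∈ Finset.range (n + 1),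
        (f 0).coeff (i + 1) * ((i : ℂ) + 1) * (x⁻¹) ^ i := by
      have h1 : (derivative (f 0)).natDegree < n + 1 := by
        have := natDegree_derivative_le (f 0)
        have := hf.deg 0 h0
        omega
      rw [eval_eq_sum_range' h1]
      apply Finset.sum_congr rfl
      intro i _
      rw [coeff_derivative]
    rw [e0, hD2, eval_finsetSum, ← Finset.sum_range_reflect (fun i => eval x _), Finset.mul_sum]
    apply Finset.sum_congr rfl
    intro i hi
    have hi' := Finset.mem_range.mp hi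
    rw [eval_mul, eval_C, eval_pow, eval_X]
    have e1 : n + 1 - (n + 1 - 1 - i) = i + 1 := by omega
    rw [e1]
    have e2 : x ^ n = x ^ (n + 1 - 1 - i) * x ^ i := by rw [← pow_add]; congr 1; omega
    rw [e2, inv_pow]
    push_cast
    field_simp
  -- the combination vanishes to high order
  set G2 : ℂ → ℂ := fun x => D1.eval x + D2.eval x * W x with hG2
  have hD1d : DifferentiableOn ℂ (fun x => D1.eval x) (ball 0 R₃⁻¹) := D1.differentiable.differentiableOn
  have hD2d : DifferentiableOn ℂ (fun x => D2.eval x) (ball 0 R₃⁻¹) := D2.differentiable.differentiableOn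
  have hG2d : DifferentiableOn ℂ G2 (ball 0 R₃⁻¹) := hD1d.add (hD2d.mul hWd)
  obtain ⟨M, hM⟩ : ∃ M : ℝ, ∀ y ∈ closedBall (0 : ℂ) (R₃⁻¹ / 2), ‖W y‖ ≤ M :=
    (isCompact_closedBall (0 : ℂ) (R₃⁻¹ / 2)).exists_bound_of_continuousOn
      (hWd.continuousOn.mono (closedBall_subset_ball (by linarith)))
  have hG2b : ∀ᶠ x in 𝓝[≠] (0 : ℂ), ‖G2 x‖ ≤ |M| * ‖x‖ ^ n := by
    have hmem : ball (0 : ℂ) R₃⁻¹ ∈ 𝓝[≠] (0 : ℂ) := nhdsWithin_le_nhds (ball_mem_nhds _ hr)
    filter_upwards [hmem, self_mem_nhdsWithin] with x hx hx0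
    have hx0' : x ≠ 0 := hx0
    have hz := inv_large hR30 hx hx0'
    have hlin := lin_eq hf hb hz
    have hv : vv ψ φ x⁻¹ = x * W x := by
      have h1 := Gv_eq ψ φ hx0'
      rw [hGW x] at h1
      exact (mul_left_cancel₀ hx0' h1).symm
    have e1 : G2 x = x ^ (n - 1) * vv ψ φ ((f 0).eval x⁻¹) := by
      simp only [hG2]
      rw [hD1e x hx0', hD2e x hx0', ← hlin, hv]
      have : x ^ n = x ^ (n - 1) * x := by rw [← pow_succ]; congr 1; omega
      rw [this]
      ring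
    rw [e1, norm_mul, norm_pow]
    set w : ℂ := (f 0).eval x⁻¹ with hw
    have hwl : 2 * ‖x⁻¹‖ ≤ ‖w‖ := by
      apply hb.esc 0 h0
      have := hb.hR; have := hb.hR₁; have := hb.hR₃; have := hb.hC
      linarith
    have hxn : 0 < ‖x⁻¹‖ := norm_pos_iff.mpr (inv_ne_zero hx0')
    have hw0 : w ≠ 0 := by
      rw [← norm_pos_iff]
      linarith
    have hwi : ‖w⁻¹‖ ≤ ‖x‖ / 2 := by
      rw [norm_inv, inv_le_comm₀ (by linarith) (by positivity)]
      rw [norm_inv] at hwl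
      have : (‖x‖ / 2)⁻¹ = 2 * ‖x‖⁻¹ := by rw [inv_div]; ring
      rw [this]
      exact hwl
    have hvw : vv ψ φ w = w⁻¹ * W w⁻¹ := by
      have h1 := Gv_eq ψ φ (x := w⁻¹) (inv_ne_zero hw0)
      rw [hGW, inv_inv] at h1
      exact (mul_left_cancel₀ (inv_ne_zero hw0) h1).symm
    rw [hvw, norm_mul]
    have hxb : ‖x‖ < R₃⁻¹ := mem_ball_zero_iff.mp hx
    have h5 : ‖W w⁻¹‖ ≤ |M| := (hM w⁻¹ (by rw [mem_closedBall_zero_iff]; linarith)).trans (le_abs_self M)
    have h6 : ‖x‖ ^ n = ‖x‖ ^ (n - 1) * ‖x‖ := by rw [← pow_succ]; congr 1; omega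
    rw [h6]
    have h7 : ‖w⁻¹‖ * ‖W w⁻¹‖ ≤ ‖x‖ * |M| := by
      have h8 : 0 ≤ ‖x‖ := norm_nonneg x
      exact mul_le_mul (by linarith) h5 (norm_nonneg _) h8
    calc ‖x‖ ^ (n - 1) * (‖w⁻¹‖ * ‖W w⁻¹‖) ≤ ‖x‖ ^ (n - 1) * (‖x‖ * |M|) :=
          mul_le_mul_of_nonneg_left h7 (by positivity)
      _ = |M| * (‖x‖ ^ (n - 1) * ‖x‖) := by ring
  have hi : n - 1 - j < n := by omega
  have hz := tc_eq_zero hr hG2d hi hG2b
  have h1 : tc G2 (n - 1 - j) = D1.coeff (n - 1 - j) +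
      ∑ p ∈ Finset.HasAntidiagonal.antidiagonal (n - 1 - j), D2.coeff p.1 * tc W p.2 := by
    have hmul : DifferentiableOn ℂ (fun x => D2.eval x * W x) (ball 0 R₃⁻¹) := hD2d.mul hWd
    simp only [hG2]
    rw [tc_add hr hD1d hmul, tc_poly, tc_mul hr hD2d hWd]
    congr 1
    apply Finset.sum_congr rfl
    intro p _
    rw [tc_poly]
  rw [hz, hD1c _ hi, show n - 1 - (n - 1 - j) = j by omega] at h1
  have h2 : c j = -∑ p ∈ Finset.HasAntidiagonal.antidiagonal (n - 1 - j), D2.coeff p.1 * tc W p.2 := by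
    linear_combination -h1
  show c j = _
  rw [h2, ← Finset.Nat.sum_antidiagonal_swap, Finset.Nat.sum_antidiagonal_eq_sum_range_succ_mk,
    show (n - 1 - j).succ = n - j by omega]
  congr 1
  apply Finset.sum_congr rfl
  intro q hq
  have hq' := Finset.mem_range.mp hq
  simp only [Prod.swap]
  rw [hD2c _ (by omega), hWtc, show n + 1 - (n - 1 - j - q) = j + q + 2 by omega]

end

end Pool.Agent.H69N.LA
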