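import Mathlib
import Pool.Agent.H69N.LA.Fm4
import Pool.Agent.H713R3.ZA.TROOT
import Pool.Agent.H713R3.ZA.TINV
import Pool.Agent.H713R3.ZA.TBSUM

set_option autoImplicit false

open Topology Filter Metric Set Polynomial MeasureTheory

namespace Pool.Agent.H69N.LA

open Pool.Agent.H713R3.ZA (StROOT StINV StBSUM KJ QQ)
open Pool.Agent.H713R2

theorem uniq_rel {n : ℕ} {b c v v' : ℕ → ℂ} (hb : b (n + 1) ≠ 0)
    (h : ∀ j < n, c j = -∑ q ∈ Finset.range (n - j), ((j + q + 2 : ℕ) : ℂ) * b (j + q + 2) * v q)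
    (h' : ∀ j < n, c j = -∑ q ∈ Finset.range (n - j), ((j + q + 2 : ℕ) : ℂ) * b (j + q + 2) * v' q) :
    ∀ q < n, v q = v' q := by
  intro q
  induction q using Nat.strong_induction_on with
  | _ q ih =>
    intro hq
    have h1 := h (n - 1 - q) (by omega)
    have h2 := h' (n - 1 - q) (by omega)
    rw [h1, show n - (n - 1 - q) = q + 1 by omega, Finset.sum_range_succ, Finset.sum_range_succ,
      show n - 1 - q + q + 2 = n + 1 by omega, neg_inj] at h2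
    have h3 : ∑ x ∈ Finset.range q, ((n - 1 - q + x + 2 : ℕ) : ℂ) * b (n - 1 - q + x + 2) * v x =
        ∑ x ∈ Finset.range q, ((n - 1 - q + x + 2 : ℕ) : ℂ) * b (n - 1 - q + x + 2) * v' x := by
      apply Finset.sum_congr rfl
      intro x hx
      have hx' := Finset.mem_range.mp hx
      rw [ih x hx' (by omega)]
    rw [h3, add_right_inj] at h2
    have h4 : ((n + 1 : ℕ) : ℂ) * b (n + 1) ≠ 0 :=
      mul_ne_zero (by exact_mod_cast Nat.succ_ne_zero n) hb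
    exact mul_left_cancel₀ h4 h2

/-- The main theorem for families on the unit disc. -/
theorem family_bound {n : ℕ} (hn : 1 ≤ n) {a : ℂ} (ha : a ≠ 0) {f : ℂ → ℂ[X]}
    (hdeg : ∀ t ∈ ball (0 : ℂ) 1, (f t).natDegree ≤ n + 1)
    (hlead : ∀ t ∈ ball (0 : ℂ) 1, (f t).coeff (n + 1) = a)
    (hsec : ∀ t ∈ ball (0 : ℂ) 1, (f t).coeff n = (f 0).coeff n)
    (hhol : ∀ j : ℕ, DifferentiableOn ℂ (fun t => (f t).coeff j) (ball 0 1))
    (hnon : ∀ t ∈ ball (0 : ℂ) 1, ∀ c : ℂ, (derivative (f t)).eval c = 0 → c ∈ KJ (f t)) :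
    volume (KJ (f 0)) < ⊤ ∧ ∃ v : ℕ → ℂ,
      (∀ q < n, (Real.pi * ‖v q‖) ^ 2 ≤
        (volume (KJ (f 0))).toReal * ∫ z in KJ (f 0), ‖z‖ ^ (2 * q)) ∧
      ∀ j < n, deriv (fun t => (f t).coeff j) 0 =
        -∑ q ∈ Finset.range (n - j), ((j + q + 2 : ℕ) : ℂ) * (f 0).coeff (j + q + 2) * v q := by
  have hFA : ∀ ρ : ℝ, 0 < ρ → ρ < 1 → ∃ A : ℝ, FA a n ρ A f := by
    intro ρ hρ hρ1
    have hsub : ball (0 : ℂ) ρ ⊆ ball 0 1 := ball_subset_ball hρ1.le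
    have h1 : ∀ j : ℕ, ∃ A : ℝ, 0 ≤ A ∧ ∀ t ∈ ball (0 : ℂ) ρ, ‖(f t).coeff j‖ ≤ A := by
      intro j
      obtain ⟨A, hA⟩ := (isCompact_closedBall (0 : ℂ) ρ).exists_bound_of_continuousOn
        (f := fun t => (f t).coeff j) ((hhol j).continuousOn.mono (closedBall_subset_ball hρ1))
      exact ⟨max A 0, le_max_right _ _, fun t ht =>
        (hA t (ball_subset_closedBall ht)).trans (le_max_left _ _)⟩
    choose A hA0 hA using h1
    refine ⟨∑ i ∈ Finset.range (n + 2), A i, hρ, ha, hn, Finset.sum_nonneg fun i _ => hA0 i,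
      fun t ht => hdeg t (hsub ht), fun t ht => hlead t (hsub ht), fun t ht => hsec t (hsub ht),
      fun j => (hhol j).mono hsub, ?_, fun t ht => hnon t (hsub ht)⟩
    intro t ht j
    have hB0 : 0 ≤ ∑ i ∈ Finset.range (n + 2), A i := Finset.sum_nonneg fun i _ => hA0 i
    by_cases hj : j < n + 2
    · exact (hA j t ht).trans (Finset.single_le_sum (fun j _ => hA0 j) (Finset.mem_range.mpr hj))
    · rw [Polynomial.coeff_eq_zero_of_natDegree_lt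
        (lt_of_le_of_lt (hdeg t (hsub ht)) (by omega)), norm_zero]
      exact hB0
  have key : ∀ ρ : ℝ, 0 < ρ → ρ < 1 → volume (KJ (f 0)) < ⊤ ∧ ∃ v : ℕ → ℂ,
      (∀ q < n, (Real.pi * ρ * ‖v q‖) ^ 2 ≤
        (volume (KJ (f 0))).toReal * ∫ z in KJ (f 0), ‖z‖ ^ (2 * q)) ∧
      ∀ j < n, deriv (fun t => (f t).coeff j) 0 =
        -∑ q ∈ Finset.range (n - j), ((j + q + 2 : ℕ) : ℂ) * (f 0).coeff (j + q + 2) * v q := by
    intro ρ hρ hρ1
    obtain ⟨A, hf⟩ := hFA ρ hρ hρ1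
    obtain ⟨R, C₁, R₁, R₃, ψ, φ, hb⟩ := hf.exists_boett Pool.Agent.H713R3.ZA.bsum_holds
      Pool.Agent.H713R3.ZA.inv_holds
    refine ⟨?_, fun q => tc (Gv ψ φ) (q + 2), fun q _ => ?_, fun j hj => coeff_rel hf hb hj⟩
    · refine (measure_mono (t := ball (0 : ℂ) R) ?_).trans_lt measure_ball_lt_top
      intro z hz
      rw [mem_ball_zero_iff]
      exact hb.lt_of_mem_KJ (mem_ball_self hρ) hz 0
    · show (Real.pi * ρ * ‖tc (Gv ψ φ) (q + 2)‖) ^ 2 ≤ _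
      rw [tc_Gv hf hb]
      exact coeff_bound Pool.Agent.H713R3.ZA.root_holds hf hb q
  obtain ⟨hfin, v, -, hv⟩ := key (1 / 2) (by norm_num) (by norm_num)
  refine ⟨hfin, v, fun q hq => ?_, hv⟩
  have h1 : ∀ ρ : ℝ, 0 < ρ → ρ < 1 → (Real.pi * ρ * ‖v q‖) ^ 2 ≤
        (volume (KJ (f 0))).toReal * ∫ z in KJ (f 0), ‖z‖ ^ (2 * q) := by
    intro ρ hρ hρ1
    obtain ⟨-, v', hv', hv''⟩ := key ρ hρ hρ1
    have h2 : (f 0).coeff (n + 1) ≠ 0 := by
      rw [hlead 0 (mem_ball_self one_pos)]; exact ha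
    rw [uniq_rel h2 hv hv'' q hq]
    exact hv' q hq
  have hc : Tendsto (fun ρ : ℝ => (Real.pi * ρ * ‖v q‖) ^ 2) (𝓝[<] 1)
      (𝓝 ((Real.pi * 1 * ‖v q‖) ^ 2)) := by
    apply Tendsto.mono_left _ nhdsWithin_le_nhds
    exact (Continuous.tendsto (by fun_prop) 1)
  rw [mul_one] at hc
  apply le_of_tendsto hc
  have h3 : ∀ᶠ r : ℝ in 𝓝[<] 1, 0 < r := nhdsWithin_le_nhds (lt_mem_nhds one_pos)
  filter_upwards [h3, self_mem_nhdsWithin] with r hr hr1 using h1 r hr hr1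

end Pool.Agent.H69N.LA
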