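import Mathlib
import Pool.Agent.H713R5.QJ.Defs
import Pool.Agent.H792R2.Dyn.Family

/-! Indifferent periodic points in the family `T + t`: if `T + t` has no sink for `‖t‖ < ε` then `T`
has no indifferent periodic point. -/

set_option autoImplicit false

open Topology Filter Metric Set Polynomial MeasureTheory

namespace Pool.Agent.H69N.LA

open Pool.Agent.H713R5.QJ (ev)

/-- polynomial iterates -/
noncomputable def itp {A : Type} [CommRing A] (S : A[X]) (P : ℕ) : A[X] := S.comp^[P] X

theorem itp_eval (S : ℂ[X]) (P : ℕ) (z : ℂ) : (itp S P).eval z = (ev S)^[P] z := by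
  unfold itp
  rw [iterate_comp_eval, eval_X]
  rfl

theorem itp_map {A B : Type} [CommRing A] [CommRing B] (φ : A →+* B) (S : A[X]) (P : ℕ) :
    (itp S P).map φ = itp (S.map φ) P := by
  unfold itp
  induction P with
  | zero => simp
  | succ P ih => rw [Function.iterate_succ_apply', Function.iterate_succ_apply', Polynomial.map_comp, ih]

theorem itp_natDegree (S : ℂ[X]) (P : ℕ) : (itp S P).natDegree = S.natDegree ^ P := by
  unfold itp
  rw [natDegree_iterate_comp, natDegree_X, mul_one]

theorem itp_deriv (S : ℂ[X]) (P : ℕ) (z : ℂ) :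
    (derivative (itp S P)).eval z = deriv ((ev S)^[P]) z := by
  have h : (ev S)^[P] = fun z => (itp S P).eval z := by
    funext z; rw [itp_eval]
  rw [h, Polynomial.deriv]

/-- the constants -/
noncomputable def cc2 : ℂ →+* ℂ[X][X] := (C : ℂ[X] →+* ℂ[X][X]).comp (C : ℂ →+* ℂ[X])

/-- the bivariate polynomial which vanishes at `(t, w)` if and only if `T + t` has a point of period
dividing `P` with multiplier `w` -/
noncomputable def RT (T : ℂ[X]) (P : ℕ) : ℂ[X][X] :=
  resultant (itp (T.map cc2 + C (C X)) P - X)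
    (derivative (itp (T.map cc2 + C (C X)) P) - C X)
    (T.natDegree ^ P) (T.natDegree ^ P - 1)

theorem RT_eval (T : ℂ[X]) (hT : 2 ≤ T.natDegree) {P : ℕ} (hP : 0 < P) (t w : ℂ) :
    (RT T P).evalEval t w = 0 ↔ ∃ z : ℂ, (ev (T + C t))^[P] z = z ∧ deriv ((ev (T + C t))^[P]) z = w := by
  have hmap : (T.map cc2 + C (C X)).map (evalEvalRingHom t w) = T + C t := by
    rw [Polynomial.map_add, Polynomial.map_map, map_C]
    congr 1
    · have : (evalEvalRingHom t w).comp cc2 = RingHom.id ℂ := by
        ext x; simp [cc2]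
      rw [this, Polynomial.map_id]
    · simp
  set S : ℂ[X] := T + C t with hS
  have hSd : S.natDegree = T.natDegree := by rw [hS, natDegree_add_C]
  have hdeg : 2 ≤ T.natDegree ^ P := by
    calc 2 ≤ T.natDegree := hT
      _ = T.natDegree ^ 1 := (pow_one _).symm
      _ ≤ T.natDegree ^ P := Nat.pow_le_pow_right (by omega) hP
  have h1 : (RT T P).evalEval t w = resultant (itp S P - X) (derivative (itp S P) - C w)
      (T.natDegree ^ P) (T.natDegree ^ P - 1) := by
    have h2 := resultant_map_map (itp (T.map cc2 + C (C X)) P - X)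
      (derivative (itp (T.map cc2 + C (C X)) P) - C X)
      (T.natDegree ^ P) (T.natDegree ^ P - 1) (evalEvalRingHom t w)
    rw [coe_evalEvalRingHom] at h2
    unfold RT
    rw [← h2, Polynomial.map_sub, Polynomial.map_sub, map_X, map_C, ← derivative_map, itp_map, hmap]
    congr 2
    simp
  have hd : (itp S P - X).natDegree = T.natDegree ^ P := by
    rw [natDegree_sub_eq_left_of_natDegree_lt]
    · rw [itp_natDegree, hSd]
    · rw [itp_natDegree, hSd, natDegree_X]; omega
  have hne : itp S P - X ≠ 0 := by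
    intro h
    rw [h, natDegree_zero] at hd
    omega
  have hd2 : (derivative (itp S P) - C w).natDegree ≤ T.natDegree ^ P - 1 := by
    rw [natDegree_sub_C]
    refine (natDegree_derivative_le _).trans ?_
    rw [itp_natDegree, hSd]
  have h3 := resultant_eq_prod_eval (itp S P - X) (derivative (itp S P) - C w)
    (T.natDegree ^ P - 1) hd2 (IsAlgClosed.splits _)
  rw [hd] at h3
  rw [h1, h3, mul_eq_zero]
  have h4 : (itp S P - X).leadingCoeff ^ (T.natDegree ^ P - 1) ≠ 0 :=
    pow_ne_zero _ (leadingCoeff_ne_zero.mpr hne)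
  rw [or_iff_right h4, Multiset.prod_eq_zero_iff, Multiset.mem_map]
  constructor
  · rintro ⟨z, hz, hz2⟩
    rw [mem_roots hne, IsRoot.def, eval_sub, eval_X, itp_eval, sub_eq_zero] at hz
    rw [eval_sub, eval_C, itp_deriv, sub_eq_zero] at hz2
    exact ⟨z, hz, hz2⟩
  · rintro ⟨z, hz, hz2⟩
    refine ⟨z, ?_, ?_⟩
    · rw [mem_roots hne, IsRoot.def, eval_sub, eval_X, itp_eval, hz, sub_self]
    · rw [eval_sub, eval_C, itp_deriv, hz2, sub_self]

theorem continuous_evalEval (Q : ℂ[X][X]) : Continuous fun p : ℂ × ℂ => Q.evalEval p.1 p.2 := by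
  have h : (fun p : ℂ × ℂ => Q.evalEval p.1 p.2) = fun p =>
      ∑ i ∈ Finset.range (Q.natDegree + 1), (Q.coeff i).eval p.1 * p.2 ^ i := by
    funext p
    have h1 : eval (C p.2) Q = ∑ i ∈ Finset.range (Q.natDegree + 1), Q.coeff i * C p.2 ^ i :=
      eval_eq_sum_range _
    rw [evalEval, h1, eval_finsetSum]
    apply Finset.sum_congr rfl
    intro i _
    rw [eval_mul, eval_pow, eval_C]
  rw [h]
  apply continuous_finsetSum
  intro i _
  exact ((Q.coeff i).continuous.comp continuous_fst).mul (continuous_snd.pow i)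

theorem ev_diff (S : ℂ[X]) : Differentiable ℂ (ev S) := S.differentiable

/-- for large `t` all the cycles of `T + t` are repelling -/
theorem exists_repelling (T : ℂ[X]) (hT : 2 ≤ T.natDegree) :
    ∃ t : ℂ, ∀ (P : ℕ) (z : ℂ), 0 < P → (ev (T + C t))^[P] z = z →
      1 < ‖deriv ((ev (T + C t))^[P]) z‖ := by
  -- a radius
  obtain ⟨M, hM1, hM⟩ : ∃ M : ℝ, 1 ≤ M ∧ ∀ z : ℂ, M ≤ ‖z‖ →
      4 * ‖z‖ ≤ ‖T.eval z‖ ∧ 1 < ‖(derivative T).eval z‖ := by
    have h1 : Tendsto (fun z : ℂ => ‖(derivative T).eval z‖) (Bornology.cobounded ℂ) atTop := by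
      apply Polynomial.tendsto_norm_atTop
      · rw [degree_derivative (by omega)]
        exact_mod_cast (by omega : 0 < T.natDegree - 1)
      · exact tendsto_norm_cobounded_atTop
    have h2 := h1.eventually (eventually_gt_atTop 1)
    rw [← comap_norm_atTop, eventually_comap] at h2
    obtain ⟨M₁, hM₁⟩ := (eventually_atTop.mp h2)
    have hT0 : T ≠ 0 := by
      rintro rfl
      rw [natDegree_zero] at hT
      omega
    set p : ℂ[X] := C (1 / 2 : ℂ) * T with hp
    have hpn : p.natDegree = T.natDegree := natDegree_C_mul (by norm_num)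
    obtain ⟨A, hA0, hA⟩ : ∃ A : ℝ, 0 ≤ A ∧ ∀ i, ‖p.coeff i‖ ≤ A := by
      refine ⟨∑ i ∈ Finset.range (p.natDegree + 1), ‖p.coeff i‖,
        Finset.sum_nonneg fun i _ => norm_nonneg _, fun i => ?_⟩
      by_cases hi : i < p.natDegree + 1
      · exact Finset.single_le_sum (f := fun i => ‖p.coeff i‖) (fun j _ => norm_nonneg _)
          (Finset.mem_range.mpr hi)
      · rw [coeff_eq_zero_of_natDegree_lt (by omega), norm_zero]
        exact Finset.sum_nonneg fun i _ => norm_nonneg _
    have hl : 0 < ‖p.coeff T.natDegree‖ := by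
      rw [← hpn, norm_pos_iff, coeff_natDegree, leadingCoeff_ne_zero, hp]
      exact mul_ne_zero (by simp) hT0
    obtain ⟨M₂, hM₂1, hM₂⟩ := Pool.Agent.H792R2.Dyn.escape_radius hT hl hA0
    refine ⟨max M₁ M₂, hM₂1.trans (le_max_right _ _), fun z hz => ⟨?_, ?_⟩⟩
    · have h3 := hM₂ p hpn.le le_rfl hA z ((le_max_right _ _).trans hz)
      rw [hp, eval_mul, eval_C, norm_mul] at h3
      have : ‖(1 / 2 : ℂ)‖ = 1 / 2 := by simp
      rw [this] at h3
      linarith
    · exact hM₁ ‖z‖ ((le_max_left _ _).trans hz) z rfl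
  obtain ⟨m, hm⟩ := (isCompact_closedBall (0 : ℂ) M).exists_bound_of_continuousOn
    (f := fun z => T.eval z) T.continuous.continuousOn
  have hm0 : 0 ≤ m := (norm_nonneg _).trans (hm 0 (mem_closedBall_self (by linarith)))
  set t : ℂ := ((2 * m + M + 1 : ℝ) : ℂ) with ht
  have htn : ‖t‖ = 2 * m + M + 1 := by
    rw [ht, Complex.norm_real, Real.norm_of_nonneg (by positivity)]
  refine ⟨t, fun P z hP hz => ?_⟩
  set f : ℂ → ℂ := ev (T + C t) with hf
  have hfe : ∀ w, f w = T.eval w + t := fun w => by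
    show (T + C t).eval w = _
    rw [eval_add, eval_C]
  have hper : Function.IsPeriodicPt f P z := hz
  have hmod : ∀ k : ℕ, f^[k] z = f^[k % P] z := fun k => (hper.iterate_mod_apply k).symm
  -- the largest point of the cycle
  obtain ⟨k₀, hk₀, hmax⟩ := Finset.exists_max_image (Finset.range P) (fun k => ‖f^[k] z‖)
    ⟨0, Finset.mem_range.mpr hP⟩
  have hmax' : ∀ k, ‖f^[k] z‖ ≤ ‖f^[k₀] z‖ := fun k => by
    rw [hmod k]
    exact hmax _ (Finset.mem_range.mpr (Nat.mod_lt k hP))
  have hlarge : ∀ k, M ≤ ‖f^[k] z‖ := by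
    intro j
    by_contra hj
    push Not at hj
    have h1 : ‖f^[j + 1] z‖ ≥ ‖t‖ - m := by
      rw [Function.iterate_succ_apply', hfe]
      have h2 := hm (f^[j] z) (mem_closedBall_zero_iff.mpr hj.le)
      have h3 := norm_sub_norm_le t (-(T.eval (f^[j] z)))
      rw [norm_neg, sub_neg_eq_add, add_comm t] at h3
      have h2' : ‖T.eval (f^[j] z)‖ ≤ m := h2
      linarith
    have h2 := hmax' (j + 1)
    have h3 : M ≤ ‖f^[k₀] z‖ := by linarith
    have h4 := (hM _ h3).1
    have h5 : ‖f^[k₀ + 1] z‖ ≥ ‖T.eval (f^[k₀] z)‖ - ‖t‖ := by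
      rw [Function.iterate_succ_apply', hfe]
      have h3 := norm_sub_norm_le (T.eval (f^[k₀] z)) (-t)
      rw [norm_neg, sub_neg_eq_add] at h3
      exact h3
    have h6 := hmax' (k₀ + 1)
    linarith
  have hder : ∀ w, deriv f w = (derivative T).eval w := by
    intro w
    have : f = fun w => T.eval w + t := funext hfe
    rw [this, deriv_add_const, Polynomial.deriv]
  have hfd : Differentiable ℂ f := ev_diff _
  have key : ∀ N : ℕ, 1 ≤ ‖deriv (f^[N]) z‖ ∧ (0 < N → 1 < ‖deriv (f^[N]) z‖) := by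
    intro N
    induction N with
    | zero =>
      rw [Function.iterate_zero, deriv_id]
      simp
    | succ N ih =>
      have h1 : deriv (f^[N + 1]) z = deriv f (f^[N] z) * deriv (f^[N]) z := by
        rw [Function.iterate_succ']
        exact deriv_comp z (hfd _) ((hfd.iterate N) z)
      have h2 := (hM _ (hlarge N)).2
      rw [← hder] at h2
      have h3 : 1 < ‖deriv (f^[N + 1]) z‖ := by
        rw [h1, norm_mul]
        calc (1 : ℝ) = 1 * 1 := by ring
          _ < ‖deriv f (f^[N] z)‖ * ‖deriv (f^[N]) z‖ :=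
            mul_lt_mul h2 ih.1 one_pos (norm_nonneg _)
      exact ⟨h3.le, fun _ => h3⟩
  exact (key P).2 hP

/-- Without sinks nearby there are no indifferent periodic points. -/
theorem no_indifferent (T : ℂ[X]) (hT : 2 ≤ T.natDegree) {ε : ℝ} (hε : 0 < ε)
    (hs : ∀ t : ℂ, ‖t‖ < ε → ∀ (P : ℕ) (z : ℂ), 0 < P → (ev (T + C t))^[P] z = z →
      1 ≤ ‖deriv ((ev (T + C t))^[P]) z‖) {P : ℕ} (hP : 0 < P) {z : ℂ} (hz : (ev T)^[P] z = z) :
    ‖deriv ((ev T)^[P]) z‖ ≠ 1 := by
  intro hlam
  set lam : ℂ := deriv ((ev T)^[P]) z with hl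
  have hr0 : (RT T P).evalEval 0 lam = 0 := by
    rw [RT_eval T hT hP]
    exact ⟨z, by rw [C_0, add_zero]; exact hz, by rw [C_0, add_zero]⟩
  have hcont := continuous_evalEval (RT T P)
  -- the polynomial in `t`
  set r : ℂ → ℂ[X] := fun w => (RT T P).eval (C w) with hr
  have hre : ∀ t w, (RT T P).evalEval t w = (r w).eval t := fun t w => rfl
  have hzero : r lam = 0 := by
    by_contra hne
    -- a small circle without zeros
    obtain ⟨s, hs0, hsz⟩ := (Set.Ioo_infinite hε).exists_notMem_finset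
      ((r lam).roots.toFinset.image fun t => ‖t‖)
    have hsne : ∀ t ∈ sphere (0 : ℂ) s, (r lam).eval t ≠ 0 := by
      intro t ht h
      apply hsz
      rw [Finset.mem_image]
      refine ⟨t, ?_, mem_sphere_zero_iff_norm.mp ht⟩
      rw [Multiset.mem_toFinset, mem_roots hne]
      exact h
    have hsp : (sphere (0 : ℂ) s).Nonempty := (NormedSpace.sphere_nonempty).mpr hs0.1.le
    obtain ⟨t₁, ht₁, hmin⟩ := (isCompact_sphere (0 : ℂ) s).exists_isMinOn hsp
      ((r lam).continuous.norm.continuousOn)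
    set m : ℝ := ‖(r lam).eval t₁‖ with hm
    have hm0 : 0 < m := norm_pos_iff.mpr (hsne t₁ ht₁)
    have hK : IsCompact (closedBall (0 : ℂ) s ×ˢ closedBall lam 1) :=
      (isCompact_closedBall 0 s).prod (isCompact_closedBall lam 1)
    have huc := hK.uniformContinuousOn_of_continuous hcont.continuousOn
    rw [Metric.uniformContinuousOn_iff] at huc
    obtain ⟨δ, hδ, huc⟩ := huc (m / 2) (by positivity)
    set η : ℝ := min (δ / 2) (1 / 2) with hη
    have hη0 : 0 < η := lt_min (by positivity) (by norm_num)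
    have hηδ : η < δ := (min_le_left _ _).trans_lt (by linarith)
    have hη1 : η ≤ 1 / 2 := min_le_right _ _
    set w : ℂ := ((1 - η : ℝ) : ℂ) * lam with hw
    have hwn : ‖w‖ < 1 := by
      rw [hw, norm_mul, hlam, mul_one, Complex.norm_real, Real.norm_of_nonneg (by linarith)]
      linarith
    have hwd : dist w lam = η := by
      rw [dist_eq_norm]
      have : w - lam = ((-η : ℝ) : ℂ) * lam := by
        rw [hw]; push_cast; ring
      rw [this, norm_mul, hlam, mul_one, Complex.norm_real, norm_neg, Real.norm_of_nonneg hη0.le]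
    have hclose : ∀ t ∈ closedBall (0 : ℂ) s, ‖(r w).eval t - (r lam).eval t‖ < m / 2 := by
      intro t ht
      have h1 := huc (t, w) ⟨ht, by rw [mem_closedBall, hwd]; linarith⟩ (t, lam)
        ⟨ht, mem_closedBall_self zero_le_one⟩ (by
          rw [Prod.dist_eq, dist_self, hwd, max_eq_right hη0.le]
          exact hηδ)
      rw [dist_eq_norm] at h1
      exact h1
    have hqne : ∀ t ∈ closedBall (0 : ℂ) s, (r w).eval t ≠ 0 := by
      intro t ht h
      rw [← hre, RT_eval T hT hP] at h
      obtain ⟨z', hz1, hz2⟩ := h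
      have h2 := hs t (by rw [mem_closedBall_zero_iff] at ht; linarith [hs0.2]) P z' hP hz1
      rw [hz2] at h2
      linarith
    have hd : DiffContOnCl ℂ (fun t => ((r w).eval t)⁻¹) (ball (0 : ℂ) s) := by
      apply DifferentiableOn.diffContOnCl
      rw [closure_ball _ hs0.1.ne']
      exact (r w).differentiable.differentiableOn.fun_inv hqne
    have h1 := Complex.norm_le_of_forall_mem_frontier_norm_le (C := (m / 2)⁻¹) isBounded_ball hd
      (by
        intro t ht
        rw [frontier_ball _ hs0.1.ne'] at ht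
        rw [norm_inv]
        have h2 := hmin ht
        have h3 := hclose t (sphere_subset_closedBall ht)
        have h4 := norm_sub_norm_le ((r lam).eval t) ((r w).eval t)
        rw [norm_sub_rev] at h4
        have h2' : m ≤ ‖(r lam).eval t‖ := h2
        exact inv_anti₀ (by positivity) (by linarith)) (z := 0)
      (subset_closure (mem_ball_self hs0.1))
    have h0mem : (0 : ℂ) ∈ closedBall (0 : ℂ) s := mem_closedBall_self hs0.1.le
    rw [norm_inv, inv_le_inv₀ (norm_pos_iff.mpr (hqne 0 h0mem)) (by positivity)] at h1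
    have h2 := hclose 0 h0mem
    have h3 : (r lam).eval 0 = 0 := by rw [← hre]; exact hr0
    rw [h3, sub_zero] at h2
    linarith
  obtain ⟨t, ht⟩ := exists_repelling T hT
  have h1 : (RT T P).evalEval t lam = 0 := by rw [hre, hzero, eval_zero]
  rw [RT_eval T hT hP] at h1
  obtain ⟨z', hz1, hz2⟩ := h1
  have h2 := ht P z' hP hz1
  rw [hz2, hlam] at h2
  exact lt_irrefl _ h2

end Pool.Agent.H69N.LA
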