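import Mathlib
import Pool.Agent.H69N.LA.Fm5
import Pool.Agent.H69N.LA.Ind
import Pool.Agent.H713R3.ZA.TSURJ
import Pool.Agent.H713R5.QJ.Defs4
import Pool.Agent.H713R5.QJ.TFATP
import Pool.Agent.H713R5.QJ.TKO0
import Pool.Agent.H713R5.QJ.TKO1
import Pool.Agent.H713R5.QJ.TKO2
import Pool.Agent.H713R5.QJ.TKO3
import Pool.Agent.H713R5.QJ.TKBP
import Pool.Agent.Helper540.Osgood

set_option autoImplicit false

open Topology Filter Metric Set Polynomial MeasureTheory

namespace Pool.Agent.H69N.LA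

open Pool.Agent.H713R3.ZA (StROOT StINV StBSUM KJ QQ PE fam fx dfam)
open Pool.Agent.H713R5.QJ (ev Sk AT Good Para Sieg JS)

/-- Every sink attracts a critical point. -/
theorem sink_attracts (T : ℂ[X]) (hT : 2 ≤ T.natDegree) {P : ℕ} (hP : 0 < P) {z : ℂ}
    (hz : (ev T)^[P] z = z) (hd : ‖deriv ((ev T)^[P]) z‖ < 1) :
    ∃ c : ℂ, (derivative T).eval c = 0 ∧ AT (ev T) P c := by
  obtain ⟨n, hn⟩ : ∃ n, T.natDegree = n + 1 := ⟨T.natDegree - 1, by omega⟩
  have hn1 : 1 ≤ n := by omega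
  obtain ⟨x, hx⟩ := Pool.Agent.H713R3.ZA.surj_holds n T hn1 hn
  set a := T.coeff (n + 1) with ha
  have ha0 : a ≠ 0 := by
    rw [ha, ← hn, coeff_natDegree, leadingCoeff_ne_zero]
    rintro rfl
    rw [natDegree_zero] at hT
    omega
  have hfx : fx a n x = ev T := by
    funext w
    show (fam a n x).eval w = T.eval w
    rw [hx]
  obtain ⟨i, l, h⟩ := Pool.Agent.H713R5.QJ.fatp_holds Pool.Agent.H713R5.QJ.ko0_holds
    Pool.Agent.H713R5.QJ.ko1_holds Pool.Agent.H713R5.QJ.ko2_holds Pool.Agent.H713R5.QJ.ko3_holds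
    Pool.Agent.H713R3.ZA.root_holds Pool.Agent.H713R5.QJ.kbp_holds a n P ha0 hn1 hP x z
    (by rw [hfx]; exact hz) (by rw [hfx]; exact hd)
  rw [hfx] at h
  refine ⟨x (some i), ?_, _, h⟩
  rw [← hx, Pool.Agent.H713R3.ZA.derivative_fam, dfam, eval_mul, eval_prod]
  apply mul_eq_zero_of_right
  apply Finset.prod_eq_zero (Finset.mem_univ i)
  simp

/-- If no critical point of `T + t` is captured, for all small `t`, then the points which do not
escape are in none of the basins. -/
theorem KJ_sub_JS (T : ℂ[X]) (hT : 2 ≤ T.natDegree) {ε : ℝ} (hε : 0 < ε)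
    (hc : ∀ t : ℂ, ‖t‖ < ε → ∀ c : ℂ, (derivative T).eval c = 0 → ¬ Good (ev (T + C t)) c) :
    KJ T ⊆ JS T := by
  have hs : ∀ t : ℂ, ‖t‖ < ε → ∀ (P : ℕ) (z : ℂ), 0 < P → (ev (T + C t))^[P] z = z →
      1 ≤ ‖deriv ((ev (T + C t))^[P]) z‖ := by
    intro t ht P z hP hz
    by_contra hlt
    push Not at hlt
    obtain ⟨c, hc1, hc2⟩ := sink_attracts (T + C t) (by rw [natDegree_add_C]; exact hT) hP hz hlt
    rw [derivative_add, derivative_C, add_zero] at hc1
    exact hc t ht c hc1 (Or.inr ⟨P, hP, hc2⟩)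
  have h0 : T + C (0 : ℂ) = T := by rw [C_0, add_zero]
  intro z hz
  rintro (h | h | h)
  · rcases h with h | ⟨P, hP, w, hw1, hw2, -⟩
    · exact hz h
    · have h1 := hs 0 (by rw [norm_zero]; exact hε) P w hP (by rw [h0]; exact hw1)
      rw [h0] at h1
      linarith
  · obtain ⟨p, x, hp, h1, h2, -⟩ := h
    exact no_indifferent T hT hε hs hp h1 (by rw [h2, norm_one])
  · obtain ⟨m, p, r, h, lam, hp, hr, hlam, -, hd, hi, hconj, -⟩ := h
    have hmem : (0 : ℂ) ∈ ball (0 : ℂ) r := mem_ball_self hr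
    have h1 : (ev T)^[p] (h 0) = h 0 := by rw [hconj 0 hmem, mul_zero]
    have h2 : deriv h 0 ≠ 0 :=
      Pool.Agent.Helper540.deriv_ne_zero_of_injOn isOpen_ball hd hi hmem
    have hh0 : HasDerivAt h (deriv h 0) 0 := (hd.differentiableAt (isOpen_ball.mem_nhds hmem)).hasDerivAt
    have h3 : HasDerivAt ((ev T)^[p]) (deriv ((ev T)^[p]) (h 0)) (h 0) :=
      (((ev_diff T).iterate p) (h 0)).hasDerivAt
    have h4 : HasDerivAt (fun w => (ev T)^[p] (h w)) (deriv ((ev T)^[p]) (h 0) * deriv h 0) 0 :=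
      h3.comp 0 hh0
    have h5 : HasDerivAt (fun w => h (lam * w)) (deriv h 0 * lam) 0 := by
      have h6 : HasDerivAt h (deriv h 0) (lam * 0) := by rw [mul_zero]; exact hh0
      have h7 : HasDerivAt (fun w : ℂ => lam * w) lam 0 := by
        simpa using (hasDerivAt_id (0 : ℂ)).const_mul lam
      exact h6.comp 0 h7
    have h6 : (fun w => (ev T)^[p] (h w)) =ᶠ[𝓝 0] fun w => h (lam * w) := by
      filter_upwards [isOpen_ball.mem_nhds hmem] with w hw using hconj w hw
    have h7 := h6.deriv_eq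
    rw [h4.deriv, h5.deriv, mul_comm] at h7
    have h8 := mul_left_cancel₀ h2 h7
    exact no_indifferent T hT hε hs hp h1 (by rw [h8, hlam])

theorem JS_sub_KJ (T : ℂ[X]) : JS T ⊆ KJ T := fun _ hz h => hz (Or.inl (Or.inl h))

/-- The bound for translations. -/
theorem translation_bound (T : ℂ[X]) (hT : 2 ≤ T.natDegree) {g : ℂ → ℂ}
    (hg : DifferentiableOn ℂ g (ball 0 1)) (hg0 : g 0 = 0)
    (hc : ∀ s ∈ ball (0 : ℂ) 1, ∀ c : ℂ, (derivative T).eval c = 0 → ¬ Good (ev (T + C (g s))) c) :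
    volume (JS T) < ⊤ ∧ (Real.pi * ‖deriv g 0‖) ^ 2 ≤ (T.natDegree * ‖T.leadingCoeff‖) ^ 2 *
      ((volume (JS T)).toReal * ∫ z in JS T, ‖z‖ ^ (2 * (T.natDegree - 2))) := by
  obtain ⟨n, hn⟩ : ∃ n, T.natDegree = n + 1 := ⟨T.natDegree - 1, by omega⟩
  have hn1 : 1 ≤ n := by omega
  set a := T.coeff (n + 1) with ha
  have hal : T.leadingCoeff = a := by rw [ha, ← hn, coeff_natDegree]
  have ha0 : a ≠ 0 := by
    rw [← hal, leadingCoeff_ne_zero]
    rintro rfl
    rw [natDegree_zero] at hT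
    omega
  have h0mem : (0 : ℂ) ∈ ball (0 : ℂ) 1 := mem_ball_self one_pos
  have hf0 : T + C (g 0) = T := by rw [hg0, C_0, add_zero]
  have hcoef : ∀ s j, (T + C (g s)).coeff j = T.coeff j + if j = 0 then g s else 0 := by
    intro s j
    rw [coeff_add, coeff_C]
  obtain ⟨hfin, v, hv, hrel⟩ := family_bound hn1 ha0 (f := fun s => T + C (g s))
    (fun s _ => by rw [natDegree_add_C, hn])
    (fun s _ => by rw [hcoef, if_neg (by omega), add_zero])
    (fun s _ => by rw [hcoef, hcoef, if_neg (by omega), if_neg (by omega)])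
    (fun j => by
      simp only [hcoef]
      by_cases hj : j = 0
      · simp only [if_pos hj]
        exact hg.const_add _
      · simp only [if_neg hj]
        exact differentiableOn_const _)
    (fun s hs c hcc => by
      rw [derivative_add, derivative_C, add_zero] at hcc
      intro h
      exact hc s hs c hcc (Or.inl h))
  simp only [hf0] at hfin hv hrel
  refine ⟨(measure_mono (JS_sub_KJ T)).trans_lt hfin, ?_⟩
  by_cases hg' : deriv g 0 = 0
  · rw [hg', norm_zero, mul_zero, zero_pow two_ne_zero]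
    positivity
  · -- open mapping
    have han : AnalyticAt ℂ g 0 := hg.analyticAt (isOpen_ball.mem_nhds h0mem)
    have hopen : 𝓝 (g 0) ≤ map g (𝓝 0) := by
      rcases han.eventually_constant_or_nhds_le_map_nhds with h | h
      · exfalso
        apply hg'
        have h1 : g =ᶠ[𝓝 0] fun _ => g 0 := h
        rw [h1.deriv_eq, deriv_const]
      · exact h
    have himg : g '' ball 0 1 ∈ 𝓝 (0 : ℂ) := by
      rw [hg0] at hopen
      exact hopen (image_mem_map (isOpen_ball.mem_nhds h0mem))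
    obtain ⟨ε, hε, hball⟩ := Metric.mem_nhds_iff.mp himg
    have hKJ : KJ T = JS T := by
      apply Subset.antisymm _ (JS_sub_KJ T)
      apply KJ_sub_JS T hT hε
      intro t ht c hcc
      obtain ⟨s, hs, rfl⟩ := hball (mem_ball_zero_iff.mpr ht)
      exact hc s hs c hcc
    rw [hKJ] at hv
    -- identification of the coefficients
    set v' : ℕ → ℂ := fun q => if q = n - 1 then -(deriv g 0) / (((n + 1 : ℕ) : ℂ) * a) else 0 with hv'
    have hb : T.coeff (n + 1) ≠ 0 := ha0
    have hne : ((n + 1 : ℕ) : ℂ) * a ≠ 0 := mul_ne_zero (by exact_mod_cast Nat.succ_ne_zero n) ha0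
    have hrel' : ∀ j < n, deriv (fun t => (T + C (g t)).coeff j) 0 =
        -∑ q ∈ Finset.range (n - j), ((j + q + 2 : ℕ) : ℂ) * T.coeff (j + q + 2) * v' q := by
      intro j hj
      simp only [hcoef]
      by_cases hj0 : j = 0
      · subst hj0
        simp only [if_true]
        rw [deriv_const_add, Finset.sum_eq_single (n - 1)]
        · simp only [hv', if_true]
          rw [show 0 + (n - 1) + 2 = n + 1 by omega, ← ha, mul_div_cancel₀ _ hne, neg_neg]
        · intro q _ hq
          simp only [hv', if_neg hq, mul_zero]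
        · intro h
          exact absurd (Finset.mem_range.mpr (by omega)) h
      · simp only [if_neg hj0]
        rw [deriv_const, eq_comm, neg_eq_zero]
        apply Finset.sum_eq_zero
        intro q hq
        have hq' := Finset.mem_range.mp hq
        simp only [hv', if_neg (show q ≠ n - 1 by omega), mul_zero]
    have hvv := uniq_rel hb hrel hrel' (n - 1) (by omega)
    have h1 := hv (n - 1) (by omega)
    rw [hvv] at h1
    simp only [hv', if_true] at h1
    rw [norm_div, norm_neg, norm_mul, Complex.norm_natCast] at h1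
    rw [hn, hal, show n + 1 - 2 = n - 1 by omega]
    have hpos : 0 < (((n + 1 : ℕ) : ℝ) * ‖a‖) ^ 2 := by
      have := norm_pos_iff.mpr ha0
      positivity
    calc (Real.pi * ‖deriv g 0‖) ^ 2 = (((n + 1 : ℕ) : ℝ) * ‖a‖) ^ 2 *
          (Real.pi * (‖deriv g 0‖ / (((n + 1 : ℕ) : ℝ) * ‖a‖))) ^ 2 := by
          have h3 : ‖a‖ ≠ 0 := norm_ne_zero_iff.mpr ha0
          have h4 : ((n + 1 : ℕ) : ℝ) ≠ 0 := by positivity
          field_simp
      _ ≤ _ := mul_le_mul_of_nonneg_left h1 hpos.le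

end Pool.Agent.H69N.LA
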