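import Mathlib
import Pool.Agent.H69N.LA.Tr

set_option autoImplicit false

open Topology Filter Metric Set Polynomial MeasureTheory

namespace Pool.Agent.H69N.LA

open Pool.Agent.H713R3.ZA (KJ)
open Pool.Agent.H713R5.QJ (ev Sk AT Good Para Sieg JS)

theorem uni_ev (d : ℕ) (c z : ℂ) : ev (X ^ d + C c) z = z ^ d + c := by
  show (X ^ d + C c).eval z = _
  simp

/-- escape from outside the disc of radius `2 ^ (1 / (d - 1))` -/
theorem uni_escape {d : ℕ} (hd : 2 ≤ d) {c z : ℂ} (hz : 2 < ‖z‖ ^ (d - 1)) (hc : ‖c‖ ≤ ‖z‖) :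
    Tendsto (fun k : ℕ => ‖(ev (X ^ d + C c))^[k] z‖) atTop atTop := by
  have hz0 : 0 < ‖z‖ := by
    rcases (norm_nonneg z).eq_or_lt with h | h
    · rw [← h, zero_pow (by omega)] at hz
      linarith
    · exact h
  set lam : ℝ := ‖z‖ ^ (d - 1) - 1 with hlam
  have hlam1 : 1 < lam := by linarith
  have key : ∀ k : ℕ, lam ^ k * ‖z‖ ≤ ‖(ev (X ^ d + C c))^[k] z‖ := by
    intro k
    induction k with
    | zero => simp
    | succ k ih =>
      rw [Function.iterate_succ_apply']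
      set w := (ev (X ^ d + C c))^[k] z with hw
      have h1 : ‖z‖ ≤ ‖w‖ := by
        have : 1 * ‖z‖ ≤ lam ^ k * ‖z‖ := mul_le_mul_of_nonneg_right (one_le_pow₀ hlam1.le) hz0.le
        linarith
      rw [uni_ev]
      have h2 : ‖w‖ ^ d - ‖c‖ ≤ ‖w ^ d + c‖ := by
        have := norm_sub_norm_le (w ^ d) (-c)
        rwa [norm_neg, sub_neg_eq_add, norm_pow] at this
      have h3 : ‖w‖ ^ d = ‖w‖ ^ (d - 1) * ‖w‖ := by rw [← pow_succ]; congr 1; omega
      have h4 : ‖z‖ ^ (d - 1) ≤ ‖w‖ ^ (d - 1) := pow_le_pow_left₀ hz0.le h1 _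
      have h5 : lam * ‖w‖ ≤ ‖w‖ ^ d - ‖c‖ := by
        rw [h3]
        have h6 : ‖z‖ ^ (d - 1) * ‖w‖ ≤ ‖w‖ ^ (d - 1) * ‖w‖ :=
          mul_le_mul_of_nonneg_right h4 (norm_nonneg w)
        have h7 : lam * ‖w‖ = ‖z‖ ^ (d - 1) * ‖w‖ - ‖w‖ := by rw [hlam]; ring
        linarith
      calc lam ^ (k + 1) * ‖z‖ = lam * (lam ^ k * ‖z‖) := by ring
        _ ≤ lam * ‖w‖ := mul_le_mul_of_nonneg_left ih (by linarith)
        _ ≤ _ := h5.trans h2
  exact tendsto_atTop_mono key ((tendsto_pow_atTop_atTop_of_one_lt hlam1).atTop_mul_const hz0)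

theorem uni_escape_zero {d : ℕ} (hd : 2 ≤ d) {c : ℂ} (hc : 2 < ‖c‖ ^ (d - 1)) :
    Tendsto (fun k : ℕ => ‖(ev (X ^ d + C c))^[k] 0‖) atTop atTop := by
  rw [← tendsto_add_atTop_iff_nat 1]
  have h := uni_escape hd hc le_rfl
  have h1 : ev (X ^ d + C c) 0 = c := by
    rw [uni_ev, zero_pow (by omega), zero_add]
  simp only [Function.iterate_succ_apply, h1]
  exact h

theorem uni_KJ {d : ℕ} (hd : 2 ≤ d) {c : ℂ} (h0 : (0 : ℂ) ∈ KJ (X ^ d + C c)) {z : ℂ}
    (hz : z ∈ KJ (X ^ d + C c)) : ‖z‖ ^ (d - 1) ≤ 2 := by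
  have hc : ‖c‖ ^ (d - 1) ≤ 2 := by
    by_contra h
    exact h0 (uni_escape_zero hd (not_le.mp h))
  by_contra h
  push Not at h
  apply hz
  apply uni_escape hd h
  by_contra h2
  push Not at h2
  have := pow_le_pow_left₀ (norm_nonneg z) h2.le (d - 1)
  linarith

theorem uni_rpow {d : ℕ} (hd : 2 ≤ d) {x : ℝ} (hx : 0 ≤ x) (h : x ^ (d - 1) ≤ 2) :
    x ^ (d - 2) ≤ (2 : ℝ) ^ (((d : ℝ) - 2) / ((d : ℝ) - 1)) := by
  have hd1 : (0 : ℝ) < (d : ℝ) - 1 := by
    have : (2 : ℝ) ≤ d := by exact_mod_cast hd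
    linarith
  have h1 : x ≤ (2 : ℝ) ^ (1 / ((d : ℝ) - 1)) := by
    have h2 : x = (x ^ (d - 1)) ^ (1 / ((d : ℝ) - 1)) := by
      rw [← Real.rpow_natCast, ← Real.rpow_mul hx, Nat.cast_sub (by omega : 1 ≤ d), Nat.cast_one,
        mul_one_div_cancel hd1.ne', Real.rpow_one]
    rw [h2]
    exact Real.rpow_le_rpow (by positivity) h (by positivity)
  calc x ^ (d - 2) ≤ ((2 : ℝ) ^ (1 / ((d : ℝ) - 1))) ^ (d - 2) := pow_le_pow_left₀ hx h1 _
    _ = (2 : ℝ) ^ (((d : ℝ) - 2) / ((d : ℝ) - 1)) := by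
      rw [← Real.rpow_natCast, ← Real.rpow_mul (by norm_num), Nat.cast_sub hd]
      congr 1
      push_cast
      ring

theorem unicritical_gen {d : ℕ} (hd : 2 ≤ d) {g : ℂ → ℂ} (hg : DifferentiableOn ℂ g (ball 0 1))
    (h : ∀ s ∈ ball (0 : ℂ) 1, ¬ Good (ev (X ^ d + C (g s))) 0) :
    Real.pi * ‖deriv g 0‖ ≤ d * (2 : ℝ) ^ (((d : ℝ) - 2) / ((d : ℝ) - 1)) *
      (volume (JS (X ^ d + C (g 0)))).toReal := by
  set c : ℂ := g 0 with hc
  set T : ℂ[X] := X ^ d + C c with hT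
  have hTd : T.natDegree = d := natDegree_X_pow_add_C
  have hTl : T.leadingCoeff = 1 := leadingCoeff_X_pow_add_C (by omega)
  have hg' : DifferentiableOn ℂ (fun s : ℂ => g s - c) (ball 0 1) := hg.sub_const c
  have hTs : ∀ s : ℂ, T + C (g s - c) = X ^ d + C (g s) := by
    intro s
    rw [hT, C_sub]
    ring
  obtain ⟨hfin, h1⟩ := translation_bound T (by rw [hTd]; exact hd) hg' (by simp [hc]) (by
    intro s hs c₀ hc₀
    have h2 : c₀ = 0 := by
      rw [hT, derivative_add, derivative_C, add_zero, derivative_X_pow] at hc₀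
      simp only [eval_mul, eval_C, eval_pow, eval_X, mul_eq_zero, Nat.cast_eq_zero] at hc₀
      rcases hc₀ with h3 | h3
      · omega
      · exact pow_eq_zero_iff (by omega) |>.mp h3
    rw [h2, hTs]
    exact h s hs)
  rw [deriv_sub_const, hTd, hTl, norm_one, mul_one] at h1
  set A : ℝ := (volume (JS T)).toReal with hA
  have hA0 : 0 ≤ A := ENNReal.toReal_nonneg
  set B : ℝ := (2 : ℝ) ^ (((d : ℝ) - 2) / ((d : ℝ) - 1)) with hB
  have hB0 : 0 ≤ B := by positivity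
  have h0 : (0 : ℂ) ∈ KJ T := by
    intro h2
    exact h 0 (mem_ball_self one_pos) (Or.inl h2)
  have hI : ∫ z in JS T, ‖z‖ ^ (2 * (d - 2)) ≤ B ^ 2 * A := by
    have h2 : ∀ z ∈ JS T, ‖‖z‖ ^ (2 * (d - 2))‖ ≤ B ^ 2 := by
      intro z hz
      rw [Real.norm_of_nonneg (by positivity), mul_comm 2, pow_mul]
      exact pow_le_pow_left₀ (by positivity)
        (uni_rpow hd (norm_nonneg z) (uni_KJ hd h0 (JS_sub_KJ T hz))) 2
    have h3 := norm_setIntegral_le_of_norm_le_const hfin h2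
    exact (le_abs_self _).trans h3
  have h2 : (Real.pi * ‖deriv g 0‖) ^ 2 ≤ (d * B * A) ^ 2 := by
    refine h1.trans ?_
    calc (d : ℝ) ^ 2 * (A * ∫ z in JS T, ‖z‖ ^ (2 * (d - 2))) ≤ (d : ℝ) ^ 2 * (A * (B ^ 2 * A)) := by
          gcongr
      _ = (d * B * A) ^ 2 := by ring
  exact abs_le_of_sq_le_sq' h2 (by positivity) |>.2

theorem unicritical {d : ℕ} (hd : 2 ≤ d) {c : ℂ} {ε : ℝ} (hε : 0 < ε)
    (h : ∀ c' : ℂ, ‖c' - c‖ < ε → ¬ Good (ev (X ^ d + C c')) 0) :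
    Real.pi * ε ≤ d * (2 : ℝ) ^ (((d : ℝ) - 2) / ((d : ℝ) - 1)) *
      (volume (JS (X ^ d + C c))).toReal := by
  have hg : DifferentiableOn ℂ (fun s : ℂ => c + (ε : ℂ) * s) (ball 0 1) := by fun_prop
  have h1 := unicritical_gen hd hg (by
    intro s hs
    apply h
    rw [add_sub_cancel_left, norm_mul, Complex.norm_real, Real.norm_of_nonneg hε.le]
    have := mem_ball_zero_iff.mp hs
    calc ε * ‖s‖ < ε * 1 := mul_lt_mul_of_pos_left this hε
      _ = ε := mul_one ε)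
  have hder : deriv (fun s : ℂ => c + (ε : ℂ) * s) 0 = ε := by
    rw [deriv_const_add, deriv_const_mul_field, deriv_id'', mul_one]
  rw [hder, Complex.norm_real, Real.norm_of_nonneg hε.le] at h1
  simpa using h1

/-- a bound of the second moment by the area -/
theorem moment_bound {S : Set ℂ} (hS : volume S < ⊤) {x D R : ℝ} (hD : 0 ≤ D)
    (hR : 0 ≤ R) (hSR : ∀ z ∈ S, ‖z‖ ≤ R) {q : ℕ}
    (h : x ^ 2 ≤ D ^ 2 * ((volume S).toReal * ∫ z in S, ‖z‖ ^ (2 * q))) :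
    x ≤ D * R ^ q * (volume S).toReal := by
  have hA0 : 0 ≤ (volume S).toReal := ENNReal.toReal_nonneg
  have hI : ∫ z in S, ‖z‖ ^ (2 * q) ≤ R ^ (2 * q) * (volume S).toReal := by
    have h2 : ∀ z ∈ S, ‖‖z‖ ^ (2 * q)‖ ≤ R ^ (2 * q) := by
      intro z hz
      rw [Real.norm_of_nonneg (by positivity)]
      exact pow_le_pow_left₀ (norm_nonneg z) (hSR z hz) _
    have h3 := norm_setIntegral_le_of_norm_le_const hS h2
    exact (le_abs_self _).trans h3
  have h2 : x ^ 2 ≤ (D * R ^ q * (volume S).toReal) ^ 2 := by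
    refine h.trans ?_
    calc D ^ 2 * ((volume S).toReal * ∫ z in S, ‖z‖ ^ (2 * q)) ≤
        D ^ 2 * ((volume S).toReal * (R ^ (2 * q) * (volume S).toReal)) := by gcongr
      _ = (D * R ^ q * (volume S).toReal) ^ 2 := by ring
  exact abs_le_of_sq_le_sq' h2 (by positivity) |>.2

/-- The set of the points which do not escape has finite area. -/
theorem KJ_fin (T : ℂ[X]) (hT : 2 ≤ T.natDegree) : volume (KJ T) < ⊤ := by
  obtain ⟨A, hA0, hA⟩ : ∃ A : ℝ, 0 ≤ A ∧ ∀ i, ‖T.coeff i‖ ≤ A := by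
    refine ⟨∑ i ∈ Finset.range (T.natDegree + 1), ‖T.coeff i‖,
      Finset.sum_nonneg fun i _ => norm_nonneg _, fun i => ?_⟩
    by_cases hi : i < T.natDegree + 1
    · exact Finset.single_le_sum (f := fun i => ‖T.coeff i‖) (fun j _ => norm_nonneg _)
        (Finset.mem_range.mpr hi)
    · rw [coeff_eq_zero_of_natDegree_lt (by omega), norm_zero]
      exact Finset.sum_nonneg fun i _ => norm_nonneg _
  have hl : 0 < ‖T.coeff T.natDegree‖ := by
    rw [norm_pos_iff, coeff_natDegree, leadingCoeff_ne_zero]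
    rintro rfl
    rw [natDegree_zero] at hT
    omega
  obtain ⟨R, hR1, hR⟩ := Pool.Agent.H792R2.Dyn.escape_radius hT hl hA0
  have hsub : KJ T ⊆ ball (0 : ℂ) R := by
    intro z hz
    rw [mem_ball_zero_iff]
    by_contra h
    push Not at h
    exact hz (Pool.Agent.H792R2.Dyn.attr_of_large (by linarith) (hR T le_rfl le_rfl hA) h)
  exact (measure_mono hsub).trans_lt measure_ball_lt_top

theorem JS_fin (T : ℂ[X]) (hT : 2 ≤ T.natDegree) : volume (JS T) < ⊤ :=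
  (measure_mono (JS_sub_KJ T)).trans_lt (KJ_fin T hT)

end Pool.Agent.H69N.LA
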